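import Mathlib

/-! Definitions for the strong monodromy conjecture (with multiplicities) for monomial ideals. -/

namespace Pool.Agent.MP_ee8c61_ag.H48

open MvPolynomial

variable {n r : ℕ}

/-- Elements of `D[s_1, ..., s_r]`: finite sums of `p(x, s) ∂_{i_1} ⋯ ∂_{i_k}`. -/
abbrev DiffOp (n r : ℕ) : Type :=
  List (Fin n) →₀ MvPolynomial (Fin n) (MvPolynomial (Fin r) ℂ)

/-- The operator with `s` specialised to natural numbers, applied to a polynomial. -/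
noncomputable def act (P : DiffOp n r) (s : Fin r → ℕ) (g : MvPolynomial (Fin n) ℂ) :
    MvPolynomial (Fin n) ℂ :=
  P.sum fun L p => map (eval fun j => (s j : ℂ)) p * L.foldr (fun i h => pderiv i h) g

/-- The Bernstein-Sato functional equation of `(f_1, ..., f_r)`, at all `s ∈ ℕ^r`. -/
def IsBS (f : Fin r → MvPolynomial (Fin n) ℂ) (b : Polynomial ℂ) : Prop :=
  ∃ (S : Finset (Fin r → ℤ)) (P : (Fin r → ℤ) → DiffOp n r), (∀ c ∈ S, ∑ j, c j = 1) ∧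
    ∀ s : Fin r → ℕ, C (b.eval (∑ j, (s j : ℂ))) * ∏ j, f j ^ s j =
      ∑ c ∈ S, act (P c) s
        (C (∏ j, ((s j).choose (-c j).toNat : ℂ)) * ∏ j, f j ^ ((s j : ℤ) + c j).toNat)

/-- Order of vanishing of the monomial ideal along the toric divisor with primitive vector `w`. -/
noncomputable def ordAlong (a : Fin r → Fin n →₀ ℕ) (w : Fin n → ℕ) : ℕ :=
  ⨅ j, ∑ i, w i * a j i

/-- The same for a real weight vector. -/
noncomputable def mOrd (a : Fin r → Fin n →₀ ℕ) (w : Fin n → ℝ) : ℝ :=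
  ⨅ j, ∑ i, w i * a j i

/-- `F` lists the maximal cones (rows of `σ` = rays) of a unimodular subdivision of the positive
orthant on each cone of which `ordAlong a` is linear. -/
def IsToricRes (a : Fin r → Fin n →₀ ℕ) (F : Finset (Matrix (Fin n) (Fin n) ℕ)) : Prop :=
  (∀ σ ∈ F, |(σ.map (fun x => (x : ℤ))).det| = 1) ∧
  (∀ σ ∈ F, ∃ j, ∀ k, ordAlong a (σ k) = ∑ i, σ k i * a j i) ∧
  (∀ w : Fin n → ℝ, (∀ i, 0 ≤ w i) →
    ∃ σ ∈ F, ∃ t : Fin n → ℝ, (∀ k, 0 ≤ t k) ∧ ∀ i, w i = ∑ k, t k * σ k i) ∧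
  ∀ σ ∈ F, ∀ τ ∈ F, ∀ t u : Fin n → ℝ, (∀ k, 0 < t k) → (∀ k, 0 < u k) →
    (∀ i, ∑ k, t k * σ k i = ∑ k, u k * τ k i) → σ = τ

/-- The Denef-Loeser sum for the toric log resolution. -/
noncomputable def zetaTop (a : Fin r → Fin n →₀ ℕ) (F : Finset (Matrix (Fin n) (Fin n) ℕ)) :
    RatFunc ℂ :=
  ∑ σ ∈ F, ∏ k, 1 / ((ordAlong a (σ k) : RatFunc ℂ) * RatFunc.X + ((∑ i, σ k i : ℕ) : RatFunc ℂ))

end Pool.Agent.MP_ee8c61_ag.H48
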