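import Mathlib
import Pool.Agent.MP_ee8c61_ag.H48.Defs

namespace Pool.Agent.MP_ee8c61_ag.H48

open MvPolynomial

variable {n r : ℕ}

/-- multiplicity vector of a list -/
noncomputable def cnt (L : List (Fin n)) : Fin n →₀ ℕ := (L.map (fun i => Finsupp.single i 1)).sum

theorem cnt_cons (i : Fin n) (L : List (Fin n)) : cnt (i :: L) = Finsupp.single i 1 + cnt L := by
  simp [cnt]

theorem foldr_pderiv_monomial (L : List (Fin n)) (w : Fin n →₀ ℕ) (κ : ℂ) :
    L.foldr (fun i h => pderiv i h) (monomial w κ) =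
      monomial (w - cnt L) (κ * ∏ i, ((w i).descFactorial (cnt L i) : ℂ)) := by
  induction L with
  | nil => simp [cnt]
  | cons i L ih =>
    rw [List.foldr_cons, ih, pderiv_monomial, cnt_cons]
    congr 1
    · rw [add_comm, tsub_add_eq_tsub_tsub]
    · rw [mul_assoc]
      congr 1
      rw [← Finset.mul_prod_erase Finset.univ _ (Finset.mem_univ i),
        ← Finset.mul_prod_erase Finset.univ _ (Finset.mem_univ i)]
      have : ∏ x ∈ Finset.univ.erase i,
          ((w x).descFactorial ((Finsupp.single i 1 + cnt L : Fin n →₀ ℕ) x) : ℂ) =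
          ∏ x ∈ Finset.univ.erase i, ((w x).descFactorial (cnt L x) : ℂ) := by
        refine Finset.prod_congr rfl (fun x hx => ?_)
        have := Finset.ne_of_mem_erase hx
        simp [Finsupp.single_apply, this.symm]
      rw [this]
      simp only [Finsupp.coe_add, Pi.add_apply, Finsupp.single_eq_same, Finsupp.coe_tsub,
        Pi.sub_apply]
      rw [add_comm 1, Nat.descFactorial_succ]
      push_cast
      ring

theorem prod_monomial_pow (a : Fin r → Fin n →₀ ℕ) (e : Fin r → ℕ) :
    ∏ j, (monomial (a j) (1 : ℂ)) ^ e j = monomial (∑ j, e j • a j) 1 := by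
  simp only [monomial_pow, one_pow]
  rw [← monomial_sum_one]

/-- the linear forms `l_i(s)` -/
noncomputable def lin (a : Fin r → Fin n →₀ ℕ) (i : Fin n) : MvPolynomial (Fin r) ℂ :=
  ∑ j, C (a j i : ℂ) * X j

/-- the integers `l_i(c)` -/
def linZ (a : Fin r → Fin n →₀ ℕ) (c : Fin r → ℤ) (i : Fin n) : ℤ := ∑ j, (a j i : ℤ) * c j

/-- the product of linear forms dividing `g_c` -/
noncomputable def eFac (a : Fin r → Fin n →₀ ℕ) (c : Fin r → ℤ) : MvPolynomial (Fin r) ℂ :=
  (∏ j ∈ Finset.univ.filter (fun j => c j < 0), X j) *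
    ∏ i ∈ Finset.univ.filter (fun i => 0 < linZ a c i), (1 + lin a i)

theorem dvd_aeval_descPochhammer (y : MvPolynomial (Fin r) ℂ) (k m : ℕ) (hm : m < k) :
    (y - (m : MvPolynomial (Fin r) ℂ)) ∣ Polynomial.aeval y (descPochhammer ℂ k) := by
  have h : (Polynomial.X - Polynomial.C (m : ℂ)) ∣ descPochhammer ℂ k := by
    rw [Polynomial.dvd_iff_isRoot, Polynomial.IsRoot, descPochhammer_eval_eq_descFactorial,
      Nat.descFactorial_of_lt hm]
    simp
  have := map_dvd (Polynomial.aeval y) h
  simpa using this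

theorem eval_aeval (x : Fin r → ℂ) (y : MvPolynomial (Fin r) ℂ) (p : Polynomial ℂ) :
    eval x (Polynomial.aeval y p) = p.eval (eval x y) := by
  have := Polynomial.aeval_algHom_apply (aeval x : MvPolynomial (Fin r) ℂ →ₐ[ℂ] ℂ) y p
  simp only [aeval_eq_eval, Polynomial.coe_aeval_eq_eval] at this
  exact this.symm

theorem term_eq (a : Fin r → Fin n →₀ ℕ) (c : Fin r → ℤ) (L : List (Fin n))
    (p : MvPolynomial (Fin n) (MvPolynomial (Fin r) ℂ)) :
    ∃ h : MvPolynomial (Fin r) ℂ, ∀ s : Fin r → ℕ,
      coeff (∑ j, s j • a j) (map (eval fun j => (s j : ℂ)) p * L.foldr (fun i h => pderiv i h)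
        (C (∏ j, ((s j).choose (-c j).toNat : ℂ)) *
          ∏ j, (monomial (a j) (1 : ℂ)) ^ ((s j : ℤ) + c j).toNat)) =
      eval (fun j => (s j : ℂ)) (eFac a c * h) := by
  classical
  by_cases hα : ∀ i, linZ a c i ≤ cnt L i
  · let α : Fin n →₀ ℕ := Finsupp.equivFunOnFinite.symm (fun i => ((cnt L i : ℤ) - linZ a c i).toNat)
    let G1 : MvPolynomial (Fin r) ℂ :=
      ∏ j, (C ((((-c j).toNat.factorial : ℕ) : ℂ)⁻¹) *
        Polynomial.aeval (X j : MvPolynomial (Fin r) ℂ) (descPochhammer ℂ (-c j).toNat))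
    let G2 : MvPolynomial (Fin r) ℂ :=
      ∏ i, Polynomial.aeval (lin a i + C (linZ a c i : ℂ)) (descPochhammer ℂ (cnt L i))
    have d1 : (∏ j ∈ Finset.univ.filter (fun j => c j < 0), X j) ∣ G1 := by
      refine (Finset.prod_dvd_prod_of_dvd _ _ (fun j hj => ?_)).trans
        (Finset.prod_dvd_prod_of_subset _ _ _ (Finset.filter_subset _ _))
      have hj' := (Finset.mem_filter.mp hj).2
      have := dvd_aeval_descPochhammer (X j : MvPolynomial (Fin r) ℂ) (-c j).toNat 0 (by omega)
      simp only [Nat.cast_zero, sub_zero] at this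
      exact this.mul_left _
    have d2 : (∏ i ∈ Finset.univ.filter (fun i => 0 < linZ a c i), (1 + lin a i)) ∣ G2 := by
      refine (Finset.prod_dvd_prod_of_dvd _ _ (fun i hi => ?_)).trans
        (Finset.prod_dvd_prod_of_subset _ _ _ (Finset.filter_subset _ _))
      have hi' := (Finset.mem_filter.mp hi).2
      obtain ⟨m, hm⟩ : ∃ m : ℕ, linZ a c i = m + 1 := ⟨(linZ a c i - 1).toNat, by omega⟩
      have := dvd_aeval_descPochhammer (lin a i + C (linZ a c i : ℂ)) (cnt L i) m
        (by have := hα i; omega)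
      convert this using 1
      rw [hm]
      simp only [Int.cast_add, Int.cast_natCast, Int.cast_one, map_add, map_natCast, map_one]
      ring
    obtain ⟨h, hh⟩ := mul_dvd_mul d1 d2
    refine ⟨h * coeff α p, fun s => ?_⟩
    rw [← mul_assoc, eFac, ← hh]
    have e1 : eval (fun j => (s j : ℂ)) G1 = ∏ j, ((s j).choose (-c j).toNat : ℂ) := by
      simp only [G1, map_prod, map_mul, eval_C, eval_aeval, eval_X]
      refine Finset.prod_congr rfl (fun j _ => ?_)
      rw [Nat.cast_choose_eq_descPochhammer_div, div_eq_inv_mul]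
    rw [map_mul, map_mul, e1]
    by_cases hs : ∀ j, 0 ≤ (s j : ℤ) + c j
    · rw [prod_monomial_pow, C_mul_monomial, foldr_pderiv_monomial, coeff_mul_monomial']
      set w : Fin n →₀ ℕ := ∑ j, ((s j : ℤ) + c j).toNat • a j with hw
      set u : Fin n →₀ ℕ := ∑ j, s j • a j with hu
      have hwu : ∀ i, (w i : ℤ) = u i + linZ a c i := by
        intro i
        simp only [hw, hu, linZ, Finsupp.coe_finsetSum, Finset.sum_apply, Finsupp.coe_smul,
          Pi.smul_apply, smul_eq_mul]
        push_cast
        rw [← Finset.sum_add_distrib]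
        refine Finset.sum_congr rfl (fun j _ => ?_)
        rw [Int.toNat_of_nonneg (hs j)]
        ring
      have e2 : eval (fun j => (s j : ℂ)) G2 = ∏ i, ((w i).descFactorial (cnt L i) : ℂ) := by
        simp only [G2, map_prod, eval_aeval]
        refine Finset.prod_congr rfl (fun i _ => ?_)
        rw [← descPochhammer_eval_eq_descFactorial]
        congr 1
        have : ((w i : ℤ) : ℂ) = ((u i + linZ a c i : ℤ) : ℂ) := by rw [hwu]
        push_cast at this
        rw [this]
        simp [lin, hu, mul_comm]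
      rw [e2]
      by_cases hc : ∀ i, cnt L i ≤ w i
      · have hle : w - cnt L ≤ u := by
          intro i
          have := hwu i
          have := hα i
          simp only [Finsupp.coe_tsub, Pi.sub_apply]
          omega
        have hsub : u - (w - cnt L) = α := by
          ext i
          have := hwu i
          have := hα i
          have := hc i
          simp only [α, Finsupp.coe_tsub, Pi.sub_apply, Finsupp.coe_equivFunOnFinite_symm]
          omega
        rw [if_pos hle, hsub, coeff_map]
        ring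
      · push Not at hc
        obtain ⟨i, hi⟩ := hc
        have : ∏ i, ((w i).descFactorial (cnt L i) : ℂ) = 0 :=
          Finset.prod_eq_zero (Finset.mem_univ i) (by rw [Nat.descFactorial_of_lt hi]; simp)
        rw [this]
        simp
    · push Not at hs
      obtain ⟨j, hj⟩ := hs
      have : ∏ j, ((s j).choose (-c j).toNat : ℂ) = 0 :=
        Finset.prod_eq_zero (Finset.mem_univ j) (by rw [Nat.choose_eq_zero_of_lt (by omega)]; simp)
      rw [this, prod_monomial_pow, C_mul_monomial, foldr_pderiv_monomial]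
      simp
  · refine ⟨0, fun s => ?_⟩
    push Not at hα
    obtain ⟨i, hi⟩ := hα
    rw [mul_zero, map_zero]
    by_cases hs : ∀ j, 0 ≤ (s j : ℤ) + c j
    · rw [prod_monomial_pow, C_mul_monomial, foldr_pderiv_monomial, coeff_mul_monomial', if_neg]
      intro hle
      have h1 := hle i
      have hwu : (((∑ j, ((s j : ℤ) + c j).toNat • a j : Fin n →₀ ℕ) i : ℕ) : ℤ) =
          (∑ j, s j • a j : Fin n →₀ ℕ) i + linZ a c i := by
        simp only [linZ, Finsupp.coe_finsetSum, Finset.sum_apply, Finsupp.coe_smul,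
          Pi.smul_apply, smul_eq_mul]
        push_cast
        rw [← Finset.sum_add_distrib]
        refine Finset.sum_congr rfl (fun j _ => ?_)
        rw [Int.toNat_of_nonneg (hs j)]
        ring
      simp only [Finsupp.coe_tsub, Pi.sub_apply] at h1
      omega
    · push Not at hs
      obtain ⟨j, hj⟩ := hs
      have : ∏ j, ((s j).choose (-c j).toNat : ℂ) = 0 :=
        Finset.prod_eq_zero (Finset.mem_univ j) (by rw [Nat.choose_eq_zero_of_lt (by omega)]; simp)
      rw [this, prod_monomial_pow, C_mul_monomial, foldr_pderiv_monomial]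
      simp

theorem bs_identity (a : Fin r → Fin n →₀ ℕ) (b : Polynomial ℂ)
    (hb : IsBS (fun j => monomial (a j) (1 : ℂ)) b) :
    ∃ (S : Finset (Fin r → ℤ)) (h : (Fin r → ℤ) → MvPolynomial (Fin r) ℂ),
      (∀ c ∈ S, ∑ j, c j = 1) ∧
      Polynomial.aeval (∑ j, X j : MvPolynomial (Fin r) ℂ) b = ∑ c ∈ S, eFac a c * h c := by
  obtain ⟨S, P, hS, hP⟩ := hb
  choose h hh using term_eq a
  refine ⟨S, fun c => (P c).sum (fun L p => h c L p), hS, ?_⟩
  apply funext_set (fun _ => Set.range (fun m : ℕ => (m : ℂ)))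
    (fun _ => Set.infinite_range_of_injective Nat.cast_injective)
  intro x hx
  choose s hs using fun j => hx j (Set.mem_univ j)
  obtain rfl : x = fun j => (s j : ℂ) := funext (fun j => (hs j).symm)
  have := congrArg (coeff (∑ j, s j • a j)) (hP s)
  rw [prod_monomial_pow, C_mul_monomial, coeff_monomial, if_pos rfl, mul_one, coeff_sum] at this
  rw [eval_aeval, map_sum, map_sum]
  simp only [eval_X]
  rw [this]
  refine Finset.sum_congr rfl (fun c _ => ?_)
  simp only [act, Finsupp.sum, coeff_sum, hh, Finset.mul_sum, map_sum]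

end Pool.Agent.MP_ee8c61_ag.H48
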