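import Mathlib
import Pool.Agent.MP_ee8c61_ag.H48.Defs

/-! The Denef-Loeser formula for a polynomial whose exponent vectors are linearly independent. -/

namespace Pool.Agent.MP_ee8c61_ag.H48

variable {n k r N : ℕ}

/-- The generator `f_i`: the sum of the monomials `γ_j x^{a_j}` with `π j = i`. -/
noncomputable def gens (a : Fin r → Fin n →₀ ℕ) (π : Fin r → Fin k) (γ : Fin r → ℂ) (i : Fin k) :
    MvPolynomial (Fin n) ℂ :=
  ∑ j ∈ Finset.univ.filter (fun j => π j = i), MvPolynomial.monomial (a j) (γ j)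

/-- The exponent vectors `(a_j, e_{π j})` of `g = ∑ y_i f_i`. -/
noncomputable def cay (a : Fin r → Fin n →₀ ℕ) (π : Fin r → Fin k) (j : Fin r) :
    Fin (n + k) →₀ ℕ :=
  Finsupp.equivFunOnFinite.symm (Fin.append (a j) (fun i => if π j = i then 1 else 0))

/-- The exponents on the face of the Newton polyhedron dual to the cone `τ`. -/
noncomputable def face (A : Fin r → Fin N →₀ ℕ) (τ : Finset (Fin N → ℕ)) : Finset (Fin r) :=
  Finset.univ.filter (fun j => ∀ ρ ∈ τ, ordAlong A ρ = ∑ i, ρ i * A j i)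

/-- `w` lies in the relative interior of the cone with rays `τ`. -/
def InCone (τ : Finset (Fin N → ℕ)) (w : Fin N → ℝ) : Prop :=
  ∃ t : (Fin N → ℕ) → ℝ, (∀ ρ ∈ τ, 0 < t ρ) ∧ ∀ i, w i = ∑ ρ ∈ τ, t ρ * ρ i

/-- `Φ` lists all cones (as sets of rays) of a smooth subdivision of the positive orthant on each
cone of which `ordAlong A` is linear. -/
def IsSmoothFan (A : Fin r → Fin N →₀ ℕ) (Φ : Finset (Finset (Fin N → ℕ))) : Prop :=
  (∀ τ ∈ Φ, ∃ σ : Matrix (Fin N) (Fin N) ℕ,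
    |(σ.map (fun x => (x : ℤ))).det| = 1 ∧ ∀ ρ ∈ τ, ∃ l, σ l = ρ) ∧
  (∀ τ ∈ Φ, (face A τ).Nonempty) ∧
  ∀ w : Fin N → ℝ, (∀ i, 0 ≤ w i) → ∃! τ, τ ∈ Φ ∧ InCone τ w

/-- Normalised lattice volume of the simplex with vertices `A j`, `j ∈ T`: the number of lattice
points in the fundamental parallelepiped spanned by the vectors `(A j, 1)`. -/
noncomputable def vol (A : Fin r → Fin N →₀ ℕ) (T : Finset (Fin r)) : ℕ :=
  Nat.card {c : Fin r → AddCircle (1 : ℚ) //
    (∀ j ∉ T, c j = 0) ∧ ∑ j, c j = 0 ∧ ∀ i, ∑ j, A j i • c j = 0}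

/-- Euler characteristic of the torus orbit of `τ` minus the strict transform. -/
noncomputable def chiOff (A : Fin r → Fin N →₀ ℕ) (τ : Finset (Fin N → ℕ)) : ℤ :=
  if τ.card + (face A τ).card = N + 1 then (-1) ^ (N - τ.card) * vol A (face A τ) else 0

/-- Euler characteristic of the torus orbit of `τ` intersected with the strict transform. -/
noncomputable def chiOn (A : Fin r → Fin N →₀ ℕ) (τ : Finset (Fin N → ℕ)) : ℤ :=
  (if τ.card = N then 1 else 0) - chiOff A τ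

/-- The Denef-Loeser sum for the toric embedded resolution of `g`. -/
noncomputable def zetaDL (A : Fin r → Fin N →₀ ℕ) (Φ : Finset (Finset (Fin N → ℕ))) :
    RatFunc ℂ :=
  ∑ τ ∈ Φ, ((chiOff A τ : RatFunc ℂ) + (chiOn A τ : RatFunc ℂ) / (RatFunc.X + 1)) *
    ∏ ρ ∈ τ, 1 / ((ordAlong A ρ : RatFunc ℂ) * RatFunc.X + ((∑ i, ρ i : ℕ) : RatFunc ℂ))

end Pool.Agent.MP_ee8c61_ag.H48
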