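import Mathlib
import Pool.Agent.MP_ee8c61_ag.H48.Defs2
import Pool.Agent.MP_ee8c61_ag.H48.Algebra

namespace Pool.Agent.MP_ee8c61_ag.H48

open MvPolynomial

variable {n k r N : ℕ}

noncomputable def Del1 (K : ℕ) (j : Fin r) : MvPolynomial (Fin r) ℂ :=
  ∏ m ∈ Finset.range K, (X j + C ((m + 1 : ℕ) : ℂ))

noncomputable def nPoly (A : Fin r → Fin N →₀ ℕ) (K : ℕ) (d : Fin r → ℤ) :
    MvPolynomial (Fin r) ℂ :=
  eFac A d * ∏ j ∈ Finset.univ.filter (fun j => d j < 0), Del1 K j

noncomputable def nIdeal (A : Fin r → Fin N →₀ ℕ) (K : ℕ) : Ideal (MvPolynomial (Fin r) ℂ) :=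
  Ideal.span {g | ∃ d : Fin r → ℤ, ∑ j, d j = 1 ∧ (∀ j, |d j| ≤ K) ∧ g = nPoly A K d}

def psum (π : Fin r → Fin k) (t : Fin r → ℕ) (i : Fin k) : ℕ :=
  ∑ j ∈ Finset.univ.filter (fun j => π j = i), t j

noncomputable def wt (γ : Fin r → ℂ) (t : Fin r → ℕ) : ℂ :=
  ∏ j, γ j ^ t j / ((t j).factorial : ℂ)

theorem sum_psum (π : Fin r → Fin k) (t : Fin r → ℕ) : ∑ i, psum π t i = ∑ j, t j :=
  Finset.sum_fiberwise Finset.univ π t

theorem gens_pow (a : Fin r → Fin n →₀ ℕ) (π : Fin r → Fin k) (γ : Fin r → ℂ) (i : Fin k)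
    (m : ℕ) : gens a π γ i ^ m =
      ∑ p ∈ Finset.piAntidiag (Finset.univ.filter (fun j => π j = i)) m,
        monomial (∑ j ∈ Finset.univ.filter (fun j => π j = i), p j • a j)
          ((m.factorial : ℂ) * ∏ j ∈ Finset.univ.filter (fun j => π j = i),
            γ j ^ p j / ((p j).factorial : ℂ)) := by
  rw [gens, Finset.sum_pow_eq_sum_piAntidiag]
  refine Finset.sum_congr rfl (fun p hp => ?_)
  have h1 := (Finset.mem_piAntidiag.mp hp).1
  have h2 := Nat.multinomial_spec (Finset.univ.filter (fun j => π j = i)) p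
  rw [h1] at h2
  simp only [monomial_pow]
  rw [← monomial_sum_prod, ← map_natCast (C : ℂ →+* MvPolynomial (Fin n) ℂ), C_mul_monomial]
  congr 1
  rw [← h2, Finset.prod_div_distrib]
  push_cast
  have : ∏ j ∈ Finset.univ.filter (fun j => π j = i), ((p j).factorial : ℂ) ≠ 0 :=
    Finset.prod_ne_zero_iff.mpr (fun j _ => by exact_mod_cast (Nat.factorial_pos _).ne')
  field_simp

theorem prod_gens (a : Fin r → Fin n →₀ ℕ) (π : Fin r → Fin k) (γ : Fin r → ℂ) (s : Fin k → ℕ) :
    ∏ i, gens a π γ i ^ s i =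
      ∑ t ∈ (Finset.piAntidiag Finset.univ (∑ i, s i)).filter (fun t => psum π t = s),
        monomial (∑ j, t j • a j) ((∏ i, ((s i).factorial : ℂ)) * wt γ t) := by
  simp only [gens_pow]
  rw [Finset.prod_univ_sum]
  refine Finset.sum_nbij' (fun P j => P (π j) j) (fun t i j => if π j = i then t j else 0)
    ?_ ?_ ?_ ?_ ?_
  · intro P hP
    have h : psum π (fun j => P (π j) j) = s := by
      funext i
      rw [← (Finset.mem_piAntidiag.mp (Fintype.mem_piFinset.mp hP i)).1]
      exact Finset.sum_congr rfl (fun j hj => by simp only [(Finset.mem_filter.mp hj).2])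
    simp only [Finset.mem_filter, Finset.mem_piAntidiag, Finset.mem_univ, implies_true, and_true]
    exact ⟨by rw [← sum_psum π, h], h⟩
  · intro t ht
    refine Fintype.mem_piFinset.mpr (fun i => Finset.mem_piAntidiag.mpr ⟨?_, fun j hj => ?_⟩)
    · rw [← congrFun (Finset.mem_filter.mp ht).2 i]
      exact Finset.sum_congr rfl (fun j hj => if_pos (Finset.mem_filter.mp hj).2)
    · by_contra h
      exact hj (if_neg (by simpa using h))
  · intro P hP
    funext i j
    split_ifs with h
    · simp only [h]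
    · by_contra h'
      exact h (Finset.mem_filter.mp ((Finset.mem_piAntidiag.mp
        (Fintype.mem_piFinset.mp hP i)).2 j (Ne.symm h'))).2
  · intro t _
    funext j
    simp
  · intro P _
    rw [← monomial_sum_prod, Finset.prod_mul_distrib, wt,
      ← Finset.sum_fiberwise Finset.univ π (fun j => P (π j) j • a j),
      ← Finset.prod_fiberwise Finset.univ π (fun j => γ j ^ P (π j) j / ((P (π j) j).factorial : ℂ))]
    congr 1
    · exact congrArg _ (Finset.sum_congr rfl (fun i _ => Finset.sum_congr rfl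
        (fun j hj => by rw [(Finset.mem_filter.mp hj).2])))
    · exact congrArg _ (Finset.prod_congr rfl (fun i _ => Finset.prod_congr rfl
        (fun j hj => by rw [(Finset.mem_filter.mp hj).2])))

/-- injectivity of the Cayley map on the lattice -/
def CInj (a : Fin r → Fin n →₀ ℕ) (π : Fin r → Fin k) : Prop :=
  ∀ d : Fin r → ℤ, (∀ i, linZ a d i = 0) →
    (∀ i, ∑ j ∈ Finset.univ.filter (fun j => π j = i), d j = 0) → d = 0

theorem lsum_cast (a : Fin r → Fin n →₀ ℕ) (t : Fin r → ℕ) (i : Fin n) :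
    (((∑ j, t j • a j : Fin n →₀ ℕ) i : ℕ) : ℤ) = linZ a (fun j => t j) i := by
  simp only [linZ, Finsupp.coe_finsetSum, Finset.sum_apply, Finsupp.coe_smul, Pi.smul_apply,
    smul_eq_mul]
  push_cast
  exact Finset.sum_congr rfl (fun j _ => mul_comm _ _)

theorem linZ_add (a : Fin r → Fin n →₀ ℕ) (c d : Fin r → ℤ) (i : Fin n) :
    linZ a (c + d) i = linZ a c i + linZ a d i := by
  simp [linZ, mul_add, Finset.sum_add_distrib]

theorem linZ_sub (a : Fin r → Fin n →₀ ℕ) (c d : Fin r → ℤ) (i : Fin n) :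
    linZ a (c - d) i = linZ a c i - linZ a d i := by
  simp [linZ, mul_sub, Finset.sum_sub_distrib]

theorem coeff_gens_ne {a : Fin r → Fin n →₀ ℕ} {π : Fin r → Fin k} {γ : Fin r → ℂ}
    {s : Fin k → ℕ} {v : Fin n →₀ ℕ} (h : coeff v (∏ i, gens a π γ i ^ s i) ≠ 0) :
    ∃ t : Fin r → ℕ, psum π t = s ∧ ∑ j, t j • a j = v := by
  rw [prod_gens, coeff_sum] at h
  obtain ⟨t, ht, h'⟩ := Finset.exists_ne_zero_of_sum_ne_zero h
  refine ⟨t, (Finset.mem_filter.mp ht).2, ?_⟩
  by_contra hne
  exact h' (by rw [coeff_monomial, if_neg hne])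

theorem coeff_gens {a : Fin r → Fin n →₀ ℕ} {π : Fin r → Fin k} (hinj : CInj a π) (γ : Fin r → ℂ)
    (t : Fin r → ℕ) : coeff (∑ j, t j • a j) (∏ i, gens a π γ i ^ psum π t i) =
      (∏ i, ((psum π t i).factorial : ℂ)) * wt γ t := by
  rw [prod_gens, coeff_sum, Finset.sum_eq_single t]
  · rw [coeff_monomial, if_pos rfl]
  · intro t' ht' hne
    rw [coeff_monomial, if_neg]
    intro h
    apply hne
    have := hinj ((fun j => (t' j : ℤ)) - fun j => (t j : ℤ))
      (fun i => by rw [linZ_sub, ← lsum_cast, ← lsum_cast, h, sub_self])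
      (fun i => by
        have := congrFun (Finset.mem_filter.mp ht').2 i
        simp only [psum] at this
        simp only [Pi.sub_apply, Finset.sum_sub_distrib, sub_eq_zero]
        exact_mod_cast this)
    funext j
    have := congrFun this j
    simp only [Pi.sub_apply, Pi.zero_apply, sub_eq_zero] at this
    exact_mod_cast this
  · intro h
    exact absurd (by simp [sum_psum]) h

theorem coeff_foldr (L : List (Fin n)) (G : MvPolynomial (Fin n) ℂ) (v : Fin n →₀ ℕ) :
    coeff v (L.foldr (fun i h => pderiv i h) G) =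
      coeff (v + cnt L) G * ∏ i, (((v + cnt L : Fin n →₀ ℕ) i).descFactorial (cnt L i) : ℂ) := by
  induction G using induction_on' with
  | monomial w κ =>
    rw [foldr_pderiv_monomial, coeff_monomial, coeff_monomial]
    by_cases h : w = v + cnt L
    · subst h
      simp
    · rw [if_neg h, zero_mul]
      split_ifs with h'
      · have : ¬ cnt L ≤ w := fun hle => h (by rw [← h', tsub_add_cancel_of_le hle])
        obtain ⟨i, hi⟩ : ∃ i, w i < cnt L i := by
          by_contra hcon
          push Not at hcon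
          exact this hcon
        rw [Finset.prod_eq_zero (Finset.mem_univ i) (by rw [Nat.descFactorial_of_lt hi]; simp),
          mul_zero]
      · rfl
  | add p q hp hq =>
    have : L.foldr (fun i h => pderiv i h) (p + q) =
        L.foldr (fun i h => pderiv i h) p + L.foldr (fun i h => pderiv i h) q := by
      clear hp hq
      induction L with
      | nil => rfl
      | cons i L ih => simp only [List.foldr_cons, ih, map_add]
    rw [this, coeff_add, coeff_add, hp, hq, add_mul]

theorem fact_group (s : ℕ) (c : ℤ) (h : 0 ≤ (s : ℤ) + c) :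
    (s.choose (-c).toNat : ℂ) * (((s : ℤ) + c).toNat.factorial : ℂ) =
      (s.factorial : ℂ) * ((((-c).toNat.factorial : ℕ) : ℂ)⁻¹ *
        ((((s : ℤ) + c).toNat.descFactorial c.toNat : ℕ) : ℂ)) := by
  rcases le_total 0 c with hc | hc
  · obtain ⟨m, rfl⟩ := Int.eq_ofNat_of_zero_le hc
    have e1 : ((s : ℤ) + m).toNat = s + m := by omega
    have e2 : (-(m : ℤ)).toNat = 0 := by omega
    rw [e1, e2, Int.toNat_natCast]
    have := Nat.factorial_mul_descFactorial (Nat.le_add_left m s)
    rw [Nat.add_sub_cancel] at this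
    rw [← this]
    simp
  · obtain ⟨m, rfl⟩ : ∃ m : ℕ, c = -m := ⟨(-c).toNat, by omega⟩
    have e1 : ((s : ℤ) + -m).toNat = s - m := by omega
    have e2 : (-(m : ℤ)).toNat = 0 := by omega
    rw [e1, e2, neg_neg, Int.toNat_natCast,
      ← Nat.choose_mul_factorial_mul_factorial (by omega : m ≤ s)]
    have : ((m.factorial : ℕ) : ℂ) ≠ 0 := by exact_mod_cast (Nat.factorial_pos _).ne'
    simp only [Nat.descFactorial_zero]
    push_cast
    field_simp

theorem fact_prod_range (t K : ℕ) :
    (t.factorial : ℂ) * ∏ m ∈ Finset.range K, ((t : ℂ) + ((m + 1 : ℕ) : ℂ)) =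
      ((t + K).factorial : ℂ) := by
  induction K with
  | zero => simp
  | succ K ih =>
    rw [Finset.prod_range_succ, ← mul_assoc, ih, ← add_assoc, Nat.factorial_succ]
    push_cast
    ring

theorem fact_mono (γ : ℂ) (hγ : γ ≠ 0) (t K : ℕ) (d : ℤ) (h : 0 ≤ (t : ℤ) + d) (hK : |d| ≤ K) :
    γ ^ ((t : ℤ) + d).toNat / (((t : ℤ) + d).toNat.factorial : ℂ) *
      ∏ m ∈ Finset.range K, ((t : ℂ) + ((m + 1 : ℕ) : ℂ)) =
      γ ^ t / (t.factorial : ℂ) * (γ ^ d * (t.descFactorial (-d).toNat : ℂ) *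
        ∏ m ∈ Finset.Ico d.toNat K, ((t : ℂ) + ((m + 1 : ℕ) : ℂ))) := by
  have hf : ∀ m : ℕ, ((m.factorial : ℕ) : ℂ) ≠ 0 := fun m => by
    exact_mod_cast (Nat.factorial_pos _).ne'
  rcases le_total 0 d with hc | hc
  · obtain ⟨m, rfl⟩ := Int.eq_ofNat_of_zero_le hc
    have e1 : ((t : ℤ) + m).toNat = t + m := by omega
    have e2 : (-(m : ℤ)).toNat = 0 := by omega
    have hm : m ≤ K := by
      rw [abs_of_nonneg hc] at hK
      exact_mod_cast hK
    rw [e1, e2, Int.toNat_natCast, ← Finset.prod_range_mul_prod_Ico _ hm, ← fact_prod_range,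
      zpow_natCast, pow_add]
    have h3 : ∏ m ∈ Finset.range m, ((t : ℂ) + ((m + 1 : ℕ) : ℂ)) ≠ 0 := by
      intro h0
      have := fact_prod_range t m
      rw [h0, mul_zero] at this
      exact hf _ this.symm
    have := hf t
    simp only [Nat.descFactorial_zero, Nat.cast_one]
    field_simp
  · obtain ⟨m, rfl⟩ : ∃ m : ℕ, d = -m := ⟨(-d).toNat, by omega⟩
    have e1 : ((t : ℤ) + -m).toNat = t - m := by omega
    have e2 : (-(m : ℤ)).toNat = 0 := by omega
    have hm : m ≤ t := by omega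
    rw [e1, e2, neg_neg, Int.toNat_natCast, ← Nat.factorial_mul_descFactorial hm,
      ← Finset.range_eq_Ico, zpow_neg, zpow_natCast, pow_sub₀ _ hγ hm]
    have h1 := hf (t - m)
    have h2 : ((t.descFactorial m : ℕ) : ℂ) ≠ 0 := by
      exact_mod_cast (Nat.descFactorial_pos.mpr hm).ne'
    push_cast
    field_simp

theorem cay_left (a : Fin r → Fin n →₀ ℕ) (π : Fin r → Fin k) (j : Fin r) (i : Fin n) :
    cay a π j (Fin.castAdd k i) = a j i := by simp [cay]

theorem cay_right (a : Fin r → Fin n →₀ ℕ) (π : Fin r → Fin k) (j : Fin r) (i : Fin k) :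
    cay a π j (Fin.natAdd n i) = if π j = i then 1 else 0 := by simp [cay]

theorem linZ_cay_left (a : Fin r → Fin n →₀ ℕ) (π : Fin r → Fin k) (d : Fin r → ℤ) (i : Fin n) :
    linZ (cay a π) d (Fin.castAdd k i) = linZ a d i := by simp only [linZ, cay_left]

theorem linZ_cay_right (a : Fin r → Fin n →₀ ℕ) (π : Fin r → Fin k) (d : Fin r → ℤ) (i : Fin k) :
    linZ (cay a π) d (Fin.natAdd n i) = ∑ j ∈ Finset.univ.filter (fun j => π j = i), d j := by
  simp only [linZ, cay_right, Finset.sum_filter]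
  exact Finset.sum_congr rfl (fun j _ => by split_ifs <;> simp)

theorem eval_lin (A : Fin r → Fin N →₀ ℕ) (t : Fin r → ℕ) (i : Fin N) :
    eval (fun j => (t j : ℂ)) (lin A i) = (linZ A (fun j => t j) i : ℂ) := by
  simp [lin, linZ]

theorem exists_shift {a : Fin r → Fin n →₀ ℕ} {π : Fin r → Fin k} {γ : Fin r → ℂ}
    (c : Fin k → ℤ) (L : List (Fin n)) (α : Fin n →₀ ℕ) (t : Fin r → ℕ)
    (hα : α ≤ ∑ j, t j • a j) (hβ : ∏ i, ((psum π t i).choose (-c i).toNat : ℂ) ≠ 0)
    (hG : coeff (∑ j, t j • a j - α + cnt L)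
      (∏ i, gens a π γ i ^ ((psum π t i : ℤ) + c i).toNat) ≠ 0) :
    ∃ d : Fin r → ℤ, (∀ j, 0 ≤ (t j : ℤ) + d j) ∧ (∀ i, linZ a d i = cnt L i - α i) ∧
      ∀ i, ∑ j ∈ Finset.univ.filter (fun j => π j = i), d j = c i := by
  obtain ⟨t', h1, h2⟩ := coeff_gens_ne hG
  refine ⟨(fun j => (t' j : ℤ)) - fun j => (t j : ℤ), fun j => by simp, fun i => ?_, fun i => ?_⟩
  · rw [linZ_sub, ← lsum_cast, ← lsum_cast, h2]
    have := hα i
    simp only [Finsupp.coe_add, Finsupp.coe_tsub, Pi.add_apply, Pi.sub_apply]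
    omega
  · have h3 := congrFun h1 i
    have h4 : (-c i).toNat ≤ psum π t i := by
      by_contra h
      exact hβ (Finset.prod_eq_zero (Finset.mem_univ i)
        (by rw [Nat.choose_eq_zero_of_lt (by omega)]; simp))
    have h5 : ((psum π t' i : ℕ) : ℤ) = psum π t i + c i := by
      rw [h3]; omega
    simp only [psum, Nat.cast_sum] at h5
    simp only [Pi.sub_apply, Finset.sum_sub_distrib]
    omega

theorem term_eq2 {a : Fin r → Fin n →₀ ℕ} {π : Fin r → Fin k} (hinj : CInj a π) {γ : Fin r → ℂ}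
    (hγ : ∀ j, γ j ≠ 0) (c : Fin k → ℤ) (hc : ∑ i, c i = 1) (L : List (Fin n))
    (p : MvPolynomial (Fin n) (MvPolynomial (Fin k) ℂ)) :
    ∀ᶠ K in Filter.atTop, ∃ H ∈ nIdeal (cay a π) K, ∀ t : Fin r → ℕ,
      coeff (∑ j, t j • a j) (map (eval fun i => (psum π t i : ℂ)) p *
        L.foldr (fun i h => pderiv i h) (C (∏ i, ((psum π t i).choose (-c i).toNat : ℂ)) *
          ∏ i, gens a π γ i ^ ((psum π t i : ℤ) + c i).toNat)) *
        eval (fun j => (t j : ℂ)) (∏ j, Del1 K j) =
      eval (fun j => (t j : ℂ)) H * ((∏ i, ((psum π t i).factorial : ℂ)) * wt γ t) := by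
  classical
  induction p using induction_on' with
  | add p q hp hq =>
    filter_upwards [hp, hq] with K ⟨H1, h1, h1'⟩ ⟨H2, h2, h2'⟩
    refine ⟨H1 + H2, Ideal.add_mem _ h1 h2, fun t => ?_⟩
    rw [map_add, add_mul, coeff_add, add_mul, h1', h2', map_add, add_mul]
  | monomial α q =>
    simp only [map_monomial, coeff_monomial_mul', coeff_foldr, coeff_C_mul]
    by_cases hd : ∃ d : Fin r → ℤ, (∀ i, linZ a d i = cnt L i - α i) ∧
      ∀ i, ∑ j ∈ Finset.univ.filter (fun j => π j = i), d j = c i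
    swap
    · refine Filter.Eventually.of_forall (fun K => ⟨0, Ideal.zero_mem _, fun t => ?_⟩)
      rw [map_zero, zero_mul]
      split_ifs with hα
      · by_contra hne
        simp only [mul_eq_zero, not_or] at hne
        obtain ⟨d, _, h⟩ := exists_shift c L α t hα hne.1.2.1.1 hne.1.2.1.2
        exact hd ⟨d, h⟩
      · simp
    obtain ⟨d, hd1, hd2⟩ := hd
    filter_upwards [Filter.eventually_ge_atTop (∑ j, (d j).natAbs)] with K hK
    have hdK : ∀ j, |d j| ≤ K := fun j => by
      have := Finset.single_le_sum (f := fun j => (d j).natAbs) (fun _ _ => Nat.zero_le _)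
        (Finset.mem_univ j)
      rw [Int.abs_eq_natAbs]
      exact_mod_cast this.trans hK
    let A := cay a π
    let cn : Fin (n + k) → ℕ := Fin.append (cnt L) (fun i => (c i).toNat)
    let G1 : MvPolynomial (Fin r) ℂ := ∏ j, (C (γ j ^ d j) *
      Polynomial.aeval (X j : MvPolynomial (Fin r) ℂ) (descPochhammer ℂ (-d j).toNat) *
        ∏ m ∈ Finset.Ico (d j).toNat K, (X j + C ((m + 1 : ℕ) : ℂ)))
    let G2 : MvPolynomial (Fin r) ℂ :=
      ∏ i, Polynomial.aeval (lin A i + C (linZ A d i : ℂ)) (descPochhammer ℂ (cn i))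
    let G3 : MvPolynomial (Fin r) ℂ := aeval (fun i => lin A (Fin.natAdd n i)) q *
      C (∏ i, (((-c i).toNat.factorial : ℕ) : ℂ)⁻¹)
    have hcn : ∀ i, linZ A d i ≤ cn i := by
      intro i
      refine Fin.addCases (fun i => ?_) (fun i => ?_) i
      · simp only [A, cn, linZ_cay_left, Fin.append_left, hd1]
        omega
      · simp only [A, cn, linZ_cay_right, Fin.append_right, hd2]
        omega
    have d1 : (∏ j ∈ Finset.univ.filter (fun j => d j < 0), X j * Del1 K j) ∣ G1 := by
      refine (Finset.prod_dvd_prod_of_dvd _ _ (fun j hj => ?_)).trans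
        (Finset.prod_dvd_prod_of_subset _ _ _ (Finset.filter_subset _ _))
      have hj' := (Finset.mem_filter.mp hj).2
      have := dvd_aeval_descPochhammer (X j : MvPolynomial (Fin r) ℂ) (-d j).toNat 0 (by omega)
      simp only [Nat.cast_zero, sub_zero] at this
      have e : (d j).toNat = 0 := by omega
      rw [e, ← Finset.range_eq_Ico]
      exact mul_dvd_mul (this.mul_left _) dvd_rfl
    have d2 : (∏ i ∈ Finset.univ.filter (fun i => 0 < linZ A d i), (1 + lin A i)) ∣ G2 := by
      refine (Finset.prod_dvd_prod_of_dvd _ _ (fun i hi => ?_)).trans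
        (Finset.prod_dvd_prod_of_subset _ _ _ (Finset.filter_subset _ _))
      have hi' := (Finset.mem_filter.mp hi).2
      obtain ⟨m, hm⟩ : ∃ m : ℕ, linZ A d i = m + 1 := ⟨(linZ A d i - 1).toNat, by omega⟩
      have := dvd_aeval_descPochhammer (lin A i + C (linZ A d i : ℂ)) (cn i) m
        (by have := hcn i; omega)
      convert this using 1
      rw [hm]
      simp only [Int.cast_add, Int.cast_natCast, Int.cast_one, map_add, map_natCast, map_one]
      ring
    refine ⟨G1 * G2 * G3, Ideal.mul_mem_right _ _ (Ideal.mem_of_dvd _ ?_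
      (Ideal.subset_span ⟨d, ?_, hdK, rfl⟩)), fun t => ?_⟩
    · convert mul_dvd_mul d1 d2 using 1
      rw [nPoly, eFac, Finset.prod_mul_distrib]
      ring
    · rw [← hc, ← Finset.sum_fiberwise Finset.univ π d]
      exact Finset.sum_congr rfl (fun i _ => hd2 i)
    have e1 : eval (fun j => (t j : ℂ)) G1 = ∏ j, (γ j ^ d j *
        ((t j).descFactorial (-d j).toNat : ℂ) *
          ∏ m ∈ Finset.Ico (d j).toNat K, ((t j : ℂ) + ((m + 1 : ℕ) : ℂ))) := by
      simp only [G1, map_prod, map_mul, map_add, eval_C, eval_aeval, eval_X,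
        descPochhammer_eval_eq_descFactorial]
    by_cases ht : ∀ j, 0 ≤ (t j : ℤ) + d j
    swap
    · push Not at ht
      obtain ⟨j, hj⟩ := ht
      have hz : eval (fun j => (t j : ℂ)) G1 = 0 := by
        rw [e1]
        exact Finset.prod_eq_zero (Finset.mem_univ j)
          (by rw [Nat.descFactorial_of_lt (by omega)]; simp)
      rw [map_mul, map_mul, hz, zero_mul, zero_mul, zero_mul]
      split_ifs with hα
      · by_contra hne
        simp only [mul_eq_zero, not_or] at hne
        obtain ⟨d', h0, h1, h2⟩ := exists_shift c L α t hα hne.1.2.1.1 hne.1.2.1.2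
        have := congrFun (hinj (d' - d) (fun i => by rw [linZ_sub, h1, hd1, sub_self])
          (fun i => by simp only [Pi.sub_apply, Finset.sum_sub_distrib, h2, hd2, sub_self])) j
        have := h0 j
        simp only [Pi.sub_apply, Pi.zero_apply] at *
        omega
      · simp
    let t' : Fin r → ℕ := fun j => ((t j : ℤ) + d j).toNat
    have ht' : (fun j => (t' j : ℤ)) = (fun j => (t j : ℤ)) + d :=
      funext (fun j => Int.toNat_of_nonneg (ht j))
    have hl : ∀ i, (((∑ j, t' j • a j : Fin n →₀ ℕ) i : ℕ) : ℤ) =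
        (∑ j, t j • a j : Fin n →₀ ℕ) i + cnt L i - α i := by
      intro i
      rw [lsum_cast, lsum_cast, ht', linZ_add, hd1]
      ring
    have hp : ∀ i, ((psum π t' i : ℕ) : ℤ) = psum π t i + c i := by
      intro i
      simp only [psum, Nat.cast_sum, ← hd2, ← Finset.sum_add_distrib]
      exact Finset.sum_congr rfl (fun j _ => congrFun ht' j)
    have hp' : ∀ i, ((psum π t i : ℤ) + c i).toNat = psum π t' i := fun i => by
      rw [← hp, Int.toNat_natCast]
    have e2 : eval (fun j => (t j : ℂ)) G2 =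
        (∏ i, ((((∑ j, t' j • a j : Fin n →₀ ℕ) i).descFactorial (cnt L i) : ℕ) : ℂ)) *
          ∏ i, (((psum π t' i).descFactorial (c i).toNat : ℕ) : ℂ) := by
      simp only [G2, map_prod, eval_aeval, map_add, eval_C, eval_lin, ← Int.cast_add,
        ← linZ_add, ← ht']
      rw [Fin.prod_univ_add]
      simp only [A, cn, linZ_cay_left, linZ_cay_right, Fin.append_left, Fin.append_right]
      simp only [← lsum_cast, ← descPochhammer_eval_eq_descFactorial, psum]
      push_cast
      rfl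
    have e3 : eval (fun j => (t j : ℂ)) G3 = eval (fun i => (psum π t i : ℂ)) q *
        ∏ i, (((-c i).toNat.factorial : ℕ) : ℂ)⁻¹ := by
      simp only [G3, map_mul, eval_C]
      congr 1
      rw [← aeval_eq_eval, ← AlgHom.comp_apply, comp_aeval, ← aeval_eq_eval]
      congr 2
      funext i
      simp only [A, aeval_eq_eval, eval_lin, linZ_cay_right, psum]
      push_cast
      rfl
    rw [map_mul, map_mul, e1, e2, e3]
    split_ifs with hα
    swap
    · obtain ⟨i, hi⟩ : ∃ i, (∑ j, t j • a j : Fin n →₀ ℕ) i < α i := by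
        by_contra hcon
        push Not at hcon
        exact hα hcon
      have hz : ∏ i, ((((∑ j, t' j • a j : Fin n →₀ ℕ) i).descFactorial (cnt L i) : ℕ) : ℂ) = 0 :=
        Finset.prod_eq_zero (Finset.mem_univ i) (by
          rw [Nat.descFactorial_of_lt (by have := hl i; omega)]; simp)
      rw [hz]
      simp
    have hv : ∑ j, t j • a j - α + cnt L = ∑ j, t' j • a j := by
      ext i
      have := hl i
      have := hα i
      simp only [Finsupp.coe_add, Finsupp.coe_tsub, Pi.add_apply, Pi.sub_apply]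
      omega
    simp only [hv, hp']
    rw [coeff_gens hinj]
    have f1 : (∏ i, ((psum π t i).choose (-c i).toNat : ℂ)) *
        ∏ i, ((psum π t' i).factorial : ℂ) = (∏ i, ((psum π t i).factorial : ℂ)) *
        ((∏ i, (((-c i).toNat.factorial : ℕ) : ℂ)⁻¹) *
          ∏ i, (((psum π t' i).descFactorial (c i).toNat : ℕ) : ℂ)) := by
      simp only [← Finset.prod_mul_distrib]
      refine Finset.prod_congr rfl (fun i _ => ?_)
      rw [← hp', fact_group _ _ (by have := hp i; omega)]
    have f2 : wt γ t' * eval (fun j => (t j : ℂ)) (∏ j, Del1 K j) = wt γ t *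
        ∏ j, (γ j ^ d j * ((t j).descFactorial (-d j).toNat : ℂ) *
          ∏ m ∈ Finset.Ico (d j).toNat K, ((t j : ℂ) + ((m + 1 : ℕ) : ℂ))) := by
      simp only [wt, Del1, map_prod, map_add, eval_X, eval_C, ← Finset.prod_mul_distrib]
      exact Finset.prod_congr rfl (fun j _ => fact_mono (γ j) (hγ j) (t j) K (d j) (ht j) (hdK j))
    linear_combination (eval (fun i => (psum π t i : ℂ)) q *
      (∏ i, ((((∑ j, t' j • a j : Fin n →₀ ℕ) i).descFactorial (cnt L i) : ℕ) : ℂ))) *
      (wt γ t' * eval (fun j => (t j : ℂ)) (∏ j, Del1 K j) * f1 +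
        (∏ i, ((psum π t i).factorial : ℂ)) *
        ((∏ i, (((-c i).toNat.factorial : ℕ) : ℂ)⁻¹) *
          ∏ i, (((psum π t' i).descFactorial (c i).toNat : ℕ) : ℂ)) * f2)

theorem star_identity {a : Fin r → Fin n →₀ ℕ} {π : Fin r → Fin k} (hinj : CInj a π)
    {γ : Fin r → ℂ} (hγ : ∀ j, γ j ≠ 0) (b : Polynomial ℂ) (hb : IsBS (gens a π γ) b) :
    ∃ K : ℕ, 1 ≤ K ∧ Polynomial.aeval (∑ j, X j : MvPolynomial (Fin r) ℂ) b * ∏ j, Del1 K j ∈
      nIdeal (cay a π) K := by
  obtain ⟨S, P, hS, hP⟩ := hb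
  have h := (Filter.eventually_all_finset S).mpr (fun c hc =>
    (Filter.eventually_all_finset (P c).support).mpr (fun L _ =>
      term_eq2 hinj hγ c (hS c hc) L (P c L)))
  obtain ⟨K, hK1, hK⟩ := ((Filter.eventually_ge_atTop 1).and h).exists
  choose! H hH hH' using hK
  refine ⟨K, hK1, ?_⟩
  have e : Polynomial.aeval (∑ j, X j : MvPolynomial (Fin r) ℂ) b * ∏ j, Del1 K j =
      ∑ c ∈ S, ∑ L ∈ (P c).support, H c L := by
    apply funext_set (fun _ => Set.range (fun m : ℕ => (m : ℂ)))
      (fun _ => Set.infinite_range_of_injective Nat.cast_injective)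
    intro x hx
    choose t ht using fun j => hx j (Set.mem_univ j)
    obtain rfl : x = fun j => (t j : ℂ) := funext (fun j => (ht j).symm)
    have h1 := congrArg (coeff (∑ j, t j • a j)) (hP (psum π t))
    rw [coeff_C_mul, coeff_gens hinj, coeff_sum] at h1
    have hne : (∏ i, ((psum π t i).factorial : ℂ)) * wt γ t ≠ 0 :=
      mul_ne_zero (Finset.prod_ne_zero_iff.mpr (fun i _ => by
        exact_mod_cast (Nat.factorial_pos _).ne')) (Finset.prod_ne_zero_iff.mpr (fun j _ =>
        div_ne_zero (pow_ne_zero _ (hγ j)) (by exact_mod_cast (Nat.factorial_pos _).ne')))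
    apply mul_right_cancel₀ hne
    have h2 : ∑ i, (psum π t i : ℂ) = ∑ j, (t j : ℂ) := by exact_mod_cast sum_psum π t
    rw [map_mul, eval_aeval, map_sum, map_sum, mul_right_comm]
    simp only [eval_X]
    rw [← h2, h1, Finset.sum_mul, Finset.sum_mul]
    refine Finset.sum_congr rfl (fun c hc => ?_)
    simp only [act, Finsupp.sum, coeff_sum, map_sum, Finset.sum_mul]
    exact Finset.sum_congr rfl (fun L hL => hH' c hc L hL t)
  rw [e]
  exact Ideal.sum_mem _ (fun c hc => Ideal.sum_mem _ (fun L hL => hH c hc L hL))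

end Pool.Agent.MP_ee8c61_ag.H48
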