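import Mathlib

/-! Smooth step functions and the functions obtained from their products by constant coefficient
differential operators. -/

namespace Pool.Agent.MP_ee8c61_ag.H48

open MvPolynomial MeasureTheory Set Filter Topology

variable {r : ℕ}

structure IsStep (ε δ : ℝ) (β : ℕ → ℝ → ℝ) : Prop where
  deriv : ∀ k x, HasDerivAt (β k) (β (k + 1) x) x
  bdd : ∀ k, ∃ C, ∀ x, |β k x| ≤ C
  left : ∀ k x, x < ε → β k x = 0
  right : ∀ k x, ε + δ < x → β (k + 1) x = 0
  nonneg : ∀ x, 0 ≤ β 0 x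
  le_one : ∀ x, β 0 x ≤ 1
  one : ∀ x, ε + δ ≤ x → β 0 x = 1

theorem exists_isStep (ε δ : ℝ) (hδ : 0 < δ) : ∃ β, IsStep ε δ β := by
  let f : ℝ → ℝ := fun x => Real.smoothTransition ((x - ε) / δ)
  have hf : ∀ m : ℕ, ContDiff ℝ m f := fun m =>
    Real.smoothTransition.contDiff.comp ((contDiff_id.sub contDiff_const).div_const δ)
  have hd : ∀ k x, HasDerivAt (iteratedDeriv k f) (iteratedDeriv (k + 1) f x) x := by
    intro k x
    rw [iteratedDeriv_succ]
    exact ((hf (k + 1)).differentiable_iteratedDeriv' k x).hasDerivAt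
  have hl : ∀ k x, x < ε → iteratedDeriv k f x = 0 := by
    intro k
    induction k with
    | zero =>
      intro x hx
      exact Real.smoothTransition.zero_of_nonpos
        (div_nonpos_of_nonpos_of_nonneg (by linarith) hδ.le)
    | succ k ih =>
      intro x hx
      have : iteratedDeriv k f =ᶠ[𝓝 x] fun _ => 0 := by
        filter_upwards [Iio_mem_nhds hx] with y hy using ih y hy
      rw [iteratedDeriv_succ, this.deriv_eq]
      simp
  have hone : ∀ x, ε + δ ≤ x → f x = 1 := fun x hx =>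
    Real.smoothTransition.one_of_one_le ((one_le_div hδ).mpr (by linarith))
  have hr : ∀ k x, ε + δ < x → iteratedDeriv (k + 1) f x = 0 := by
    intro k
    induction k with
    | zero =>
      intro x hx
      have : iteratedDeriv 0 f =ᶠ[𝓝 x] fun _ => 1 := by
        filter_upwards [Ioi_mem_nhds hx] with y hy using hone y (le_of_lt hy)
      rw [iteratedDeriv_succ, this.deriv_eq]
      simp
    | succ k ih =>
      intro x hx
      have : iteratedDeriv (k + 1) f =ᶠ[𝓝 x] fun _ => 0 := by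
        filter_upwards [Ioi_mem_nhds hx] with y hy using ih y hy
      rw [iteratedDeriv_succ, this.deriv_eq]
      simp
  refine ⟨fun k => iteratedDeriv k f, hd, ?_, hl, hr, fun x => Real.smoothTransition.nonneg _,
    fun x => Real.smoothTransition.le_one _, hone⟩
  intro k
  cases k with
  | zero =>
    exact ⟨1, fun x => abs_le.mpr ⟨by
      have := Real.smoothTransition.nonneg ((x - ε) / δ)
      show -1 ≤ Real.smoothTransition ((x - ε) / δ)
      linarith, Real.smoothTransition.le_one _⟩⟩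
  | succ k =>
    have hc : Continuous (iteratedDeriv (k + 1) f) := (hf (k + 1)).continuous_iteratedDeriv' _
    obtain ⟨C, hC⟩ := (isCompact_Icc (a := ε) (b := ε + δ)).exists_bound_of_continuousOn
      hc.continuousOn
    refine ⟨max C 0, fun x => ?_⟩
    by_cases h1 : x < ε
    · rw [hl _ _ h1]; simp
    · by_cases h2 : ε + δ < x
      · rw [hr _ _ h2]; simp
      · exact (hC x ⟨not_lt.mp h1, not_lt.mp h2⟩).trans (le_max_left _ _)

/-- `p(-∂)` applied to the product of step functions. -/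
noncomputable def Hm (β : ℕ → ℝ → ℝ) : MvPolynomial (Fin r) ℂ →ₗ[ℂ] ((Fin r → ℝ) → ℂ) :=
  (basisMonomials (Fin r) ℂ).constr ℂ
    (fun k z => ((∏ j, ((-1) ^ (k j) * β (k j) (z j)) : ℝ) : ℂ))

theorem Hm_monomial (β : ℕ → ℝ → ℝ) (k : Fin r →₀ ℕ) (a : ℂ) (z : Fin r → ℝ) :
    Hm β (monomial k a) z = a * ((∏ j, ((-1) ^ (k j) * β (k j) (z j)) : ℝ) : ℂ) := by
  have : monomial k a = a • (basisMonomials (Fin r) ℂ) k := by
    simp [smul_monomial]
  rw [this, map_smul, Hm, Module.Basis.constr_basis]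
  rfl

attribute [irreducible] Hm

variable {ε δ : ℝ} {β : ℕ → ℝ → ℝ}

theorem Hm_continuous (hβ : IsStep ε δ β) (p : MvPolynomial (Fin r) ℂ) : Continuous (Hm β p) := by
  have hc : ∀ k, Continuous (β k) := fun k =>
    continuous_iff_continuousAt.mpr (fun x => (hβ.deriv k x).continuousAt)
  induction p using induction_on' with
  | monomial u a =>
    have : Hm β (monomial u a) = fun z : Fin r → ℝ =>
        a * ((∏ j, ((-1) ^ (u j) * β (u j) (z j)) : ℝ) : ℂ) := funext (Hm_monomial β u a)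
    rw [this]
    refine continuous_const.mul (Complex.continuous_ofReal.comp ?_)
    exact continuous_finsetProd _ (fun j _ =>
      continuous_const.mul ((hc _).comp (continuous_apply j)))
  | add p q hp hq => rw [map_add]; exact hp.add hq

theorem Hm_bdd (hβ : IsStep ε δ β) (p : MvPolynomial (Fin r) ℂ) :
    ∃ C, ∀ z, ‖Hm β p z‖ ≤ C := by
  choose B hB using hβ.bdd
  induction p using induction_on' with
  | monomial u a =>
    refine ⟨‖a‖ * ∏ j, B (u j), fun z => ?_⟩
    rw [Hm_monomial, norm_mul, Complex.norm_real, Real.norm_eq_abs, Finset.abs_prod]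
    refine mul_le_mul_of_nonneg_left (Finset.prod_le_prod (fun _ _ => abs_nonneg _) ?_)
      (norm_nonneg _)
    intro j _
    rw [abs_mul, abs_pow, abs_neg, abs_one, one_pow, one_mul]
    exact hB _ _
  | add p q hp hq =>
    obtain ⟨C, hC⟩ := hp
    obtain ⟨D, hD⟩ := hq
    exact ⟨C + D, fun z => by
      rw [map_add]; exact (norm_add_le _ _).trans (add_le_add (hC z) (hD z))⟩

theorem Hm_hasDerivAt (hβ : IsStep ε δ β) (p : MvPolynomial (Fin r) ℂ) (z v : Fin r → ℝ) (t : ℝ) :
    HasDerivAt (fun t : ℝ => Hm β p (z + t • v))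
      (-Hm β ((∑ j, C (v j : ℂ) * X j) * p) (z + t • v)) t := by
  classical
  induction p using induction_on' with
  | monomial u a =>
    have h1 : ∀ j ∈ (Finset.univ : Finset (Fin r)),
        HasDerivAt (fun t : ℝ => (-1) ^ (u j) * β (u j) ((z + t • v) j))
        ((-1) ^ (u j) * (β (u j + 1) ((z + t • v) j) * v j)) t := by
      intro j _
      have a1 : HasDerivAt (fun t : ℝ => (z + t • v) j) (v j) t := by
        simpa using ((hasDerivAt_id t).mul_const (v j)).const_add (z j)
      exact ((hβ.deriv (u j) _).comp t a1).const_mul _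
    have h2 := ((HasDerivAt.fun_finsetProd h1).ofReal_comp).const_mul a
    simp only [Hm_monomial]
    refine h2.congr_deriv (Eq.symm ?_)
    rw [Finset.sum_mul, map_sum, Finset.sum_apply, Complex.ofReal_sum, Finset.mul_sum,
      ← Finset.sum_neg_distrib]
    refine Finset.sum_congr rfl (fun j _ => ?_)
    rw [mul_assoc, X, monomial_mul, C_mul_monomial, Hm_monomial,
      ← Finset.mul_prod_erase Finset.univ _ (Finset.mem_univ j)]
    have : ∏ x ∈ Finset.univ.erase j, ((-1 : ℝ) ^ ((Finsupp.single j 1 + u : Fin r →₀ ℕ) x) *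
        β ((Finsupp.single j 1 + u : Fin r →₀ ℕ) x) ((z + t • v) x)) =
        ∏ x ∈ Finset.univ.erase j, ((-1) ^ (u x) * β (u x) ((z + t • v) x)) := by
      refine Finset.prod_congr rfl (fun x hx => ?_)
      have := Finset.ne_of_mem_erase hx
      simp [this.symm]
    rw [this]
    simp only [Finsupp.coe_add, Pi.add_apply, Finsupp.single_eq_same, smul_eq_mul]
    rw [add_comm 1 (u j), pow_succ]
    push_cast
    ring
  | add p q hp hq =>
    simp only [mul_add, map_add, Pi.add_apply, neg_add]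
    exact hp.add hq

theorem Hm_support (hβ : IsStep ε δ β) (S : Finset (Fin r)) (h : MvPolynomial (Fin r) ℂ)
    (z : Fin r → ℝ) (hz : (∃ j, z j < ε) ∨ ∃ j ∈ S, ε + δ < z j) :
    Hm β ((∏ j ∈ S, X j) * h) z = 0 := by
  classical
  induction h using induction_on' with
  | monomial u a =>
    have : (∏ j ∈ S, X j : MvPolynomial (Fin r) ℂ) =
        monomial (∑ j ∈ S, Finsupp.single j 1) 1 := by
      rw [monomial_sum_one]; rfl
    rw [this, monomial_mul, Hm_monomial]
    rcases hz with ⟨j, hj⟩ | ⟨j, hjS, hj⟩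
    · rw [Finset.prod_eq_zero (Finset.mem_univ j) (by rw [hβ.left _ _ hj, mul_zero])]
      simp
    · have e : (∑ j ∈ S, Finsupp.single j 1 + u : Fin r →₀ ℕ) j = u j + 1 := by
        simp [Finsupp.single_apply, hjS, add_comm]
      rw [Finset.prod_eq_zero (Finset.mem_univ j) (by rw [e, hβ.right _ _ hj, mul_zero])]
      simp
  | add p q hp hq => rw [mul_add, map_add, Pi.add_apply, hp, hq, add_zero]

theorem integrableOn_exp_mul_bdd {lam : ℝ} (hl : 0 < lam) {g : ℝ → ℂ} (hg : Continuous g)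
    {B : ℝ} (hB : ∀ t, ‖g t‖ ≤ B) :
    IntegrableOn (fun t : ℝ => ((Real.exp (-lam * t) : ℝ) : ℂ) * g t) (Ioi 0) :=
  Integrable.mul_bdd (exp_neg_integrableOn_Ioi 0 hl).ofReal hg.aestronglyMeasurable
    (Eventually.of_forall hB)

theorem average_aux {F G : ℝ → ℂ} {lam B B' : ℝ} (hl : 0 < lam)
    (hF : ∀ t, HasDerivAt F (lam * F t - G t) t) (hG : Continuous G)
    (hB : ∀ t, ‖F t‖ ≤ B) (hB' : ∀ t, ‖G t‖ ≤ B') :
    ∫ t in Ioi (0 : ℝ), ((Real.exp (-lam * t) : ℝ) : ℂ) * G t = F 0 := by
  have hder : ∀ t ∈ Ici (0 : ℝ), HasDerivAt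
      (fun t : ℝ => -(((Real.exp (-lam * t) : ℝ) : ℂ) * F t))
      (((Real.exp (-lam * t) : ℝ) : ℂ) * G t) t := by
    intro t _
    have a1 : HasDerivAt (fun t : ℝ => Real.exp (-lam * t)) (Real.exp (-lam * t) * (-lam)) t := by
      simpa using ((hasDerivAt_id t).const_mul (-lam)).exp
    have a2 := (a1.ofReal_comp.fun_mul (hF t)).fun_neg
    refine a2.congr_deriv ?_
    push_cast
    ring
  have hlim : Tendsto (fun t : ℝ => -(((Real.exp (-lam * t) : ℝ) : ℂ) * F t)) atTop (𝓝 0) := by
    rw [← neg_zero]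
    refine Tendsto.neg ?_
    have e : Tendsto (fun t : ℝ => Real.exp (-lam * t) * B) atTop (𝓝 0) := by
      rw [← zero_mul B]
      exact (Real.tendsto_exp_atBot.comp
        (tendsto_id.const_mul_atTop_of_neg (neg_neg_iff_pos.2 hl))).mul_const B
    refine squeeze_zero_norm (fun t => ?_) e
    rw [norm_mul, Complex.norm_real, Real.norm_eq_abs, abs_of_pos (Real.exp_pos _)]
    exact mul_le_mul_of_nonneg_left (hB _) (Real.exp_pos _).le
  rw [integral_Ioi_of_hasDerivAt_of_tendsto' hder (integrableOn_exp_mul_bdd hl hG hB') hlim]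
  simp

theorem Hm_average (hβ : IsStep ε δ β) (p : MvPolynomial (Fin r) ℂ) (z v : Fin r → ℝ)
    {lam : ℝ} (hl : 0 < lam) :
    ∫ t in Ioi (0 : ℝ), ((Real.exp (-lam * t) : ℝ) : ℂ) *
      Hm β ((C (lam : ℂ) + ∑ j, C (v j : ℂ) * X j) * p) (z + t • v) = Hm β p z := by
  obtain ⟨B, hB⟩ := Hm_bdd hβ p
  obtain ⟨B', hB'⟩ := Hm_bdd hβ ((C (lam : ℂ) + ∑ j, C (v j : ℂ) * X j) * p)
  have hc : Continuous (fun t : ℝ => z + t • v) := by fun_prop
  have key := average_aux (F := fun t : ℝ => Hm β p (z + t • v))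
    (G := fun t : ℝ => Hm β ((C (lam : ℂ) + ∑ j, C (v j : ℂ) * X j) * p) (z + t • v)) hl
    (fun t => (Hm_hasDerivAt hβ p z v t).congr_deriv (by
      rw [add_mul, map_add, Pi.add_apply, ← smul_eq_C_mul, map_smul, Pi.smul_apply, smul_eq_mul]
      ring))
    ((Hm_continuous hβ ((C (lam : ℂ) + ∑ j, C (v j : ℂ) * X j) * p)).comp hc)
    (fun t => hB _) (fun t => hB' _)
  simpa using key

end Pool.Agent.MP_ee8c61_ag.H48
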