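import Mathlib
import Pool.Agent.MP_ee8c61_ag.H48.Step
import Pool.Agent.MP_ee8c61_ag.H48.Algebra

namespace Pool.Agent.MP_ee8c61_ag.H48

open MvPolynomial MeasureTheory Set Filter Topology

variable {n r : ℕ} {ε δ : ℝ} {β : ℕ → ℝ → ℝ}

noncomputable abbrev P0 : Measure ℝ := volume.restrict (Ioi 0)

noncomputable abbrev mu (n : ℕ) : Measure (Fin n → ℝ) := Measure.pi (fun _ => P0)

noncomputable def W (w : Fin n → ℝ) : ℂ := ∏ i, ((Real.exp (-1 * w i) : ℝ) : ℂ)

theorem W_integrable : Integrable (W (n := n)) (mu n) :=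
  Integrable.fintype_prod (f := fun _ t => ((Real.exp (-1 * t) : ℝ) : ℂ))
    (fun _ => (exp_neg_integrableOn_Ioi 0 one_pos).ofReal)

theorem integral_exp_one : ∫ t, ((Real.exp (-1 * t) : ℝ) : ℂ) ∂P0 = 1 := by
  rw [integral_complex_ofReal, integral_exp_mul_Ioi (by norm_num)]
  simp

theorem W_integral : ∫ w, W w ∂(mu n) = 1 := by
  unfold W
  rw [integral_fintype_prod_eq_prod (f := fun _ t => ((Real.exp (-1 * t) : ℝ) : ℂ))]
  simp only [integral_exp_one, Finset.prod_const_one]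

theorem mu_eq : mu n = volume.restrict (Set.univ.pi fun _ => Ioi (0 : ℝ)) :=
  (Measure.restrict_pi_pi _ _).symm

theorem ae_pos : ∀ᵐ w ∂(mu n), ∀ i, 0 < w i := by
  rw [mu_eq]
  filter_upwards [ae_restrict_mem (MeasurableSet.univ_pi (fun _ => measurableSet_Ioi))]
    with w hw i using hw i (mem_univ i)

noncomputable def pt (A : Fin n → Fin r → ℝ) (T : Finset (Fin n)) (z : Fin r → ℝ)
    (w : Fin n → ℝ) : Fin r → ℝ :=
  z + ∑ k, (if k ∈ T then 0 else w k) • A k

theorem pt_continuous (A : Fin n → Fin r → ℝ) (T : Finset (Fin n)) :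
    Continuous (fun x : (Fin r → ℝ) × (Fin n → ℝ) => pt A T x.1 x.2) := by
  unfold pt
  refine continuous_fst.add (continuous_finsetSum _ (fun k _ => ?_))
  split_ifs <;> fun_prop

noncomputable def Psi (β : ℕ → ℝ → ℝ) (A : Fin n → Fin r → ℝ) (T : Finset (Fin n))
    (p : MvPolynomial (Fin r) ℂ) (z : Fin r → ℝ) : ℂ :=
  ∫ w, W w * Hm β p (pt A T z w) ∂(mu n)

theorem Psi_integrable (hβ : IsStep ε δ β) (A : Fin n → Fin r → ℝ) (T : Finset (Fin n))
    (p : MvPolynomial (Fin r) ℂ) (z : Fin r → ℝ) :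
    Integrable (fun w => W w * Hm β p (pt A T z w)) (mu n) := by
  obtain ⟨B, hB⟩ := Hm_bdd hβ p
  have hc : Continuous (fun w => pt A T z w) :=
    (pt_continuous A T).comp (continuous_const.prodMk continuous_id)
  exact W_integrable.mul_bdd ((Hm_continuous hβ p).comp hc).aestronglyMeasurable
    (Eventually.of_forall (fun w => hB _))

theorem fubini_coord {m : ℕ} (i : Fin (m + 1)) (F : (Fin (m + 1) → ℝ) → ℂ)
    (hF : Integrable F (mu (m + 1))) :
    ∫ w, F w ∂(mu (m + 1)) = ∫ w', (∫ t, F (Fin.insertNth i t w') ∂P0) ∂(mu m) := by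
  have hmp := (measurePreserving_piFinSuccAbove (fun _ : Fin (m + 1) => P0) i).symm
  have hint := (hmp.integrable_comp_emb (MeasurableEquiv.measurableEmbedding _)).mpr hF
  rw [← hmp.integral_comp' F]
  exact (integral_prod_symm _ hint).trans rfl

theorem Psi_step (hβ : IsStep ε δ β) (A : Fin n → Fin r → ℝ) (T : Finset (Fin n)) (i : Fin n)
    (hi : i ∉ T) (p : MvPolynomial (Fin r) ℂ) (z : Fin r → ℝ) :
    Psi β A T ((C ((1 : ℝ) : ℂ) + ∑ j, C (A i j : ℂ) * X j) * p) z = Psi β A (insert i T) p z := by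
  obtain ⟨m, rfl⟩ : ∃ m, n = m + 1 := ⟨n - 1, by have := i.pos; omega⟩
  unfold Psi
  rw [fubini_coord i _ (Psi_integrable hβ A T _ z),
    fubini_coord i _ (Psi_integrable hβ A (insert i T) _ z)]
  refine integral_congr_ae (Eventually.of_forall (fun w' => ?_))
  have hW : ∀ t : ℝ, W (Fin.insertNth i t w' : Fin (m + 1) → ℝ) =
      W w' * ((Real.exp (-1 * t) : ℝ) : ℂ) := by
    intro t
    unfold W
    rw [Fin.prod_univ_succAbove _ i, mul_comm]
    simp only [Fin.insertNth_apply_same, Fin.insertNth_apply_succAbove]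
  set y : Fin r → ℝ := z + ∑ k : Fin m, (if i.succAbove k ∈ T then 0 else w' k) • A (i.succAbove k)
    with hy
  have h1 : ∀ t : ℝ, pt A T z (Fin.insertNth i t w') = y + t • A i := by
    intro t
    unfold pt
    rw [Fin.sum_univ_succAbove _ i, hy]
    simp only [Fin.insertNth_apply_same, Fin.insertNth_apply_succAbove, if_neg hi]
    abel
  have h2 : ∀ t : ℝ, pt A (insert i T) z (Fin.insertNth i t w') = y := by
    intro t
    unfold pt
    rw [Fin.sum_univ_succAbove _ i, hy]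
    simp [Fin.succAbove_ne]
  simp only [hW, h1, h2, mul_assoc]
  rw [integral_const_mul, integral_const_mul, Hm_average hβ p y (A i) one_pos,
    integral_mul_const, integral_exp_one, one_mul]

theorem Psi_prod (hβ : IsStep ε δ β) (A : Fin n → Fin r → ℝ) (S : Finset (Fin n))
    (p : MvPolynomial (Fin r) ℂ) (z : Fin r → ℝ) :
    Psi β A ∅ ((∏ i ∈ S, (C ((1 : ℝ) : ℂ) + ∑ j, C (A i j : ℂ) * X j)) * p) z =
      Psi β A S p z := by
  induction S using Finset.induction_on generalizing p with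
  | empty => simp
  | insert i S hi ih =>
    rw [Finset.prod_insert hi, mul_comm (C _ + _), mul_assoc, ih, Psi_step hβ A S i hi]

/-- the real matrix of exponents -/
def Amat (a : Fin r → Fin n →₀ ℕ) : Fin n → Fin r → ℝ := fun i j => (a j i : ℝ)

theorem Psi_vanish (hβ : IsStep ε δ β) (hδ : 0 ≤ δ) (a : Fin r → Fin n →₀ ℕ) (c : Fin r → ℤ)
    (hc : ∑ j, c j = 1) (hsmall : δ * ∑ j, |(c j : ℝ)| < ε) (h : MvPolynomial (Fin r) ℂ)
    (θ : ℝ) (hθ : 0 ≤ θ) :
    Psi β (Amat a) ∅ (eFac a c * h) (θ • fun _ => -1) = 0 := by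
  have e : eFac a c * h = (∏ i ∈ Finset.univ.filter (fun i => 0 < linZ a c i),
      (C ((1 : ℝ) : ℂ) + ∑ j, C (Amat a i j : ℂ) * X j)) *
      ((∏ j ∈ Finset.univ.filter (fun j => c j < 0), X j) * h) := by
    simp only [eFac, lin, Amat, Complex.ofReal_one, map_one, Complex.ofReal_natCast]
    ring
  rw [e, Psi_prod hβ, Psi]
  refine integral_eq_zero_of_ae ?_
  filter_upwards [ae_pos] with w hw
  rw [Hm_support hβ, mul_zero, Pi.zero_apply]
  by_contra hcon
  push Not at hcon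
  obtain ⟨h1, h2⟩ := hcon
  set y := pt (Amat a) (Finset.univ.filter (fun i => 0 < linZ a c i)) (θ • fun _ => -1) w with hy
  have hc' : ∑ j, (c j : ℝ) = 1 := by exact_mod_cast hc
  have lower : ε - δ * ∑ j, |(c j : ℝ)| ≤ ∑ j, (c j : ℝ) * y j := by
    have : ε - δ * ∑ j, |(c j : ℝ)| = ∑ j, ((c j : ℝ) * ε - δ * |(c j : ℝ)|) := by
      rw [Finset.sum_sub_distrib, ← Finset.sum_mul, hc', ← Finset.mul_sum, one_mul]
    rw [this]
    refine Finset.sum_le_sum (fun j _ => ?_)
    by_cases hj : c j < 0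
    · have a1 := h2 j (by simpa using hj)
      have a2 : (c j : ℝ) < 0 := by exact_mod_cast hj
      rw [abs_of_neg a2]
      nlinarith
    · have a1 := h1 j
      have a2 : (0 : ℝ) ≤ c j := by exact_mod_cast not_lt.mp hj
      rw [abs_of_nonneg a2]
      nlinarith [mul_nonneg hδ a2]
  have upper : ∑ j, (c j : ℝ) * y j ≤ 0 := by
    have : ∑ j, (c j : ℝ) * y j =
        -θ + ∑ k, (if 0 < linZ a c k then 0 else w k) * (linZ a c k : ℝ) := by
      simp only [hy, pt, Pi.add_apply, Pi.smul_apply, smul_eq_mul, Finset.sum_apply, mul_add,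
        Finset.sum_add_distrib, Finset.mem_filter, Finset.mem_univ, true_and, Finset.mul_sum,
        Amat]
      congr 1
      · rw [← Finset.sum_mul, hc']; ring
      · rw [Finset.sum_comm]
        refine Finset.sum_congr rfl (fun k _ => ?_)
        simp only [linZ]
        push_cast
        rw [Finset.mul_sum]
        exact Finset.sum_congr rfl (fun j _ => by ring)
    rw [this]
    have : ∑ k, (if 0 < linZ a c k then 0 else w k) * (linZ a c k : ℝ) ≤ 0 := by
      refine Finset.sum_nonpos (fun k _ => ?_)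
      split_ifs with hk
      · simp
      · have : (linZ a c k : ℝ) ≤ 0 := by exact_mod_cast not_lt.mp hk
        exact mul_nonpos_of_nonneg_of_nonpos (hw k).le this
    linarith
  linarith

noncomputable def Lam (β : ℕ → ℝ → ℝ) (A : Fin n → Fin r → ℝ) (s : ℝ)
    (p : MvPolynomial (Fin r) ℂ) : ℂ :=
  ∫ x : (Fin n → ℝ) × ℝ, (W x.1 * ((Real.exp (-s * x.2) : ℝ) : ℂ)) *
    Hm β p (pt A ∅ (x.2 • fun _ => -1) x.1) ∂((mu n).prod P0)

theorem Lam_integrable (hβ : IsStep ε δ β) (A : Fin n → Fin r → ℝ) {s : ℝ} (hs : 0 < s)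
    (p : MvPolynomial (Fin r) ℂ) :
    Integrable (fun x : (Fin n → ℝ) × ℝ => (W x.1 * ((Real.exp (-s * x.2) : ℝ) : ℂ)) *
      Hm β p (pt A ∅ (x.2 • fun _ => -1) x.1)) ((mu n).prod P0) := by
  obtain ⟨B, hB⟩ := Hm_bdd hβ p
  have hc : Continuous (fun x : (Fin n → ℝ) × ℝ => pt A ∅ (x.2 • fun _ => (-1 : ℝ)) x.1) :=
    (pt_continuous A ∅).comp (f := fun x : (Fin n → ℝ) × ℝ => (x.2 • fun _ => (-1 : ℝ), x.1))
      (by fun_prop)
  exact (W_integrable.mul_prod (exp_neg_integrableOn_Ioi 0 hs).ofReal).mul_bdd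
    ((Hm_continuous hβ p).comp hc).aestronglyMeasurable (Eventually.of_forall (fun w => hB _))

noncomputable def LamL (hβ : IsStep ε δ β) (A : Fin n → Fin r → ℝ) {s : ℝ} (hs : 0 < s) :
    MvPolynomial (Fin r) ℂ →ₗ[ℂ] ℂ where
  toFun := Lam β A s
  map_add' p q := by
    unfold Lam
    rw [← integral_add (Lam_integrable hβ A hs p) (Lam_integrable hβ A hs q)]
    simp only [map_add, Pi.add_apply, mul_add]
  map_smul' c p := by
    unfold Lam
    simp only [map_smul, Pi.smul_apply, smul_eq_mul, RingHom.id_apply]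
    rw [← integral_const_mul]
    exact integral_congr_ae (Eventually.of_forall (fun x => by ring))

theorem pt_shift (A : Fin n → Fin r → ℝ) (z : Fin r → ℝ) (w : Fin n → ℝ) :
    pt A ∅ z w = pt A ∅ 0 w + z := by
  unfold pt; abel

theorem Lam_eq_left (hβ : IsStep ε δ β) (A : Fin n → Fin r → ℝ) {s : ℝ} (hs : 0 < s)
    (p : MvPolynomial (Fin r) ℂ) :
    Lam β A s p = ∫ w, W w * (∫ t, ((Real.exp (-s * t) : ℝ) : ℂ) *
      Hm β p (pt A ∅ 0 w + t • fun _ => -1) ∂P0) ∂(mu n) := by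
  unfold Lam
  rw [integral_prod _ (Lam_integrable hβ A hs p)]
  refine integral_congr_ae (Eventually.of_forall (fun w => ?_))
  simp only [mul_assoc]
  rw [integral_const_mul]
  have : ∀ t : ℝ, pt A ∅ (t • fun _ => (-1 : ℝ)) w = pt A ∅ 0 w + t • fun _ => -1 :=
    fun t => pt_shift A _ w
  simp only [this]

theorem Lam_eq_right (hβ : IsStep ε δ β) (A : Fin n → Fin r → ℝ) {s : ℝ} (hs : 0 < s)
    (p : MvPolynomial (Fin r) ℂ) :
    Lam β A s p = ∫ t, ((Real.exp (-s * t) : ℝ) : ℂ) * Psi β A ∅ p (t • fun _ => -1) ∂P0 := by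
  unfold Lam Psi
  rw [integral_prod_symm _ (Lam_integrable hβ A hs p)]
  refine integral_congr_ae (Eventually.of_forall (fun t => ?_))
  simp only
  rw [← integral_const_mul]
  exact integral_congr_ae (Eventually.of_forall (fun x => by ring))

theorem Lam_step (hβ : IsStep ε δ β) (A : Fin n → Fin r → ℝ) {s : ℝ} (hs : 0 < s)
    (p : MvPolynomial (Fin r) ℂ) :
    Lam β A s ((∑ j, X j) * p) = s * Lam β A s p - Psi β A ∅ p 0 := by
  have h1 : Lam β A s ((C (s : ℂ) + ∑ j, C (((fun _ => -1 : Fin r → ℝ) j : ℝ) : ℂ) * X j) * p) =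
      Psi β A ∅ p 0 := by
    rw [Lam_eq_left hβ A hs]
    simp only [Hm_average hβ p _ (fun _ => -1) hs]
    rfl
  have h2 : (C (s : ℂ) + ∑ j, C (((fun _ => -1 : Fin r → ℝ) j : ℝ) : ℂ) * X j) * p =
      (s : ℂ) • p - (∑ j, X j) * p := by
    simp only [Complex.ofReal_neg, Complex.ofReal_one, map_neg, map_one, neg_mul, one_mul,
      Finset.sum_neg_distrib, smul_eq_C_mul]
    ring
  rw [h2] at h1
  have h3 := (LamL hβ A hs).map_sub ((s : ℂ) • p) ((∑ j, X j) * p)
  rw [map_smul] at h3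
  change Lam β A s _ = (s : ℂ) • Lam β A s p - Lam β A s _ at h3
  rw [h1, smul_eq_mul] at h3
  linear_combination h3

theorem Lam_pow (hβ : IsStep ε δ β) (A : Fin n → Fin r → ℝ) (k : ℕ) :
    ∃ R : Polynomial ℂ, R.degree < k ∧ ∀ s : ℝ, 0 < s →
      Lam β A s ((∑ j, X j) ^ k) = (s : ℂ) ^ k * Lam β A s 1 - R.eval (s : ℂ) := by
  induction k with
  | zero => exact ⟨0, by simp, fun s _ => by simp⟩
  | succ k ih =>
    obtain ⟨R, hR, h⟩ := ih
    refine ⟨R * Polynomial.X + Polynomial.C (Psi β A ∅ ((∑ j, X j) ^ k) 0), ?_, fun s hs => ?_⟩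
    · refine (Polynomial.degree_add_le _ _).trans_lt (max_lt ?_ ?_)
      · rw [Polynomial.degree_mul_X]
        push_cast
        exact WithBot.add_lt_add_right (by simp) hR
      · exact Polynomial.degree_C_le.trans_lt (by exact_mod_cast Nat.succ_pos k)
    · rw [pow_succ', Lam_step hβ A hs, h s hs]
      simp only [Polynomial.eval_add, Polynomial.eval_mul, Polynomial.eval_X, Polynomial.eval_C]
      ring

theorem Lam_poly (hβ : IsStep ε δ β) (hδ : 0 ≤ δ) (a : Fin r → Fin n →₀ ℕ) (b : Polynomial ℂ)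
    (S : Finset (Fin r → ℤ)) (h : (Fin r → ℤ) → MvPolynomial (Fin r) ℂ)
    (hS : ∀ c ∈ S, ∑ j, c j = 1) (hsmall : ∀ c ∈ S, δ * ∑ j, |(c j : ℝ)| < ε)
    (hid : Polynomial.aeval (∑ j, X j : MvPolynomial (Fin r) ℂ) b = ∑ c ∈ S, eFac a c * h c) :
    ∃ R : Polynomial ℂ, R.degree < (b.natDegree + 1 : ℕ) ∧ ∀ s : ℝ, 0 < s →
      b.eval (s : ℂ) * Lam β (Amat a) s 1 = R.eval (s : ℂ) := by
  choose R hR hRe using Lam_pow hβ (Amat a)
  refine ⟨∑ k ∈ Finset.range (b.natDegree + 1), b.coeff k • R k, ?_, fun s hs => ?_⟩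
  · refine (Polynomial.degree_sum_le _ _).trans_lt ?_
    rw [Finset.sup_lt_iff (WithBot.bot_lt_coe _)]
    intro k hk
    refine (Polynomial.degree_smul_le _ _).trans_lt ((hR k).trans ?_)
    exact_mod_cast Finset.mem_range.mp hk
  · have h0 : LamL hβ (Amat a) hs (Polynomial.aeval (∑ j, X j : MvPolynomial (Fin r) ℂ) b) = 0 := by
      rw [hid, map_sum]
      refine Finset.sum_eq_zero (fun c hc => ?_)
      change Lam β (Amat a) s _ = 0
      rw [Lam_eq_right hβ _ hs]
      refine integral_eq_zero_of_ae ?_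
      filter_upwards [ae_restrict_mem measurableSet_Ioi] with t ht
      rw [Psi_vanish hβ hδ a c (hS c hc) (hsmall c hc) _ t (le_of_lt ht), mul_zero, Pi.zero_apply]
    rw [Polynomial.aeval_eq_sum_range, map_sum] at h0
    have h1 : ∀ k ∈ Finset.range (b.natDegree + 1),
        LamL hβ (Amat a) hs (b.coeff k • (∑ j, X j : MvPolynomial (Fin r) ℂ) ^ k) =
        b.coeff k * (s : ℂ) ^ k * Lam β (Amat a) s 1 - b.coeff k * (R k).eval (s : ℂ) := by
      intro k _
      rw [map_smul]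
      change b.coeff k • Lam β (Amat a) s _ = _
      rw [hRe k s hs, smul_eq_mul]
      ring
    rw [Finset.sum_congr rfl h1, Finset.sum_sub_distrib, ← Finset.sum_mul,
      ← Polynomial.eval_eq_sum_range, sub_eq_zero] at h0
    rw [h0, Polynomial.eval_finsetSum]
    simp

end Pool.Agent.MP_ee8c61_ag.H48
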