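import Mathlib
import Pool.Agent.MP_ee8c61_ag.H48.Step

/-! Families of smooth functions of one variable and constant coefficient operators. -/

namespace Pool.Agent.MP_ee8c61_ag.H48

open MvPolynomial MeasureTheory Set Filter Topology

variable {r : ℕ}

structure IsTower (β : Fin r → ℕ → ℝ → ℝ) : Prop where
  deriv : ∀ j k x, HasDerivAt (β j k) (β j (k + 1) x) x
  bdd : ∀ j k, ∃ C, ∀ x, |β j k x| ≤ C

noncomputable def Hf (β : Fin r → ℕ → ℝ → ℝ) :
    MvPolynomial (Fin r) ℂ →ₗ[ℂ] ((Fin r → ℝ) → ℂ) :=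
  (basisMonomials (Fin r) ℂ).constr ℂ
    (fun k z => ((∏ j, ((-1) ^ (k j) * β j (k j) (z j)) : ℝ) : ℂ))

theorem Hf_monomial (β : Fin r → ℕ → ℝ → ℝ) (k : Fin r →₀ ℕ) (a : ℂ) (z : Fin r → ℝ) :
    Hf β (monomial k a) z = a * ((∏ j, ((-1) ^ (k j) * β j (k j) (z j)) : ℝ) : ℂ) := by
  have : monomial k a = a • (basisMonomials (Fin r) ℂ) k := by
    simp [smul_monomial]
  rw [this, map_smul, Hf, Module.Basis.constr_basis]
  rfl

attribute [irreducible] Hf

variable {β : Fin r → ℕ → ℝ → ℝ}

theorem Hf_continuous (hβ : IsTower β) (p : MvPolynomial (Fin r) ℂ) : Continuous (Hf β p) := by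
  have hc : ∀ j k, Continuous (β j k) := fun j k =>
    continuous_iff_continuousAt.mpr (fun x => (hβ.deriv j k x).continuousAt)
  induction p using induction_on' with
  | monomial u a =>
    have : Hf β (monomial u a) = fun z : Fin r → ℝ =>
        a * ((∏ j, ((-1) ^ (u j) * β j (u j) (z j)) : ℝ) : ℂ) := funext (Hf_monomial β u a)
    rw [this]
    refine continuous_const.mul (Complex.continuous_ofReal.comp ?_)
    exact continuous_finsetProd _ (fun j _ =>
      continuous_const.mul ((hc _ _).comp (continuous_apply j)))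
  | add p q hp hq => rw [map_add]; exact hp.add hq

theorem Hf_bdd (hβ : IsTower β) (p : MvPolynomial (Fin r) ℂ) : ∃ C, ∀ z, ‖Hf β p z‖ ≤ C := by
  choose B hB using hβ.bdd
  induction p using induction_on' with
  | monomial u a =>
    refine ⟨‖a‖ * ∏ j, B j (u j), fun z => ?_⟩
    rw [Hf_monomial, norm_mul, Complex.norm_real, Real.norm_eq_abs, Finset.abs_prod]
    refine mul_le_mul_of_nonneg_left (Finset.prod_le_prod (fun _ _ => abs_nonneg _) ?_)
      (norm_nonneg _)
    intro j _
    rw [abs_mul, abs_pow, abs_neg, abs_one, one_pow, one_mul]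
    exact hB _ _ _
  | add p q hp hq =>
    obtain ⟨C, hC⟩ := hp
    obtain ⟨D, hD⟩ := hq
    exact ⟨C + D, fun z => by
      rw [map_add]; exact (norm_add_le _ _).trans (add_le_add (hC z) (hD z))⟩

theorem Hf_X_mul (β : Fin r → ℕ → ℝ → ℝ) (j : Fin r) (u : Fin r →₀ ℕ) (a : ℂ) (z : Fin r → ℝ) :
    Hf β (X j * monomial u a) z = a * ((-((-1) ^ (u j) * β j (u j + 1) (z j)) *
      ∏ x ∈ Finset.univ.erase j, ((-1) ^ (u x) * β x (u x) (z x)) : ℝ) : ℂ) := by
  rw [X, monomial_mul, one_mul, Hf_monomial,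
    ← Finset.mul_prod_erase Finset.univ _ (Finset.mem_univ j)]
  have : ∏ x ∈ Finset.univ.erase j, ((-1 : ℝ) ^ ((Finsupp.single j 1 + u : Fin r →₀ ℕ) x) *
      β x ((Finsupp.single j 1 + u : Fin r →₀ ℕ) x) (z x)) =
      ∏ x ∈ Finset.univ.erase j, ((-1) ^ (u x) * β x (u x) (z x)) := by
    refine Finset.prod_congr rfl (fun x hx => ?_)
    have := Finset.ne_of_mem_erase hx
    simp [this.symm]
  rw [this]
  simp only [Finsupp.coe_add, Pi.add_apply, Finsupp.single_eq_same]
  rw [add_comm 1 (u j), pow_succ]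
  push_cast
  ring

theorem Hf_hasDerivAt (hβ : IsTower β) (p : MvPolynomial (Fin r) ℂ) (z v : Fin r → ℝ) (t : ℝ) :
    HasDerivAt (fun t : ℝ => Hf β p (z + t • v))
      (-Hf β ((∑ j, C (v j : ℂ) * X j) * p) (z + t • v)) t := by
  induction p using induction_on' with
  | monomial u a =>
    have h1 : ∀ j ∈ (Finset.univ : Finset (Fin r)),
        HasDerivAt (fun t : ℝ => (-1) ^ (u j) * β j (u j) ((z + t • v) j))
        ((-1) ^ (u j) * (β j (u j + 1) ((z + t • v) j) * v j)) t := by
      intro j _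
      have a1 : HasDerivAt (fun t : ℝ => (z + t • v) j) (v j) t := by
        simpa using ((hasDerivAt_id t).mul_const (v j)).const_add (z j)
      exact ((hβ.deriv j (u j) _).comp t a1).const_mul _
    have h2 := ((HasDerivAt.fun_finsetProd h1).ofReal_comp).const_mul a
    simp only [Hf_monomial]
    refine h2.congr_deriv (Eq.symm ?_)
    rw [Finset.sum_mul, map_sum, Finset.sum_apply, Complex.ofReal_sum, Finset.mul_sum,
      ← Finset.sum_neg_distrib]
    refine Finset.sum_congr rfl (fun j _ => ?_)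
    rw [mul_assoc, ← smul_eq_C_mul, map_smul, Pi.smul_apply, Hf_X_mul, smul_eq_mul, smul_eq_mul]
    push_cast
    ring
  | add p q hp hq =>
    simp only [mul_add, map_add, Pi.add_apply, neg_add]
    exact hp.add hq

theorem Hf_average (hβ : IsTower β) (p : MvPolynomial (Fin r) ℂ) (z v : Fin r → ℝ)
    {lam : ℝ} (hl : 0 < lam) :
    ∫ t in Ioi (0 : ℝ), ((Real.exp (-lam * t) : ℝ) : ℂ) *
      Hf β ((C (lam : ℂ) + ∑ j, C (v j : ℂ) * X j) * p) (z + t • v) = Hf β p z := by
  obtain ⟨B, hB⟩ := Hf_bdd hβ p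
  obtain ⟨B', hB'⟩ := Hf_bdd hβ ((C (lam : ℂ) + ∑ j, C (v j : ℂ) * X j) * p)
  have hc : Continuous (fun t : ℝ => z + t • v) := by fun_prop
  have key := average_aux (F := fun t : ℝ => Hf β p (z + t • v))
    (G := fun t : ℝ => Hf β ((C (lam : ℂ) + ∑ j, C (v j : ℂ) * X j) * p) (z + t • v)) hl
    (fun t => (Hf_hasDerivAt hβ p z v t).congr_deriv (by
      rw [add_mul, map_add, Pi.add_apply, ← smul_eq_C_mul, map_smul, Pi.smul_apply, smul_eq_mul]
      ring))
    ((Hf_continuous hβ ((C (lam : ℂ) + ∑ j, C (v j : ℂ) * X j) * p)).comp hc)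
    (fun t => hB _) (fun t => hB' _)
  simpa using key

theorem Hf_congr {β β' : Fin r → ℕ → ℝ → ℝ} {z : Fin r → ℝ}
    (h : ∀ j m, β j m (z j) = β' j m (z j)) (p : MvPolynomial (Fin r) ℂ) :
    Hf β p z = Hf β' p z := by
  induction p using induction_on' with
  | monomial u a => simp only [Hf_monomial, h]
  | add p q hp hq => simp only [map_add, Pi.add_apply, hp, hq]

theorem Hf_zero {β : Fin r → ℕ → ℝ → ℝ} {z : Fin r → ℝ} (j : Fin r)
    (h : ∀ m, β j m (z j) = 0) (p : MvPolynomial (Fin r) ℂ) : Hf β p z = 0 := by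
  induction p using induction_on' with
  | monomial u a =>
    rw [Hf_monomial, Finset.prod_eq_zero (Finset.mem_univ j) (by rw [h, mul_zero])]
    simp
  | add p q hp hq => simp only [map_add, Pi.add_apply, hp, hq, add_zero]

/-- the family obtained by applying first order operators in the coordinates of `S` -/
noncomputable def Dfam (β : Fin r → ℕ → ℝ → ℝ) (S : Finset (Fin r)) (κ : Fin r → ℝ) :
    Fin r → ℕ → ℝ → ℝ :=
  fun j m y => if j ∈ S then κ j * β j m y - β j (m + 1) y else β j m y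

theorem Hf_factor_one (β : Fin r → ℕ → ℝ → ℝ) (j : Fin r) (κ : Fin r → ℝ)
    (q : MvPolynomial (Fin r) ℂ) (z : Fin r → ℝ) :
    Hf β ((X j + C (κ j : ℂ)) * q) z = Hf (Dfam β {j} κ) q z := by
  induction q using induction_on' with
  | monomial u a =>
    rw [add_mul, map_add, Pi.add_apply, Hf_X_mul, C_mul_monomial, Hf_monomial, Hf_monomial,
      ← Finset.mul_prod_erase Finset.univ _ (Finset.mem_univ j),
      ← Finset.mul_prod_erase Finset.univ _ (Finset.mem_univ j)]
    have : ∏ x ∈ Finset.univ.erase j, ((-1 : ℝ) ^ (u x) * Dfam β {j} κ x (u x) (z x)) =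
        ∏ x ∈ Finset.univ.erase j, ((-1) ^ (u x) * β x (u x) (z x)) :=
      Finset.prod_congr rfl (fun x hx => by simp [Dfam, Finset.ne_of_mem_erase hx])
    rw [this]
    simp only [Dfam, Finset.mem_singleton, if_true]
    push_cast
    ring
  | add p q hp hq => simp only [mul_add, map_add, Pi.add_apply, hp, hq]

theorem Hf_factor (β : Fin r → ℕ → ℝ → ℝ) (S : Finset (Fin r)) (κ : Fin r → ℝ)
    (q : MvPolynomial (Fin r) ℂ) (z : Fin r → ℝ) :
    Hf β ((∏ j ∈ S, (X j + C (κ j : ℂ))) * q) z = Hf (Dfam β S κ) q z := by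
  induction S using Finset.induction_on generalizing q with
  | empty =>
    rw [Finset.prod_empty, one_mul]
    exact Hf_congr (fun j m => by simp [Dfam]) q
  | insert i S hi ih =>
    rw [Finset.prod_insert hi, mul_comm (X i + _), mul_assoc, ih, Hf_factor_one]
    refine Hf_congr (fun j m => ?_) q
    by_cases h : j = i
    · subst h
      simp [Dfam, hi]
    · simp [Dfam, h]

theorem Hf_vanish {β : Fin r → ℕ → ℝ → ℝ} {z : Fin r → ℝ} (j : Fin r) (κ : ℝ)
    (h : ∀ m, κ * β j m (z j) - β j (m + 1) (z j) = 0) {p : MvPolynomial (Fin r) ℂ}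
    (hp : (X j + C (κ : ℂ)) ∣ p) : Hf β p z = 0 := by
  obtain ⟨q, rfl⟩ := hp
  rw [Hf_factor_one β j (fun _ => κ)]
  exact Hf_zero j (fun m => by simpa [Dfam] using h m) q

theorem tower_contDiff {v : ℕ → ℝ → ℝ} (h : ∀ m x, HasDerivAt (v m) (v (m + 1) x) x) (n m : ℕ) :
    ContDiff ℝ n (v m) := by
  induction n generalizing m with
  | zero => exact contDiff_zero.mpr (continuous_iff_continuousAt.mpr fun x => (h m x).continuousAt)
  | succ n ih =>
    have e : deriv (v m) = v (m + 1) := funext (fun x => (h m x).deriv)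
    push_cast
    rw [contDiff_succ_iff_deriv, e]
    exact ⟨fun x => (h m x).differentiableAt, by simp, ih _⟩

theorem tower_iter {v : ℕ → ℝ → ℝ} (h : ∀ m x, HasDerivAt (v m) (v (m + 1) x) x) (m : ℕ) :
    iteratedDeriv m (v 0) = v m := by
  induction m with
  | zero => simp
  | succ m ih => rw [iteratedDeriv_succ, ih]; exact funext (fun x => (h m x).deriv)

theorem exists_inverse {ε δ : ℝ} {b : ℕ → ℝ → ℝ} (hb : IsStep ε δ b) (κ Y : ℝ) :
    ∃ u : ℕ → ℝ → ℝ, (∀ m x, HasDerivAt (u m) (u (m + 1) x) x) ∧ (∀ m, ∃ C, ∀ x, |u m x| ≤ C) ∧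
      (∀ m y, y < ε → u m y = 0) ∧ ∀ m y, y < Y → κ * u m y - u (m + 1) y = -b (m + 1) y := by
  have hc : Continuous (fun t => Real.exp (-κ * t) * b 1 t) :=
    (by fun_prop : Continuous fun t => Real.exp (-κ * t)).mul
      (continuous_iff_continuousAt.mpr fun x => (hb.deriv 1 x).continuousAt)
  let v : ℕ → ℝ → ℝ := fun m => Nat.rec
    (fun y => Real.exp (κ * y) * ∫ t in (ε - 1)..y, Real.exp (-κ * t) * b 1 t)
    (fun m f y => κ * f y + b (m + 1) y) m
  have hv : ∀ m x, HasDerivAt (v m) (v (m + 1) x) x := by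
    intro m
    induction m with
    | zero =>
      intro x
      have a1 : HasDerivAt (fun y => Real.exp (κ * y)) (Real.exp (κ * x) * κ) x := by
        simpa using ((hasDerivAt_id x).const_mul κ).exp
      refine (a1.fun_mul (hc.integral_hasStrictDerivAt (ε - 1) x).hasDerivAt).congr_deriv ?_
      show _ = κ * (Real.exp (κ * x) * _) + b 1 x
      rw [← mul_assoc (Real.exp (κ * x)) (Real.exp _), ← Real.exp_add]
      simp only [neg_mul, add_neg_cancel, Real.exp_zero]
      ring
    | succ m ih =>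
      intro x
      exact ((ih x).const_mul κ).fun_add (hb.deriv (m + 1) x)
  let f : ℝ → ℝ := fun y => v 0 y * Real.smoothTransition (Y + 1 - y)
  have hf : ∀ m : ℕ, ContDiff ℝ m f := fun m => (tower_contDiff hv m 0).mul
    (Real.smoothTransition.contDiff.comp (contDiff_const.sub contDiff_id))
  have hl : ∀ m y, y < ε → iteratedDeriv m f y = 0 := by
    intro m y hy
    have : f =ᶠ[𝓝 y] fun _ => 0 := by
      filter_upwards [Iio_mem_nhds hy] with x hx
      have : ∫ t in (ε - 1)..x, Real.exp (-κ * t) * b 1 t = 0 := by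
        rw [intervalIntegral.integral_congr (g := fun _ => 0) (fun t ht => by
          have : t < ε := lt_of_le_of_lt ht.2 (max_lt (by linarith) hx)
          simp [hb.left 1 t this])]
        simp
      simp only [f, v, Nat.rec_zero, this, mul_zero, zero_mul]
    rw [this.iteratedDeriv_eq]
    simp
  have hr : ∀ m y, Y + 1 < y → iteratedDeriv m f y = 0 := by
    intro m y hy
    have : f =ᶠ[𝓝 y] fun _ => 0 := by
      filter_upwards [Ioi_mem_nhds hy] with x hx
      simp only [f, Real.smoothTransition.zero_of_nonpos (by linarith [mem_Ioi.mp hx] :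
        Y + 1 - x ≤ 0), mul_zero]
    rw [this.iteratedDeriv_eq]
    simp
  have hm : ∀ m y, y < Y → iteratedDeriv m f y = v m y := by
    intro m y hy
    have : f =ᶠ[𝓝 y] v 0 := by
      filter_upwards [Iio_mem_nhds hy] with x hx
      simp only [f, Real.smoothTransition.one_of_one_le (by linarith [mem_Iio.mp hx] :
        1 ≤ Y + 1 - x), mul_one]
    rw [this.iteratedDeriv_eq, tower_iter hv]
  refine ⟨fun m => iteratedDeriv m f, fun m x => ?_, fun m => ?_, hl, fun m y hy => ?_⟩
  · simp only [iteratedDeriv_succ]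
    exact ((hf (m + 1)).differentiable_iteratedDeriv' m x).hasDerivAt
  · have hc : Continuous (iteratedDeriv m f) := (hf m).continuous_iteratedDeriv' _
    obtain ⟨C, hC⟩ := (isCompact_Icc (a := ε) (b := Y + 1)).exists_bound_of_continuousOn
      hc.continuousOn
    refine ⟨max C 0, fun x => ?_⟩
    by_cases h1 : x < ε
    · simp [hl _ _ h1]
    · by_cases h2 : Y + 1 < x
      · simp [hr _ _ h2]
      · exact (hC x ⟨not_lt.mp h1, not_lt.mp h2⟩).trans (le_max_left _ _)
  · simp only [hm _ _ hy]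
    show κ * v m y - (κ * v m y + b (m + 1) y) = _
    ring

end Pool.Agent.MP_ee8c61_ag.H48
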