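import Mathlib
import Pool.Agent.MP_ee8c61_ag.H48.Step2
import Pool.Agent.MP_ee8c61_ag.H48.Algebra2
import Pool.Agent.MP_ee8c61_ag.H48.Average

namespace Pool.Agent.MP_ee8c61_ag.H48

open MvPolynomial MeasureTheory Set Filter Topology

variable {n r : ℕ} {ε δ : ℝ} {β : Fin r → ℕ → ℝ → ℝ}

noncomputable def Psi2 (β : Fin r → ℕ → ℝ → ℝ) (A : Fin n → Fin r → ℝ) (T : Finset (Fin n))
    (p : MvPolynomial (Fin r) ℂ) (z : Fin r → ℝ) : ℂ :=
  ∫ w, W w * Hf β p (pt A T z w) ∂(mu n)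

theorem Psi2_integrable (hβ : IsTower β) (A : Fin n → Fin r → ℝ) (T : Finset (Fin n))
    (p : MvPolynomial (Fin r) ℂ) (z : Fin r → ℝ) :
    Integrable (fun w => W w * Hf β p (pt A T z w)) (mu n) := by
  obtain ⟨B, hB⟩ := Hf_bdd hβ p
  have hc : Continuous (fun w => pt A T z w) :=
    (pt_continuous A T).comp (continuous_const.prodMk continuous_id)
  exact W_integrable.mul_bdd ((Hf_continuous hβ p).comp hc).aestronglyMeasurable
    (Eventually.of_forall (fun w => hB _))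

theorem Psi2_add (hβ : IsTower β) (A : Fin n → Fin r → ℝ) (T : Finset (Fin n))
    (p q : MvPolynomial (Fin r) ℂ) (z : Fin r → ℝ) :
    Psi2 β A T (p + q) z = Psi2 β A T p z + Psi2 β A T q z := by
  unfold Psi2
  rw [← integral_add (Psi2_integrable hβ A T p z) (Psi2_integrable hβ A T q z)]
  simp only [map_add, Pi.add_apply, mul_add]

theorem Psi2_zero (A : Fin n → Fin r → ℝ) (T : Finset (Fin n)) (z : Fin r → ℝ) :
    Psi2 β A T 0 z = 0 := by simp [Psi2]

theorem Psi2_step (hβ : IsTower β) (A : Fin n → Fin r → ℝ) (T : Finset (Fin n)) (i : Fin n)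
    (hi : i ∉ T) (p : MvPolynomial (Fin r) ℂ) (z : Fin r → ℝ) :
    Psi2 β A T ((C ((1 : ℝ) : ℂ) + ∑ j, C (A i j : ℂ) * X j) * p) z =
      Psi2 β A (insert i T) p z := by
  obtain ⟨m, rfl⟩ : ∃ m, n = m + 1 := ⟨n - 1, by have := i.pos; omega⟩
  unfold Psi2
  rw [fubini_coord i _ (Psi2_integrable hβ A T _ z),
    fubini_coord i _ (Psi2_integrable hβ A (insert i T) _ z)]
  refine integral_congr_ae (Eventually.of_forall (fun w' => ?_))
  have hW : ∀ t : ℝ, W (Fin.insertNth i t w' : Fin (m + 1) → ℝ) =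
      W w' * ((Real.exp (-1 * t) : ℝ) : ℂ) := by
    intro t
    unfold W
    rw [Fin.prod_univ_succAbove _ i, mul_comm]
    simp only [Fin.insertNth_apply_same, Fin.insertNth_apply_succAbove]
  set y : Fin r → ℝ := z + ∑ k : Fin m, (if i.succAbove k ∈ T then 0 else w' k) • A (i.succAbove k)
    with hy
  have h1 : ∀ t : ℝ, pt A T z (Fin.insertNth i t w') = y + t • A i := by
    intro t
    unfold pt
    rw [Fin.sum_univ_succAbove _ i, hy]
    simp only [Fin.insertNth_apply_same, Fin.insertNth_apply_succAbove, if_neg hi]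
    abel
  have h2 : ∀ t : ℝ, pt A (insert i T) z (Fin.insertNth i t w') = y := by
    intro t
    unfold pt
    rw [Fin.sum_univ_succAbove _ i, hy]
    simp [Fin.succAbove_ne]
  simp only [hW, h1, h2, mul_assoc]
  rw [integral_const_mul, integral_const_mul, Hf_average hβ p y (A i) one_pos,
    integral_mul_const, integral_exp_one, one_mul]

theorem Psi2_prod (hβ : IsTower β) (a : Fin r → Fin n →₀ ℕ) (T S : Finset (Fin n))
    (hd : Disjoint S T) (p : MvPolynomial (Fin r) ℂ) (z : Fin r → ℝ) :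
    Psi2 β (Amat a) T ((∏ i ∈ S, (1 + lin a i)) * p) z = Psi2 β (Amat a) (S ∪ T) p z := by
  induction S using Finset.induction_on generalizing p with
  | empty => simp
  | insert i S hi ih =>
    rw [Finset.disjoint_insert_left] at hd
    have e : 1 + lin a i = C ((1 : ℝ) : ℂ) + ∑ j, C (Amat a i j : ℂ) * X j := by
      simp [lin, Amat]
    rw [Finset.prod_insert hi, mul_comm (1 + _), mul_assoc, ih hd.2, e,
      Psi2_step hβ _ _ i (by simp [hi, hd.1]), Finset.insert_union]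

theorem pt_apply (a : Fin r → Fin n →₀ ℕ) (T : Finset (Fin n)) (z : Fin r → ℝ) (w : Fin n → ℝ)
    (j : Fin r) : pt (Amat a) T z w j = z j + ∑ i, (if i ∈ T then 0 else w i) * a j i := by
  simp only [pt, Amat, Finset.sum_apply, Pi.add_apply, Pi.smul_apply, smul_eq_mul]

theorem confine (a : Fin r → Fin n →₀ ℕ) (B : Finset (Fin n)) (T : Finset (Fin r))
    (hB : ∀ i ∈ B, ∃ j, j ∉ T ∧ a j i ≠ 0) (z : Fin r → ℝ) (c : ℝ) :
    ∃ Y : ℝ, ∀ (T' : Finset (Fin n)) (w : Fin n → ℝ), Bᶜ ⊆ T' → (∀ i, 0 < w i) →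
      (∀ j ∉ T, pt (Amat a) T' z w j ≤ c) → ∀ j, pt (Amat a) T' z w j < Y := by
  set M : ℝ := ∑ j, |c - z j| with hM
  have hM0 : 0 ≤ M := Finset.sum_nonneg (fun _ _ => abs_nonneg _)
  refine ⟨∑ j, (|z j| + ∑ i, M * a j i) + 1, fun T' w hT hw hy j => ?_⟩
  have hnn : ∀ i, 0 ≤ (if i ∈ T' then 0 else w i) := fun i => by
    split_ifs
    · exact le_rfl
    · exact (hw i).le
  have h1 : ∀ i, (if i ∈ T' then 0 else w i) ≤ M := by
    intro i
    by_cases hi : i ∈ T'
    · rw [if_pos hi]; exact hM0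
    · obtain ⟨j', hj', ha⟩ := hB i (by
        by_contra h
        exact hi (hT (Finset.mem_compl.mpr h)))
      have h2 := hy j' hj'
      rw [pt_apply] at h2
      have h3 := Finset.single_le_sum (f := fun i => (if i ∈ T' then 0 else w i) * (a j' i : ℝ))
        (fun i _ => mul_nonneg (hnn i) (Nat.cast_nonneg _)) (Finset.mem_univ i)
      have h4 : (1 : ℝ) ≤ a j' i := by exact_mod_cast Nat.one_le_iff_ne_zero.mpr ha
      have h5 := Finset.single_le_sum (f := fun j => |c - z j|) (fun _ _ => abs_nonneg _)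
        (Finset.mem_univ j')
      have h6 := le_abs_self (c - z j')
      have h7 := hnn i
      nlinarith
  have h2 : ∑ i, (if i ∈ T' then 0 else w i) * (a j i : ℝ) ≤ ∑ i, M * a j i :=
    Finset.sum_le_sum (fun i _ => mul_le_mul_of_nonneg_right (h1 i) (Nat.cast_nonneg _))
  have h3 := Finset.single_le_sum (f := fun j => |z j| + ∑ i, M * (a j i : ℝ))
    (fun j _ => add_nonneg (abs_nonneg _) (Finset.sum_nonneg (fun i _ =>
      mul_nonneg hM0 (Nat.cast_nonneg _)))) (Finset.mem_univ j)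
  rw [pt_apply]
  linarith [le_abs_self (z j)]

theorem no_point (a : Fin r → Fin n →₀ ℕ) (hδ : 0 ≤ δ) (d : Fin r → ℤ) (hd : ∑ j, d j = 1)
    (z : Fin r → ℝ) (hz : ∑ j, (d j : ℝ) * z j < ε - δ * ∑ j, |(d j : ℝ)|) (T' : Finset (Fin n))
    (hT : ∀ i ∉ T', linZ a d i ≤ 0) (w : Fin n → ℝ) (hw : ∀ i, 0 < w i)
    (h1 : ∀ j, ε ≤ pt (Amat a) T' z w j) (h2 : ∀ j, d j < 0 → pt (Amat a) T' z w j ≤ ε + δ) :
    False := by
  set y := pt (Amat a) T' z w with hy
  have hc' : ∑ j, (d j : ℝ) = 1 := by exact_mod_cast hd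
  have lower : ε - δ * ∑ j, |(d j : ℝ)| ≤ ∑ j, (d j : ℝ) * y j := by
    have : ε - δ * ∑ j, |(d j : ℝ)| = ∑ j, ((d j : ℝ) * ε - δ * |(d j : ℝ)|) := by
      rw [Finset.sum_sub_distrib, ← Finset.sum_mul, hc', ← Finset.mul_sum, one_mul]
    rw [this]
    refine Finset.sum_le_sum (fun j _ => ?_)
    by_cases hj : d j < 0
    · have a1 := h2 j hj
      have a2 : (d j : ℝ) < 0 := by exact_mod_cast hj
      rw [abs_of_neg a2]
      nlinarith
    · have a1 := h1 j
      have a2 : (0 : ℝ) ≤ d j := by exact_mod_cast not_lt.mp hj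
      rw [abs_of_nonneg a2]
      nlinarith [mul_nonneg hδ a2]
  have e : ∑ j, (d j : ℝ) * y j =
      ∑ j, (d j : ℝ) * z j + ∑ i, (if i ∈ T' then 0 else w i) * (linZ a d i : ℝ) := by
    simp only [hy, pt_apply, mul_add, Finset.sum_add_distrib, Finset.mul_sum, linZ]
    congr 1
    rw [Finset.sum_comm]
    refine Finset.sum_congr rfl (fun i _ => ?_)
    push_cast
    rw [Finset.mul_sum]
    exact Finset.sum_congr rfl (fun j _ => by ring)
  have : ∑ i, (if i ∈ T' then 0 else w i) * (linZ a d i : ℝ) ≤ 0 := by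
    refine Finset.sum_nonpos (fun i _ => ?_)
    split_ifs with hi
    · simp
    · exact mul_nonpos_of_nonneg_of_nonpos (hw i).le (by exact_mod_cast hT i hi)
  linarith

/-- no variable occurs, outside `J`, in exactly one monomial and there linearly -/
def Closed (a : Fin r → Fin n →₀ ℕ) (J : Finset (Fin r)) : Prop :=
  ∀ i j, j ∉ J → a j i = 1 → ∃ j', j' ≠ j ∧ j' ∉ J ∧ a j' i ≠ 0

noncomputable def NJ (J : Finset (Fin r)) : MvPolynomial (Fin r) ℂ :=
  (∏ j ∈ J, (1 + X j)) * ∏ j ∈ Jᶜ, X j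

theorem exists_outside {a : Fin r → Fin n →₀ ℕ} {J : Finset (Fin r)} (hJ : Closed a J)
    (x : Fin r → ℂ) (A0 A1 : Finset (Fin r)) (h0 : ∀ j ∈ A0, j ∈ J ∧ x j = 0)
    (h1 : ∀ j ∈ A1, (∃ m : ℕ, x j = -((m + 1 : ℕ) : ℂ)) ∧ ¬ (j ∈ J ∧ x j = -1)) (i : Fin n)
    (hi : eval x (1 + lin a i) = 0) : ∃ j, j ∉ A0 ∪ A1 ∧ a j i ≠ 0 := by
  by_contra hcon
  push Not at hcon
  have hx : ∀ j, ∃ m : ℕ, (a j i : ℂ) * x j = -(m : ℂ) ∧ (j ∉ A0 → a j i ≤ m) := by
    intro j
    by_cases hj0 : j ∈ A0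
    · exact ⟨0, by simp [(h0 j hj0).2], fun h => absurd hj0 h⟩
    · by_cases hj1 : j ∈ A1
      · obtain ⟨m, hm⟩ := (h1 j hj1).1
        exact ⟨a j i * (m + 1), by rw [hm]; push_cast; ring, fun _ => by nlinarith⟩
      · exact ⟨0, by simp [hcon j (by simp [hj0, hj1])], fun _ => by
          simp [hcon j (by simp [hj0, hj1])]⟩
  choose m hm hm' using hx
  have hsum : ∑ j, m j = 1 := by
    simp only [lin, map_add, map_one, map_sum, map_mul, eval_C, eval_X, hm,
      Finset.sum_neg_distrib] at hi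
    have : ((∑ j, m j : ℕ) : ℂ) = 1 := by push_cast; linear_combination -hi
    exact_mod_cast this
  obtain ⟨j, _, hj⟩ := Finset.exists_ne_zero_of_sum_ne_zero (by omega : ∑ j, m j ≠ 0)
  have hle : ∀ j', j' ≠ j → m j' = 0 := by
    intro j' hne
    have := Finset.sum_le_sum_of_subset (f := m) (Finset.subset_univ {j, j'})
    rw [Finset.sum_pair hne.symm] at this
    omega
  have hmj : m j = 1 := by
    have := Finset.single_le_sum (f := m) (fun _ _ => Nat.zero_le _) (Finset.mem_univ j)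
    omega
  have e := hm j
  rw [hmj] at e
  have hj0 : j ∉ A0 := fun h => by simp [(h0 j h).2] at e
  have ha : a j i = 1 := by
    have := hm' j hj0
    have : a j i ≠ 0 := fun h => by simp [h] at e
    omega
  have hj1 : j ∈ A1 := by
    by_contra h
    have := hcon j (by simp [hj0, h])
    omega
  have hjJ : j ∉ J := fun h => (h1 j hj1).2 ⟨h, by simpa [ha] using e⟩
  obtain ⟨j', hne, hj', ha'⟩ := hJ i j hjJ ha
  have := hm' j' (fun h => hj' (h0 j' h).1)
  have := hle j' hne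
  omega

theorem local_vanish {b : ℕ → ℝ → ℝ} (hb : IsStep ε δ b) (hδ : 0 ≤ δ) (a : Fin r → Fin n →₀ ℕ)
    {K : ℕ} (hK : 1 ≤ K) (B0 : MvPolynomial (Fin r) ℂ) (hstar : B0 * ∏ j, Del1 K j ∈ nIdeal a K)
    {J : Finset (Fin r)} (hJ : Closed a J) (x : Fin r → ℂ) :
    ∃ D : MvPolynomial (Fin r) ℂ, eval x D ≠ 0 ∧ ∀ (h : MvPolynomial (Fin r) ℂ) (z : Fin r → ℝ),
      (∀ d : Fin r → ℤ, ∑ j, d j = 1 → (∀ j, |d j| ≤ K) →
        ∑ j, (d j : ℝ) * z j < ε - δ * ∑ j, |(d j : ℝ)|) →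
      Psi2 (fun _ => b) (Amat a) ∅ (D * B0 * NJ J * h) z = 0 := by
  classical
  let Bs : Finset (Fin n) := Finset.univ.filter (fun i => eval x (1 + lin a i) = 0)
  let A0 : Finset (Fin r) := J.filter (fun j => x j = 0)
  let Neg : Finset (Fin r) :=
    Finset.univ.filter (fun j => ∃ m ∈ Finset.range K, x j = -((m + 1 : ℕ) : ℂ))
  let A2 : Finset (Fin r) := J.filter (fun j => x j = -1)
  let A1 : Finset (Fin r) := Neg \ A2
  let κ : Fin r → ℝ := fun j => -(x j).re
  have hκ : ∀ j ∈ Neg, ∃ m ∈ Finset.range K, x j = -((m + 1 : ℕ) : ℂ) ∧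
      (κ j : ℂ) = ((m + 1 : ℕ) : ℂ) := by
    intro j hj
    obtain ⟨m, hm, e⟩ := (Finset.mem_filter.mp hj).2
    exact ⟨m, hm, e, by simp [κ, e]⟩
  have hE : ∀ j, ∃ E, eval x E ≠ 0 ∧
      Del1 K j = (if j ∈ Neg then X j + C (κ j : ℂ) else 1) * E := by
    intro j
    split_ifs with hj
    · obtain ⟨m, hm, e, e'⟩ := hκ j hj
      refine ⟨∏ m' ∈ (Finset.range K).erase m, (X j + C ((m' + 1 : ℕ) : ℂ)), ?_, ?_⟩
      · rw [map_prod]
        refine Finset.prod_ne_zero_iff.mpr (fun m' hm' h => Finset.ne_of_mem_erase hm' ?_)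
        rw [map_add, eval_X, eval_C, e, neg_add_eq_zero] at h
        have : m + 1 = m' + 1 := by exact_mod_cast h
        omega
      · rw [e', Del1, Finset.mul_prod_erase _ (fun m' => X j + C ((m' + 1 : ℕ) : ℂ)) hm]
    · refine ⟨Del1 K j, ?_, (one_mul _).symm⟩
      rw [Del1, map_prod]
      refine Finset.prod_ne_zero_iff.mpr (fun m hm h => hj ?_)
      rw [map_add, eval_X, eval_C, add_eq_zero_iff_eq_neg] at h
      exact Finset.mem_filter.mpr ⟨Finset.mem_univ _, m, hm, h⟩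
  choose E hE hE' using hE
  have hA2 : A2 ⊆ Neg := fun j hj => Finset.mem_filter.mpr ⟨Finset.mem_univ _, 0,
    Finset.mem_range.mpr hK, by simpa using (Finset.mem_filter.mp hj).2⟩
  have hdisj : Disjoint A0 A1 := by
    rw [Finset.disjoint_left]
    intro j h0 h1
    obtain ⟨m, _, e, _⟩ := hκ j (Finset.mem_sdiff.mp h1).1
    rw [(Finset.mem_filter.mp h0).2, eq_comm, neg_eq_zero] at e
    exact absurd (by exact_mod_cast e : m + 1 = 0) (by omega)
  have hout : ∀ i ∈ Bs, ∃ j, j ∉ A0 ∪ A1 ∧ a j i ≠ 0 := fun i hi =>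
    exists_outside hJ x A0 A1 (fun j hj => Finset.mem_filter.mp hj) (fun j hj => by
      obtain ⟨m, _, e, _⟩ := hκ j (Finset.mem_sdiff.mp hj).1
      exact ⟨⟨m, e⟩, fun h => (Finset.mem_sdiff.mp hj).2 (Finset.mem_filter.mpr h)⟩) i
      (Finset.mem_filter.mp hi).2
  refine ⟨(∏ i ∈ Bsᶜ, (1 + lin a i)) * (∏ j ∈ J \ A0, X j) * ∏ j, E j, ?_, fun h z hz => ?_⟩
  · simp only [map_mul, map_prod]
    refine mul_ne_zero (mul_ne_zero (Finset.prod_ne_zero_iff.mpr (fun i hi => ?_))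
      (Finset.prod_ne_zero_iff.mpr (fun j hj => ?_))) (Finset.prod_ne_zero_iff.mpr
        (fun j _ => hE j))
    · simpa [Bs] using hi
    · rw [eval_X]
      exact fun h0 => (Finset.mem_sdiff.mp hj).2
        (Finset.mem_filter.mpr ⟨(Finset.mem_sdiff.mp hj).1, h0⟩)
  obtain ⟨Y, hY⟩ := confine a Bs (A0 ∪ A1) hout z (ε + δ)
  choose u hu1 hu2 hu3 hu4 using fun j => exists_inverse hb (κ j) Y
  let β' : Fin r → ℕ → ℝ → ℝ := fun j => if j ∈ A1 then u j else b
  have hβ : IsTower (fun _ : Fin r => b) := ⟨fun _ => hb.deriv, fun _ => hb.bdd⟩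
  have hβ' : IsTower β' := ⟨fun j => by
    simp only [β']; split_ifs; exacts [hu1 j, hb.deriv], fun j => by
    simp only [β']; split_ifs; exacts [hu2 j, hb.bdd]⟩
  have hright : ∀ (γ : Fin r → ℕ → ℝ → ℝ) (y : Fin r → ℝ) (j : Fin r), γ j = b → ε + δ < y j →
      ∀ p, X j ∣ p → Hf γ p y = 0 := fun γ y j hγ hy p hp =>
    Hf_vanish j 0 (fun m => by simp [hγ, hb.right m _ hy]) (by simpa using hp)
  have hβb : ∀ j, j ∉ A1 → β' j = b := fun j hj => if_neg hj
  set q1 := (∏ j ∈ (A0 ∪ A1)ᶜ, X j) * ((∏ j ∈ J, (1 + X j)) * (∏ j, E j) * B0 * h) with hq1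
  have e1 : (∏ j ∈ J \ A0, X j : MvPolynomial (Fin r) ℂ) * ∏ j ∈ Jᶜ, X j =
      (∏ j ∈ A1, X j) * ∏ j ∈ (A0 ∪ A1)ᶜ, X j := by
    rw [← Finset.prod_union (Finset.disjoint_left.mpr (fun j h1 h2 =>
        Finset.mem_compl.mp h2 (Finset.mem_sdiff.mp h1).1)),
      ← Finset.prod_union (Finset.disjoint_left.mpr (fun j h1 h2 =>
        Finset.mem_compl.mp h2 (Finset.mem_union_right _ h1)))]
    congr 1
    ext j
    have h1 : j ∈ A0 → j ∈ J := fun h => (Finset.mem_filter.mp h).1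
    have h2 : j ∈ A0 → j ∉ A1 := fun h => Finset.disjoint_left.mp hdisj h
    rw [Finset.mem_union, Finset.mem_union, Finset.mem_sdiff, Finset.mem_compl, Finset.mem_compl,
      Finset.mem_union]
    generalize (j ∈ A0) = p at h1 h2 ⊢
    generalize (j ∈ A1) = q at h1 h2 ⊢
    generalize (j ∈ J) = s at h1 h2 ⊢
    clear * - h1 h2
    tauto
  have e2 : (∏ i ∈ Bsᶜ, (1 + lin a i)) * (∏ j ∈ J \ A0, X j) * (∏ j, E j) * B0 * NJ J * h =
      (∏ i ∈ Bsᶜ, (1 + lin a i)) * ((∏ j ∈ A1, X j) * q1) := by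
    rw [hq1, NJ]
    linear_combination ((∏ i ∈ Bsᶜ, (1 + lin a i)) * (∏ j, E j) * B0 *
      (∏ j ∈ J, (1 + X j)) * h) * e1
  have e3 : (∏ j ∈ A1, (X j + C (κ j : ℂ))) * q1 = (∏ j ∈ (A0 ∪ A1)ᶜ, X j) *
      (B0 * ∏ j, Del1 K j) * ((∏ j ∈ J \ A2, (1 + X j)) * h) := by
    have f1 : (∏ j, Del1 K j : MvPolynomial (Fin r) ℂ) =
        (∏ j ∈ A1, (X j + C (κ j : ℂ))) * (∏ j ∈ A2, (1 + X j)) * ∏ j, E j := by
      simp only [hE', Finset.prod_mul_distrib, Finset.prod_ite_mem, Finset.univ_inter]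
      rw [← Finset.prod_sdiff hA2]
      congr 2
      refine Finset.prod_congr rfl (fun j hj => ?_)
      simp [κ, (Finset.mem_filter.mp hj).2, add_comm]
    rw [f1, hq1, ← Finset.prod_sdiff (Finset.filter_subset _ J : A2 ⊆ J)]
    ring
  rw [e2, Psi2_prod hβ a ∅ _ (Finset.disjoint_empty_right _), Finset.union_empty]
  have switch : Psi2 (fun _ => b) (Amat a) Bsᶜ ((∏ j ∈ A1, X j) * q1) z =
      Psi2 β' (Amat a) Bsᶜ ((∏ j ∈ A1, (X j + C (κ j : ℂ))) * q1) z := by
    refine integral_congr_ae ?_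
    filter_upwards [ae_pos] with w hw
    refine congrArg (fun t => W w * t) ?_
    by_cases hc : ∀ j ∉ A0 ∪ A1, pt (Amat a) Bsᶜ z w j ≤ ε + δ
    · have h1 := hY _ w subset_rfl hw hc
      have h2 := Hf_factor (fun _ => b) A1 (fun _ => 0) q1 (pt (Amat a) Bsᶜ z w)
      simp only [Complex.ofReal_zero, map_zero, add_zero] at h2
      rw [h2, Hf_factor]
      refine Hf_congr (fun j m => ?_) _
      by_cases hj : j ∈ A1
      · simp [Dfam, β', hj, hu4 j m _ (h1 j)]
      · simp [Dfam, β', hj]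
    · push Not at hc
      obtain ⟨j, hj, hy⟩ := hc
      have hd : X j ∣ q1 := (Finset.dvd_prod_of_mem _ (Finset.mem_compl.mpr hj)).mul_right _
      rw [hright _ _ j rfl hy _ (hd.mul_left _),
        hright _ _ j (hβb j (fun h => hj (Finset.mem_union_right _ h))) hy _ (hd.mul_left _)]
  rw [switch, e3]
  generalize (∏ j ∈ J \ A2, (1 + X j)) * h = h'
  generalize B0 * ∏ j, Del1 K j = G at hstar
  induction hstar using Submodule.span_induction generalizing h' with
  | zero => simp [Psi2_zero]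
  | add p q _ _ hp hq => rw [mul_add, add_mul, Psi2_add hβ', hp, hq, add_zero]
  | smul c p _ hp =>
    have := hp (c * h')
    rw [← this, smul_eq_mul]
    exact congrArg (fun t => Psi2 β' (Amat a) Bsᶜ t z) (by ring)
  | mem g hg =>
    obtain ⟨d, hd, hdK, rfl⟩ := hg
    let S := Bs.filter (fun i => 0 < linZ a d i)
    have hS : S ⊆ Finset.univ.filter (fun i => 0 < linZ a d i) :=
      Finset.filter_subset_filter _ (Finset.subset_univ _)
    set R := (∏ j ∈ (A0 ∪ A1)ᶜ, X j) * ((∏ j ∈ Finset.univ.filter (fun j => d j < 0), X j) *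
      ((∏ j ∈ Finset.univ.filter (fun j => d j < 0), Del1 K j) *
        ((∏ i ∈ Finset.univ.filter (fun i => 0 < linZ a d i) \ S, (1 + lin a i)) * h'))) with hR
    have e4 : (∏ j ∈ (A0 ∪ A1)ᶜ, X j) * nPoly a K d * h' = (∏ i ∈ S, (1 + lin a i)) * R := by
      rw [hR, nPoly, eFac, ← Finset.prod_sdiff hS]
      ring
    rw [e4, Psi2_prod hβ' a _ _ (Finset.disjoint_left.mpr (fun i h1 h2 =>
      Finset.mem_compl.mp h2 (Finset.mem_filter.mp h1).1))]
    refine integral_eq_zero_of_ae ?_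
    filter_upwards [ae_pos] with w hw
    rw [Pi.zero_apply, mul_eq_zero]
    right
    by_contra hne
    have h1 : ∀ j ∉ A0 ∪ A1, pt (Amat a) (S ∪ Bsᶜ) z w j ≤ ε + δ := by
      intro j hj
      by_contra hy
      exact hne (hright _ _ j (hβb j (fun h => hj (Finset.mem_union_right _ h))) (not_le.mp hy) _
        ((Finset.dvd_prod_of_mem _ (Finset.mem_compl.mpr hj)).mul_right _))
    have h2 := hY _ w Finset.subset_union_right hw h1
    refine no_point a hδ d hd z (hz d hd hdK) (S ∪ Bsᶜ) (fun i hi => ?_) w hw (fun j => ?_)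
      (fun j hj => ?_)
    · simp only [S, Finset.mem_union, Finset.mem_filter, Finset.mem_compl, not_or, not_and,
        not_not] at hi
      exact not_lt.mp (hi.1 hi.2)
    · by_contra hy
      refine hne (Hf_zero j (fun m => ?_) _)
      simp only [β']
      split_ifs
      exacts [hu3 j m _ (not_le.mp hy), hb.left m _ (not_le.mp hy)]
    · by_contra hy
      have hj' : j ∈ Finset.univ.filter (fun j => d j < 0) := by simpa using hj
      by_cases hj1 : j ∈ A1
      · refine hne (Hf_vanish j (κ j) (fun m => ?_) ?_)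
        · simp only [β', if_pos hj1]
          rw [hu4 j m _ (h2 j), hb.right m _ (not_le.mp hy), neg_zero]
        · have : X j + C (κ j : ℂ) ∣ Del1 K j := by
            rw [hE', if_pos (Finset.mem_sdiff.mp hj1).1]
            exact dvd_mul_right _ _
          exact (((this.trans (Finset.dvd_prod_of_mem _ hj')).mul_right _).mul_left _).mul_left _
      · exact hne (hright _ _ j (hβb j hj1) (not_le.mp hy) _
          (((Finset.dvd_prod_of_mem _ hj').mul_right _).mul_left _))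

theorem global_vanish {b : ℕ → ℝ → ℝ} (hb : IsStep ε δ b) (hδ : 0 ≤ δ) (a : Fin r → Fin n →₀ ℕ)
    {K : ℕ} (hK : 1 ≤ K) (B0 : MvPolynomial (Fin r) ℂ) (hstar : B0 * ∏ j, Del1 K j ∈ nIdeal a K)
    {J : Finset (Fin r)} (hJ : Closed a J) (z : Fin r → ℝ)
    (hz : ∀ d : Fin r → ℤ, ∑ j, d j = 1 → (∀ j, |d j| ≤ K) →
        ∑ j, (d j : ℝ) * z j < ε - δ * ∑ j, |(d j : ℝ)|) :
    Psi2 (fun _ => b) (Amat a) ∅ (B0 * NJ J) z = 0 := by
  have hβ : IsTower (fun _ : Fin r => b) := ⟨fun _ => hb.deriv, fun _ => hb.bdd⟩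
  let I : Ideal (MvPolynomial (Fin r) ℂ) :=
    { carrier := {D | ∀ h, Psi2 (fun _ => b) (Amat a) ∅ (D * B0 * NJ J * h) z = 0}
      add_mem' := fun {p q} hp hq h => by
        rw [add_mul, add_mul, add_mul, Psi2_add hβ, hp h, hq h, add_zero]
      zero_mem' := fun h => by simp [Psi2_zero]
      smul_mem' := fun c p hp h => by
        rw [← hp (c * h), smul_eq_mul]
        exact congrArg (fun t => Psi2 (fun _ => b) (Amat a) ∅ t z) (by ring) }
  have hI : I = ⊤ := by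
    by_contra hne
    obtain ⟨M, hM, hle⟩ := Ideal.exists_le_maximal I hne
    obtain ⟨x, rfl⟩ := isMaximal_iff_eq_vanishingIdeal_singleton.mp hM
    obtain ⟨D, hD, hD'⟩ := local_vanish hb hδ a hK B0 hstar hJ x
    have := hle (show D ∈ I from fun h => hD' h z hz)
    rw [mem_vanishingIdeal_singleton_iff] at this
    exact hD (by simpa using this)
  have : (1 : MvPolynomial (Fin r) ℂ) ∈ I := hI ▸ Submodule.mem_top
  simpa using this 1

end Pool.Agent.MP_ee8c61_ag.H48
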