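import Mathlib
import Pool.Agent.MP_ee8c61_ag.H48.Local

namespace Pool.Agent.MP_ee8c61_ag.H48

open MvPolynomial MeasureTheory Set Filter Topology

variable {n r : ℕ} {ε δ : ℝ} {β : Fin r → ℕ → ℝ → ℝ}

theorem vol_empty (a : Fin r → Fin n →₀ ℕ) : vol a ∅ = 1 := by
  rw [vol, Nat.card_eq_one_iff_unique]
  refine ⟨⟨fun c c' => Subtype.ext (funext fun j => ?_)⟩, ⟨⟨0, by simp⟩⟩⟩
  rw [c.2.1 j (by simp), c'.2.1 j (by simp)]

theorem vol_insert (a : Fin r → Fin n →₀ ℕ) (T : Finset (Fin r)) (j : Fin r) (i : Fin n)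
    (hj : a j i = 1) (hT : ∀ j' ∈ T, a j' i = 0) : vol a (insert j T) = vol a T := by
  unfold vol
  congr 2
  funext c
  refine propext (and_congr_left (fun h => ⟨fun h1 j' hj' => ?_, fun h1 j' hj' =>
    h1 j' (fun h2 => hj' (Finset.mem_insert_of_mem h2))⟩))
  by_cases e : j' = j
  · subst e
    have := h.2 i
    rw [Finset.sum_eq_single j', hj, one_smul] at this
    · exact this
    · intro l _ hl
      by_cases hl' : l ∈ T
      · rw [hT l hl', zero_smul]
      · rw [h1 l (by simp [hl, hl']), smul_zero]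
    · simp
  · exact h1 j' (by simp [e, hj'])

noncomputable def sg (S T : Finset (Fin r)) : ℂ :=
  ∏ j, if j ∈ S then (if j ∈ T then 1 else -1) else (if j ∈ T then 0 else 1)

theorem XT_expand (T : Finset (Fin r)) :
    (∏ j ∈ T, X j : MvPolynomial (Fin r) ℂ) = ∑ S : Finset (Fin r), C (sg S T) * NJ Sᶜ := by
  have h := Finset.prod_add (R := MvPolynomial (Fin r) ℂ)
    (fun j => C (if j ∈ T then 1 else -1 : ℂ) * X j)
    (fun j => C (if j ∈ T then 0 else 1 : ℂ) * (1 + X j)) Finset.univ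
  have e : ∏ j, (C (if j ∈ T then 1 else -1 : ℂ) * X j +
      C (if j ∈ T then 0 else 1 : ℂ) * (1 + X j)) = (∏ j ∈ T, X j : MvPolynomial (Fin r) ℂ) := by
    rw [← Finset.univ_inter T, ← Finset.prod_ite_mem, Finset.univ_inter]
    exact Finset.prod_congr rfl (fun j _ => by split_ifs <;> simp)
  rw [← e, h, Finset.powerset_univ]
  refine Finset.sum_congr rfl (fun S _ => ?_)
  rw [sg, Finset.prod_ite, Finset.filter_mem_eq_inter, Finset.univ_inter, NJ, compl_compl,
    Finset.filter_notMem_eq_sdiff, ← Finset.compl_eq_univ_sdiff, Finset.prod_mul_distrib,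
    Finset.prod_mul_distrib, map_mul, map_prod, map_prod]
  ring

noncomputable def Pop (a : Fin r → Fin n →₀ ℕ) : MvPolynomial (Fin r) ℂ :=
  ∑ T : Finset (Fin r), C ((vol a T : ℂ) ^ 2) * ∏ j ∈ T, X j

theorem Pop_expand (a : Fin r → Fin n →₀ ℕ) :
    ∃ c : Finset (Fin r) → ℂ, (∀ S, ¬ Closed a Sᶜ → c S = 0) ∧
      Pop a = ∑ S : Finset (Fin r), C (c S) * NJ Sᶜ := by
  refine ⟨fun S => ∑ T : Finset (Fin r), (vol a T : ℂ) ^ 2 * sg S T, fun S hS => ?_, ?_⟩
  · simp only [Closed, Finset.mem_compl, not_not, not_forall, not_exists, not_and] at hS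
    obtain ⟨i, j, hj, ha, h⟩ := hS
    beta_reduce
    rw [← Finset.powerset_univ, ← Finset.insert_erase (Finset.mem_univ j),
      Finset.sum_powerset_insert (Finset.notMem_erase j _), ← Finset.sum_add_distrib]
    refine Finset.sum_eq_zero (fun T hT => ?_)
    have hjT : j ∉ T := fun h' => Finset.notMem_erase j _ (Finset.mem_powerset.mp hT h')
    have e : sg S (insert j T) = -sg S T := by
      rw [sg, sg, ← Finset.mul_prod_erase _ _ (Finset.mem_univ j),
        ← Finset.mul_prod_erase _ _ (Finset.mem_univ j)]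
      rw [Finset.prod_congr rfl (g := fun j => if j ∈ S then (if j ∈ T then 1 else -1)
        else (if j ∈ T then 0 else 1)) (fun l hl => by simp [Finset.ne_of_mem_erase hl])]
      simp [hj, hjT]
    by_cases hTS : T ⊆ S
    · rw [e, vol_insert a T j i ha (fun l hl => h l (fun e => hjT (e ▸ hl)) (hTS hl))]
      ring
    · obtain ⟨l, hl, hl'⟩ := Finset.not_subset.mp hTS
      have : sg S T = 0 := Finset.prod_eq_zero (Finset.mem_univ l) (by simp [hl, hl'])
      rw [e, this]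
      ring
  · simp only [Pop, XT_expand, Finset.mul_sum, map_sum, Finset.sum_mul, map_mul, mul_assoc]
    exact Finset.sum_comm

noncomputable def Lam2 (β : Fin r → ℕ → ℝ → ℝ) (A : Fin n → Fin r → ℝ) (z0 : Fin r → ℝ) (s : ℝ)
    (p : MvPolynomial (Fin r) ℂ) : ℂ :=
  ∫ x : (Fin n → ℝ) × ℝ, (W x.1 * ((Real.exp (-s * x.2) : ℝ) : ℂ)) *
    Hf β p (pt A ∅ (z0 + x.2 • fun _ => -1) x.1) ∂((mu n).prod P0)

theorem Lam2_integrable (hβ : IsTower β) (A : Fin n → Fin r → ℝ) (z0 : Fin r → ℝ) {s : ℝ}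
    (hs : 0 < s) (p : MvPolynomial (Fin r) ℂ) :
    Integrable (fun x : (Fin n → ℝ) × ℝ => (W x.1 * ((Real.exp (-s * x.2) : ℝ) : ℂ)) *
      Hf β p (pt A ∅ (z0 + x.2 • fun _ => -1) x.1)) ((mu n).prod P0) := by
  obtain ⟨B, hB⟩ := Hf_bdd hβ p
  have hc : Continuous (fun x : (Fin n → ℝ) × ℝ => pt A ∅ (z0 + x.2 • fun _ => (-1 : ℝ)) x.1) :=
    (pt_continuous A ∅).comp
      (f := fun x : (Fin n → ℝ) × ℝ => (z0 + x.2 • fun _ => (-1 : ℝ), x.1)) (by fun_prop)
  exact (W_integrable.mul_prod (exp_neg_integrableOn_Ioi 0 hs).ofReal).mul_bdd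
    ((Hf_continuous hβ p).comp hc).aestronglyMeasurable (Eventually.of_forall (fun w => hB _))

noncomputable def LamL2 (hβ : IsTower β) (A : Fin n → Fin r → ℝ) (z0 : Fin r → ℝ) {s : ℝ}
    (hs : 0 < s) : MvPolynomial (Fin r) ℂ →ₗ[ℂ] ℂ where
  toFun := Lam2 β A z0 s
  map_add' p q := by
    unfold Lam2
    rw [← integral_add (Lam2_integrable hβ A z0 hs p) (Lam2_integrable hβ A z0 hs q)]
    simp only [map_add, Pi.add_apply, mul_add]
  map_smul' c p := by
    unfold Lam2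
    simp only [map_smul, Pi.smul_apply, smul_eq_mul, RingHom.id_apply]
    rw [← integral_const_mul]
    exact integral_congr_ae (Eventually.of_forall (fun x => by ring))

theorem LamL2_apply (hβ : IsTower β) (A : Fin n → Fin r → ℝ) (z0 : Fin r → ℝ) {s : ℝ}
    (hs : 0 < s) (p : MvPolynomial (Fin r) ℂ) : LamL2 hβ A z0 hs p = Lam2 β A z0 s p := rfl

theorem Lam2_eq_left (hβ : IsTower β) (A : Fin n → Fin r → ℝ) (z0 : Fin r → ℝ) {s : ℝ}
    (hs : 0 < s) (p : MvPolynomial (Fin r) ℂ) :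
    Lam2 β A z0 s p = ∫ w, W w * (∫ t, ((Real.exp (-s * t) : ℝ) : ℂ) *
      Hf β p (pt A ∅ z0 w + t • fun _ => -1) ∂P0) ∂(mu n) := by
  unfold Lam2
  rw [integral_prod _ (Lam2_integrable hβ A z0 hs p)]
  refine integral_congr_ae (Eventually.of_forall (fun w => ?_))
  simp only [mul_assoc]
  rw [integral_const_mul]
  have : ∀ t : ℝ, pt A ∅ (z0 + t • fun _ => (-1 : ℝ)) w = pt A ∅ z0 w + t • fun _ => -1 :=
    fun t => by unfold pt; abel
  simp only [this]

theorem Lam2_eq_right (hβ : IsTower β) (A : Fin n → Fin r → ℝ) (z0 : Fin r → ℝ) {s : ℝ}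
    (hs : 0 < s) (p : MvPolynomial (Fin r) ℂ) :
    Lam2 β A z0 s p =
      ∫ t, ((Real.exp (-s * t) : ℝ) : ℂ) * Psi2 β A ∅ p (z0 + t • fun _ => -1) ∂P0 := by
  unfold Lam2 Psi2
  rw [integral_prod_symm _ (Lam2_integrable hβ A z0 hs p)]
  refine integral_congr_ae (Eventually.of_forall (fun t => ?_))
  simp only
  rw [← integral_const_mul]
  exact integral_congr_ae (Eventually.of_forall (fun x => by ring))

theorem Lam2_step (hβ : IsTower β) (A : Fin n → Fin r → ℝ) (z0 : Fin r → ℝ) {s : ℝ} (hs : 0 < s)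
    (p : MvPolynomial (Fin r) ℂ) :
    Lam2 β A z0 s ((∑ j, X j) * p) = s * Lam2 β A z0 s p - Psi2 β A ∅ p z0 := by
  have h1 : Lam2 β A z0 s
      ((C (s : ℂ) + ∑ j, C (((fun _ => -1 : Fin r → ℝ) j : ℝ) : ℂ) * X j) * p) =
      Psi2 β A ∅ p z0 := by
    rw [Lam2_eq_left hβ A z0 hs]
    simp only [Hf_average hβ p _ (fun _ => -1) hs]
    rfl
  have h2 : (C (s : ℂ) + ∑ j, C (((fun _ => -1 : Fin r → ℝ) j : ℝ) : ℂ) * X j) * p =
      (s : ℂ) • p - (∑ j, X j) * p := by
    simp only [Complex.ofReal_neg, Complex.ofReal_one, map_neg, map_one, neg_mul, one_mul,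
      Finset.sum_neg_distrib, smul_eq_C_mul]
    ring
  rw [h2, ← LamL2_apply hβ A z0 hs, map_sub, map_smul, LamL2_apply, LamL2_apply,
    smul_eq_mul] at h1
  linear_combination -h1

theorem Lam2_pow (hβ : IsTower β) (A : Fin n → Fin r → ℝ) (z0 : Fin r → ℝ)
    (p : MvPolynomial (Fin r) ℂ) (k : ℕ) :
    ∃ R : Polynomial ℂ, R.degree < k ∧ ∀ s : ℝ, 0 < s →
      Lam2 β A z0 s ((∑ j, X j) ^ k * p) = (s : ℂ) ^ k * Lam2 β A z0 s p - R.eval (s : ℂ) := by
  induction k with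
  | zero => exact ⟨0, by simp, fun s _ => by simp⟩
  | succ k ih =>
    obtain ⟨R, hR, h⟩ := ih
    refine ⟨R * Polynomial.X + Polynomial.C (Psi2 β A ∅ ((∑ j, X j) ^ k * p) z0), ?_,
      fun s hs => ?_⟩
    · refine (Polynomial.degree_add_le _ _).trans_lt (max_lt ?_ ?_)
      · rw [Polynomial.degree_mul_X]
        push_cast
        exact WithBot.add_lt_add_right (by simp) hR
      · exact Polynomial.degree_C_le.trans_lt (by exact_mod_cast Nat.succ_pos k)
    · rw [pow_succ', mul_assoc, Lam2_step hβ A z0 hs, h s hs]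
      simp only [Polynomial.eval_add, Polynomial.eval_mul, Polynomial.eval_X, Polynomial.eval_C]
      ring

theorem Lam2_poly {b : ℕ → ℝ → ℝ} (hb : IsStep ε δ b) (hδ : 0 ≤ δ) (a : Fin r → Fin n →₀ ℕ)
    {K : ℕ} (hK : 1 ≤ K) (B : Polynomial ℂ)
    (hstar : Polynomial.aeval (∑ j, X j : MvPolynomial (Fin r) ℂ) B * ∏ j, Del1 K j ∈ nIdeal a K)
    (z0 : Fin r → ℝ) (hz : ∀ d : Fin r → ℤ, ∑ j, d j = 1 → (∀ j, |d j| ≤ K) →
        ∑ j, (d j : ℝ) * z0 j < ε - δ * ∑ j, |(d j : ℝ)|) :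
    ∃ R : Polynomial ℂ, R.degree < (B.natDegree + 2 : ℕ) ∧ ∀ s : ℝ, 0 < s →
      B.eval (s : ℂ) * (∑ j, Lam2 (fun _ => b) (Amat a) z0 s (∏ l ∈ {j}, X l) +
        s * ∑ T ∈ Finset.univ.erase ∅, (vol a T : ℂ) ^ 2 *
          Lam2 (fun _ => b) (Amat a) z0 s (∏ l ∈ T, X l)) = R.eval (s : ℂ) := by
  have hβ : IsTower (fun _ : Fin r => b) := ⟨fun _ => hb.deriv, fun _ => hb.bdd⟩
  choose R hR hRe using Lam2_pow hβ (Amat a) z0 (Pop a)
  refine ⟨(∑ k ∈ Finset.range (B.natDegree + 1), B.coeff k • R k) * Polynomial.X -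
    Psi2 (fun _ => b) (Amat a) ∅ 1 z0 • B, ?_, fun s hs => ?_⟩
  · refine (Polynomial.degree_sub_le _ _).trans_lt (max_lt ?_ ?_)
    · rw [Polynomial.degree_mul_X]
      have : (∑ k ∈ Finset.range (B.natDegree + 1), B.coeff k • R k).degree <
          (B.natDegree + 1 : ℕ) := by
        refine (Polynomial.degree_sum_le _ _).trans_lt ?_
        rw [Finset.sup_lt_iff (WithBot.bot_lt_coe _)]
        intro k hk
        refine (Polynomial.degree_smul_le _ _).trans_lt ((hR k).trans ?_)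
        exact_mod_cast Finset.mem_range.mp hk
      rw [show ((B.natDegree + 2 : ℕ) : WithBot ℕ) = (B.natDegree + 1 : ℕ) + 1 by push_cast; rfl]
      exact WithBot.add_lt_add_right (by simp) this
    · refine (Polynomial.degree_smul_le _ _).trans_lt (Polynomial.degree_le_natDegree.trans_lt ?_)
      exact_mod_cast (by omega : B.natDegree < B.natDegree + 2)
  · have h0 : LamL2 hβ (Amat a) z0 hs
        (Polynomial.aeval (∑ j, X j : MvPolynomial (Fin r) ℂ) B * Pop a) = 0 := by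
      obtain ⟨c, hc, e⟩ := Pop_expand a
      rw [e, Finset.mul_sum, map_sum]
      refine Finset.sum_eq_zero (fun S _ => ?_)
      rw [mul_left_comm, ← smul_eq_C_mul, map_smul, smul_eq_mul]
      by_cases hS : Closed a Sᶜ
      · rw [LamL2_apply, Lam2_eq_right hβ _ _ hs, integral_eq_zero_of_ae, mul_zero]
        filter_upwards [ae_restrict_mem measurableSet_Ioi] with t ht
        rw [global_vanish hb hδ a hK _ hstar hS, mul_zero, Pi.zero_apply]
        intro d hd hdK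
        have h1 : ∑ j, (d j : ℝ) = 1 := by exact_mod_cast hd
        have h2 : ∑ j, (d j : ℝ) * (z0 + t • (fun _ => -1 : Fin r → ℝ)) j =
            ∑ j, (d j : ℝ) * z0 j - t := by
          simp only [Pi.add_apply, Pi.smul_apply, smul_eq_mul, mul_add, Finset.sum_add_distrib,
            ← Finset.sum_mul, h1]
          ring
        rw [h2]
        linarith [hz d hd hdK, mem_Ioi.mp ht]
      · rw [hc S hS, zero_mul]
    rw [Polynomial.aeval_eq_sum_range, Finset.sum_mul, map_sum] at h0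
    have h1 : ∀ k ∈ Finset.range (B.natDegree + 1),
        LamL2 hβ (Amat a) z0 hs (B.coeff k • (∑ j, X j : MvPolynomial (Fin r) ℂ) ^ k * Pop a) =
        B.coeff k * (s : ℂ) ^ k * Lam2 (fun _ => b) (Amat a) z0 s (Pop a) -
          B.coeff k * (R k).eval (s : ℂ) := by
      intro k _
      rw [smul_mul_assoc, map_smul, LamL2_apply, hRe k s hs, smul_eq_mul]
      ring
    rw [Finset.sum_congr rfl h1, Finset.sum_sub_distrib, ← Finset.sum_mul,
      ← Polynomial.eval_eq_sum_range, sub_eq_zero] at h0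
    have h2 : Lam2 (fun _ => b) (Amat a) z0 s (Pop a) = Lam2 (fun _ => b) (Amat a) z0 s 1 +
        ∑ T ∈ Finset.univ.erase ∅, (vol a T : ℂ) ^ 2 *
          Lam2 (fun _ => b) (Amat a) z0 s (∏ l ∈ T, X l) := by
      rw [← LamL2_apply hβ _ _ hs, Pop, map_sum,
        ← Finset.add_sum_erase _ _ (Finset.mem_univ ∅)]
      simp only [← smul_eq_C_mul, map_smul, smul_eq_mul, LamL2_apply, vol_empty]
      simp
    have h3 := Lam2_step hβ (Amat a) z0 hs 1
    rw [mul_one, ← LamL2_apply hβ _ _ hs, map_sum] at h3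
    simp only [LamL2_apply] at h3
    simp only [Finset.prod_singleton, h3, Polynomial.eval_sub, Polynomial.eval_mul,
      Polynomial.eval_X, Polynomial.eval_finsetSum, Polynomial.eval_smul, smul_eq_mul, ← h0, h2]
    ring

end Pool.Agent.MP_ee8c61_ag.H48
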