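import Mathlib
import Pool.Agent.MP_ee8c61_ag.H48.Poly

namespace Pool.Agent.MP_ee8c61_ag.H48

open MeasureTheory Set Filter Topology Matrix

variable {n r : ℕ}

noncomputable def scale (b : ℕ → ℝ → ℝ) (ε δ : ℝ) : ℕ → ℝ → ℝ :=
  fun m y => δ⁻¹ ^ m * b m ((y - ε) / δ)

theorem isStep_scale {b : ℕ → ℝ → ℝ} (hb : IsStep 0 1 b) (ε : ℝ) {δ : ℝ} (hδ : 0 < δ) :
    IsStep ε δ (scale b ε δ) where
  deriv k x := by
    have h : HasDerivAt (fun y => (y - ε) / δ) δ⁻¹ x := by
      simpa using ((hasDerivAt_id x).sub_const ε).div_const δ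
    refine (((hb.deriv k _).comp x h).const_mul (δ⁻¹ ^ k)).congr_deriv ?_
    simp only [scale]
    ring
  bdd k := by
    obtain ⟨C, hC⟩ := hb.bdd k
    exact ⟨|δ⁻¹ ^ k| * C, fun x => by
      rw [scale, abs_mul]; exact mul_le_mul_of_nonneg_left (hC _) (abs_nonneg _)⟩
  left k x hx := by
    rw [scale, hb.left k _ (div_neg_of_neg_of_pos (by linarith) hδ), mul_zero]
  right k x hx := by
    rw [scale, hb.right k _ (by rw [zero_add, one_lt_div hδ]; linarith), mul_zero]
  nonneg x := by simpa [scale] using hb.nonneg _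
  le_one x := by simpa [scale] using hb.le_one _
  one x hx := by
    rw [scale, hb.one _ (by rw [zero_add, one_le_div hδ]; linarith)]
    simp

theorem step_continuous {b : ℕ → ℝ → ℝ} {ε δ : ℝ} (hb : IsStep ε δ b) (m : ℕ) :
    Continuous (b m) := continuous_iff_continuousAt.mpr (fun x => (hb.deriv m x).continuousAt)

theorem bump_integrable {b : ℕ → ℝ → ℝ} (hb : IsStep 0 1 b) : Integrable (b 1) := by
  refine (step_continuous hb 1).integrable_of_hasCompactSupport
    (HasCompactSupport.intro (isCompact_Icc (a := 0) (b := 1)) (fun x hx => ?_))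
  rw [mem_Icc, not_and_or, not_le, not_le] at hx
  rcases hx with h | h
  exacts [hb.left 1 x h, hb.right 0 x (by simpa using h)]

theorem bump_integral {b : ℕ → ℝ → ℝ} (hb : IsStep 0 1 b) : ∫ x, b 1 x = 1 := by
  rw [integral_of_hasDerivAt_of_tendsto (hb.deriv 0) (bump_integrable hb) (m := 0) (n := 1),
    sub_zero]
  · refine tendsto_const_nhds.congr' ?_
    filter_upwards [eventually_lt_atBot 0] with x hx using (hb.left 0 x hx).symm
  · refine tendsto_const_nhds.congr' ?_
    filter_upwards [eventually_ge_atTop 1] with x hx using (hb.one x (by simpa using hx)).symm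

/-- the linear forms `⟨w, a_j⟩ - θ` -/
def Yz (a : Fin r → Fin n →₀ ℕ) : Matrix (Fin r) (Fin (n + 1)) ℤ :=
  fun j => Fin.cons (-1) (fun i => a j i)

noncomputable def Yr (a : Fin r → Fin n →₀ ℕ) : Matrix (Fin r) (Fin (n + 1)) ℝ :=
  (Yz a).map (fun x => (x : ℝ))

theorem Yr_mulVec (a : Fin r → Fin n →₀ ℕ) (x : Fin (n + 1) → ℝ) (j : Fin r) :
    (Yr a *ᵥ x) j = ∑ i, x i.succ * a j i - x 0 := by
  simp only [Yr, Yz, mulVec, dotProduct, map_apply, Fin.sum_univ_succ, Fin.cons_zero,
    Fin.cons_succ]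
  push_cast
  rw [Finset.sum_congr rfl (fun i _ => mul_comm _ _)]
  ring

noncomputable def rate (n : ℕ) (s : ℝ) : Fin (n + 1) → ℝ := Fin.cons s (fun _ => 1)

noncomputable def Fint (a : Fin r → Fin n →₀ ℕ) (T : Finset (Fin r)) (b : ℕ → ℝ → ℝ)
    (z0 : Fin r → ℝ) (s : ℝ) (x : Fin (n + 1) → ℝ) : ℝ := by
  classical
  exact (if ∀ l, 0 < x l then Real.exp (-(rate n s ⬝ᵥ x)) else 0) *
    ∏ j, if j ∈ T then -b 1 (z0 j + (Yr a *ᵥ x) j) else b 0 (z0 j + (Yr a *ᵥ x) j)

theorem Lam2_eq_Fint (a : Fin r → Fin n →₀ ℕ) (T : Finset (Fin r)) (b : ℕ → ℝ → ℝ)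
    (z0 : Fin r → ℝ) (s : ℝ) :
    Lam2 (fun _ => b) (Amat a) z0 s (∏ l ∈ T, MvPolynomial.X l) =
      ((∫ x, Fint a T b z0 s x : ℝ) : ℂ) := by
  classical
  have hmp := (Measure.measurePreserving_swap (μ := P0) (ν := mu n)).comp
    (measurePreserving_piFinSuccAbove (fun _ : Fin (n + 1) => P0) 0)
  have hmp' : MeasurePreserving ((MeasurableEquiv.piFinSuccAbove (fun _ : Fin (n + 1) => ℝ) 0).trans
    MeasurableEquiv.prodComm) (mu (n + 1)) ((mu n).prod P0) := hmp
  rw [Lam2, ← hmp'.integral_comp', mu_eq, ← integral_complex_ofReal,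
    ← integral_indicator (MeasurableSet.univ_pi (fun _ => measurableSet_Ioi))]
  refine integral_congr_ae (Eventually.of_forall (fun x => ?_))
  simp only [Fint, indicator, Set.mem_pi, mem_univ, forall_true_left, mem_Ioi]
  split_ifs with hx
  · have h1 := Hf_factor (fun _ => b) T (fun _ => 0) 1
    simp only [Complex.ofReal_zero, map_zero, add_zero, mul_one] at h1
    have h2 : (1 : MvPolynomial (Fin r) ℂ) = MvPolynomial.monomial 0 1 := rfl
    rw [h1, h2, Hf_monomial, one_mul, W, ← Complex.ofReal_prod, ← Complex.ofReal_mul,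
      ← Complex.ofReal_mul, ← Real.exp_sum, ← Real.exp_add]
    congr 2
    · simp [rate, dotProduct, Fin.sum_univ_succ, MeasurableEquiv.prodComm, Fin.tail]
    · refine Finset.prod_congr rfl (fun j _ => ?_)
      have : pt (Amat a) ∅ (z0 + x 0 • fun _ => -1) (fun i => x i.succ) j =
          z0 j + (Yr a *ᵥ x) j := by
        rw [pt_apply, Yr_mulVec]
        simp
        ring
      simp only [Dfam, ← this]
      split_ifs <;> simp [MeasurableEquiv.prodComm] <;> rfl
  · simp

theorem integral_affine {m : ℕ} (M : Matrix (Fin m) (Fin m) ℝ) (hM : M.det ≠ 0) (p : Fin m → ℝ)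
    (f : (Fin m → ℝ) → ℝ) : ∫ x, f x = ∫ x, |M.det| * f (M *ᵥ x + p) := by
  rw [← integral_add_right_eq_self f p]
  let L : (Fin m → ℝ) →L[ℝ] (Fin m → ℝ) := LinearMap.toContinuousLinearMap (Matrix.toLin' M)
  have hu : IsUnit M := (Matrix.isUnit_iff_isUnit_det M).mpr (Ne.isUnit hM)
  have h := integral_image_eq_integral_abs_det_fderiv_smul volume MeasurableSet.univ
    (fun x _ => L.hasFDerivAt.hasFDerivWithinAt) (f := L)
    (mulVec_injective_iff_isUnit.mpr hu).injOn (fun x => f (x + p))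
  rw [image_univ, show range L = univ from (mulVec_surjective_iff_isUnit.mpr hu).range_eq,
    Measure.restrict_univ] at h
  rw [h]
  simp only [L, ContinuousLinearMap.det, LinearMap.coe_toContinuousLinearMap, LinearMap.det_toLin',
    smul_eq_mul]
  rfl

theorem integrable_exp_abs {c : ℝ} (hc : 0 < c) : Integrable (fun t : ℝ => Real.exp (-c * |t|)) := by
  rw [← integrableOn_univ, ← Iic_union_Ioi (a := (0 : ℝ))]
  refine IntegrableOn.union ?_ ?_
  · refine (integrableOn_exp_mul_Iic hc 0).congr_fun (fun t ht => ?_) measurableSet_Iic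
    simp only
    rw [abs_of_nonpos ht]
    ring_nf
  · refine (integrableOn_exp_mul_Ioi (neg_neg_iff_pos.mpr hc) 0).congr_fun (fun t ht => ?_)
      measurableSet_Ioi
    simp only
    rw [abs_of_pos ht]

/-- the open face -/
def Cface (a : Fin r → Fin n →₀ ℕ) (T : Finset (Fin r)) (x : Fin (n + 1) → ℝ) : Prop :=
  0 < x 0 ∧ (∀ i : Fin n, 0 ≤ x i.succ) ∧ ∀ j ∉ T, 0 < (Yr a *ᵥ x) j

noncomputable def YT (a : Fin r → Fin n →₀ ℕ) (T : Finset (Fin r)) :
    Matrix T (Fin (n + 1)) ℝ := fun j => Yr a j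

open Classical in
noncomputable def Glim (a : Fin r → Fin n →₀ ℕ) (T : Finset (Fin r))
    (R : Matrix (Fin (n + 1)) T ℝ) (b : ℕ → ℝ → ℝ) (s : ℝ) (x : Fin (n + 1) → ℝ) : ℝ :=
  (if Cface a T ((1 - R * YT a T) *ᵥ x) then Real.exp (-(rate n s ⬝ᵥ ((1 - R * YT a T) *ᵥ x)))
    else 0) * ∏ j ∈ T, b 1 ((Yr a *ᵥ x) j)

theorem delta_limit (a : Fin r → Fin n →₀ ℕ) (T : Finset (Fin r)) (R : Matrix (Fin (n + 1)) T ℝ)
    (hR : YT a T * R = 1) (hne : ∀ j ∉ T, ∃ x, (Yr a *ᵥ ((1 - R * YT a T) *ᵥ x)) j ≠ 0)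
    {b : ℕ → ℝ → ℝ} (hb : IsStep 0 1 b) (ε η δ : ℕ → ℝ) (hε : ∀ k, 0 < ε k ∧ ε k ≤ 1)
    (hη : ∀ k, 0 < η k ∧ η k ≤ 1) (hδ : ∀ k, 0 < δ k ∧ δ k ≤ 1) (lε : Tendsto ε atTop (𝓝 0))
    (lη : Tendsto η atTop (𝓝 0)) (lδ : Tendsto δ atTop (𝓝 0))
    (l1 : Tendsto (fun k => δ k / ε k) atTop (𝓝 0)) (l2 : Tendsto (fun k => δ k / η k) atTop (𝓝 0))
    {s : ℝ} (hs : 0 < s) :
    Tendsto (fun k => ∫ x, Fint a T (scale b (ε k) (δ k)) (fun j => -(η k * ∑ i, (a j i : ℝ))) s x)
      atTop (𝓝 ((-1) ^ T.card * ∫ x, Glim a T R b s x)) := by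
  classical
  set P := 1 - R * YT a T with hP
  let p : ℕ → Fin (n + 1) → ℝ := fun k => Fin.cons (-ε k) (fun _ => η k)
  let v : ℕ → (Fin (n + 1) → ℝ) → Fin (n + 1) → ℝ :=
    fun k x => P *ᵥ x + δ k • ((R * YT a T) *ᵥ x) + p k
  let G : ℕ → (Fin (n + 1) → ℝ) → ℝ := fun k x =>
    (((if ∀ l, 0 < v k x l then 1 else 0) *
      ∏ j ∈ Tᶜ, b 0 ((Yr a *ᵥ (P *ᵥ x)) j / δ k + (Yr a *ᵥ ((R * YT a T) *ᵥ x)) j)) *
      Real.exp (-(rate n s ⬝ᵥ v k x))) * ∏ j ∈ T, -b 1 ((Yr a *ᵥ x) j)
  have hYR : ∀ x, ∀ j ∈ T, (Yr a *ᵥ ((R * YT a T) *ᵥ x)) j = (Yr a *ᵥ x) j := by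
    intro x j hj
    have : YT a T *ᵥ ((R * YT a T) *ᵥ x) = YT a T *ᵥ x := by
      rw [mulVec_mulVec, ← Matrix.mul_assoc, hR, Matrix.one_mul]
    exact congrFun this ⟨j, hj⟩
  have hYP : ∀ x, ∀ j ∈ T, (Yr a *ᵥ (P *ᵥ x)) j = 0 := by
    intro x j hj
    rw [hP, sub_mulVec, one_mulVec, mulVec_sub, Pi.sub_apply, hYR x j hj, sub_self]
  have step1 : ∀ k, ∫ x, Fint a T (scale b (ε k) (δ k)) (fun j => -(η k * ∑ i, (a j i : ℝ))) s x =
      ∫ x, G k x := by
    intro k
    have hd : (1 + ((δ k - 1) • R) * YT a T).det = δ k ^ T.card := by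
      rw [det_one_add_mul_comm, Matrix.mul_smul, hR, ← one_smul ℝ (1 : Matrix T T ℝ), smul_smul,
        ← add_smul, det_smul]
      simp
    rw [integral_affine _ (by rw [hd]; exact (pow_pos (hδ k).1 _).ne') (p k)]
    refine integral_congr_ae (Eventually.of_forall (fun x => ?_))
    have e : (1 + ((δ k - 1) • R) * YT a T) *ᵥ x + p k = v k x := by
      rw [Matrix.smul_mul]
      simp only [v, hP, add_mulVec, sub_mulVec, one_mulVec, smul_mulVec]
      module
    have e2 : ∀ j, (-(η k * ∑ i, (a j i : ℝ)) + (Yr a *ᵥ v k x) j - ε k) / δ k =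
        (Yr a *ᵥ (P *ᵥ x)) j / δ k + (Yr a *ᵥ ((R * YT a T) *ᵥ x)) j := by
      intro j
      have := (hδ k).1.ne'
      simp only [v, mulVec_add, mulVec_smul, Pi.add_apply, Pi.smul_apply, smul_eq_mul,
        Yr_mulVec a (p k), p, Fin.cons_zero, Fin.cons_succ, ← Finset.mul_sum]
      field_simp
      ring
    simp only [hd, e, Fint, G, scale, e2]
    rw [Finset.prod_ite, Finset.filter_mem_eq_inter, Finset.univ_inter,
      Finset.filter_notMem_eq_sdiff, ← Finset.compl_eq_univ_sdiff, abs_of_pos (pow_pos (hδ k).1 _),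
      Finset.prod_congr rfl (g := fun j => (δ k)⁻¹ * -b 1 ((Yr a *ᵥ x) j)) (fun j hj => by
        rw [hYP x j hj, hYR x j hj]; simp), Finset.prod_mul_distrib, Finset.prod_const]
    have := (pow_pos (hδ k).1 T.card).ne'
    split_ifs
    · simp only [pow_zero, one_mul, inv_pow]
      field_simp
    · simp
  simp only [step1]
  rw [← integral_const_mul]
  obtain ⟨C, hC⟩ := hb.bdd 1
  set c := min s 1 with hc
  have hc0 : 0 < c := lt_min hs one_pos
  have hb0 := step_continuous hb 0
  have hb1 := step_continuous hb 1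
  refine tendsto_integral_of_dominated_convergence
    (fun x => (∏ l, Real.exp (c * (∑ j, |R l j| + 1)) * Real.exp (-c * |x l|)) * C ^ T.card)
    (fun k => Measurable.aestronglyMeasurable ?_)
    ((Integrable.fintype_prod (f := fun l t => Real.exp (c * (∑ j, |R l j| + 1)) *
      Real.exp (-c * |t|)) (fun l => (integrable_exp_abs hc0).const_mul _)).mul_const _)
    (fun k => Eventually.of_forall (fun x => ?_)) ?_
  · have hv : Continuous (v k) := by fun_prop
    refine ((Measurable.ite ?_ measurable_const measurable_const).mul ?_).mul ?_ |>.mul ?_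
    · rw [Set.ofPred_forall]
      exact MeasurableSet.iInter (fun l => measurableSet_lt measurable_const
        ((continuous_apply l).comp hv).measurable)
    · exact (continuous_finsetProd _ (fun j _ => hb0.comp (by fun_prop))).measurable
    · exact Continuous.measurable (by fun_prop)
    · exact (continuous_finsetProd _ (fun j _ => (hb1.comp (by fun_prop)).neg)).measurable
  · have hC0 : 0 ≤ C := (abs_nonneg _).trans (hC 0)
    by_cases h0 : G k x = 0
    · rw [h0, norm_zero]; positivity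
    simp only [G, mul_eq_zero, not_or, ite_eq_right_iff, one_ne_zero, imp_false, not_not,
      Finset.prod_eq_zero_iff, neg_eq_zero, not_exists, not_and] at h0
    obtain ⟨⟨⟨hpos, _⟩, _⟩, hsupp⟩ := h0
    simp only [G, if_pos hpos, one_mul, norm_mul, Real.norm_eq_abs, Finset.abs_prod]
    refine mul_le_mul ?_ ?_ (by positivity) (by positivity)
    · refine (mul_le_of_le_one_left (abs_nonneg _) (Finset.prod_le_one (fun _ _ => abs_nonneg _)
        (fun j _ => by rw [abs_of_nonneg (hb.nonneg _)]; exact hb.le_one _))).trans ?_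
      rw [abs_of_pos (Real.exp_pos _), dotProduct, ← Finset.sum_neg_distrib, Real.exp_sum]
      refine Finset.prod_le_prod (fun _ _ => (Real.exp_pos _).le) (fun l _ => ?_)
      rw [← Real.exp_add, Real.exp_le_exp]
      have h1 : c ≤ rate n s l := by
        refine Fin.cases ?_ (fun i => ?_) l
        exacts [min_le_left _ _, min_le_right _ _]
      have h2 : |((R * YT a T) *ᵥ x) l| ≤ ∑ j, |R l j| := by
        rw [← mulVec_mulVec]
        refine (Finset.abs_sum_le_sum_abs _ _).trans (Finset.sum_le_sum (fun j _ => ?_))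
        rw [abs_mul]
        refine mul_le_of_le_one_right (abs_nonneg _) ?_
        have h3 := hsupp j j.2
        have h4 : 0 ≤ (Yr a *ᵥ x) j := not_lt.mp (fun h => h3 (hb.left 1 _ h))
        have h5 : (Yr a *ᵥ x) j ≤ 0 + 1 := not_lt.mp (fun h => h3 (hb.right 0 _ h))
        exact abs_le.mpr ⟨by change -1 ≤ (Yr a *ᵥ x) j; linarith,
          by change (Yr a *ᵥ x) j ≤ 1; linarith⟩
      have h3 : |p k l| ≤ 1 := by
        refine Fin.cases ?_ (fun i => ?_) l
        · simpa [p, abs_of_pos (hε k).1] using (hε k).2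
        · simpa [p, abs_of_pos (hη k).1] using (hη k).2
      have h4 : x l = v k x l + (1 - δ k) * ((R * YT a T) *ᵥ x) l - p k l := by
        simp only [v, hP, sub_mulVec, one_mulVec, Pi.add_apply, Pi.sub_apply, Pi.smul_apply,
          smul_eq_mul]
        ring
      have h5 : |x l| ≤ v k x l + ∑ j, |R l j| + 1 := by
        rw [h4]
        refine (abs_sub _ _).trans (add_le_add ((abs_add_le _ _).trans (add_le_add
          (abs_of_pos (hpos l)).le ?_)) h3)
        rw [abs_mul, abs_of_nonneg (by linarith [(hδ k).2])]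
        nlinarith [(hδ k).1, abs_nonneg (((R * YT a T) *ᵥ x) l)]
      nlinarith [hpos l]
    · rw [← Finset.prod_const]
      exact Finset.prod_le_prod (fun _ _ => abs_nonneg _) (fun j _ => by rw [abs_neg]; exact hC _)
  · have hae : ∀ᵐ x : Fin (n + 1) → ℝ, ∀ j, j ∉ T → (Yr a *ᵥ (P *ᵥ x)) j ≠ 0 := by
      refine ae_all_iff.mpr (fun j => ?_)
      by_cases hj : j ∈ T
      · exact Eventually.of_forall (fun x h => absurd hj h)
      · let L : (Fin (n + 1) → ℝ) →ₗ[ℝ] ℝ :=
          (LinearMap.proj j).comp ((Yr a).mulVecLin.comp P.mulVecLin)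
        have := Measure.addHaar_submodule volume (LinearMap.ker L) (fun h => by
          obtain ⟨x, hx⟩ := hne j hj
          exact hx (show x ∈ LinearMap.ker L from h ▸ Submodule.mem_top))
        filter_upwards [compl_mem_ae_iff.mpr this] with x hx _ using hx
    filter_upwards [hae] with x hx
    have hv : Tendsto (fun k => v k x) atTop (𝓝 (P *ᵥ x)) := by
      have hp : Tendsto p atTop (𝓝 0) := by
        refine tendsto_pi_nhds.mpr (fun l => Fin.cases ?_ (fun i => ?_) l)
        · simpa [p] using lε.neg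
        · simpa [p] using lη
      simpa using (tendsto_const_nhds.add (lδ.smul_const ((R * YT a T) *ᵥ x))).add hp
    have hvl := fun l => tendsto_pi_nhds.mp hv l
    have linv : Tendsto (fun k => (δ k)⁻¹) atTop atTop := tendsto_inv_nhdsGT_zero.comp
      (tendsto_nhdsWithin_iff.mpr ⟨lδ, Eventually.of_forall (fun k => (hδ k).1)⟩)
    have hind : ∀ᶠ k in atTop, (if ∀ l, 0 < v k x l then 1 else 0) *
        ∏ j ∈ Tᶜ, b 0 ((Yr a *ᵥ (P *ᵥ x)) j / δ k + (Yr a *ᵥ ((R * YT a T) *ᵥ x)) j) =
        if Cface a T (P *ᵥ x) then (1 : ℝ) else 0 := by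
      split_ifs with hC
      · have g1 : ∀ᶠ k in atTop, ∀ l, 0 < v k x l := by
          refine eventually_all.mpr (fun l => Fin.cases ?_ (fun i => ?_) l)
          · exact (hvl 0).eventually (Ioi_mem_nhds hC.1)
          · have := (l2.mul_const (((R * YT a T) *ᵥ x) i.succ)).eventually
              (Ioi_mem_nhds (by simp : (-1 : ℝ) < 0 * _))
            filter_upwards [this] with k hk
            have e : v k x i.succ = (P *ᵥ x) i.succ +
                η k * (δ k / η k * ((R * YT a T) *ᵥ x) i.succ + 1) := by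
              have := (hη k).1.ne'
              simp only [v, p, Pi.add_apply, Pi.smul_apply, smul_eq_mul, Fin.cons_succ]
              field_simp
              ring
            rw [e]
            have := hC.2.1 i
            have := mul_pos (hη k).1 (by linarith : 0 < δ k / η k *
              ((R * YT a T) *ᵥ x) i.succ + 1)
            linarith
        have g2 : ∀ᶠ k in atTop, ∀ j ∈ Tᶜ,
            1 ≤ (Yr a *ᵥ (P *ᵥ x)) j / δ k + (Yr a *ᵥ ((R * YT a T) *ᵥ x)) j := by
          refine (eventually_all_finset _).mpr (fun j hj => ?_)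
          exact (tendsto_atTop_add_const_right _ _ (linv.const_mul_atTop
            (hC.2.2 j (Finset.mem_compl.mp hj)))).eventually_ge_atTop 1
        filter_upwards [g1, g2] with k h1 h2
        rw [if_pos h1, Finset.prod_eq_one (fun j hj => hb.one _ (by simpa using h2 j hj)), one_mul]
      · simp only [Cface, not_and_or, not_forall, not_lt, not_le] at hC
        rcases hC with h | ⟨i, h⟩ | ⟨j, hj, h⟩
        · have := (l1.mul_const (((R * YT a T) *ᵥ x) 0)).eventually
            (Iio_mem_nhds (by simp : 0 * _ < (1 : ℝ)))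
          filter_upwards [this] with k hk
          have e : v k x 0 = (P *ᵥ x) 0 + ε k * (δ k / ε k * ((R * YT a T) *ᵥ x) 0 - 1) := by
            have := (hε k).1.ne'
            simp only [v, p, Pi.add_apply, Pi.smul_apply, smul_eq_mul, Fin.cons_zero]
            field_simp
            ring
          have := mul_neg_of_pos_of_neg (hε k).1 (by linarith : δ k / ε k *
            ((R * YT a T) *ᵥ x) 0 - 1 < 0)
          rw [if_neg (fun h' => by linarith [h' 0]), zero_mul]
        · filter_upwards [(hvl i.succ).eventually (Iio_mem_nhds h)] with k hk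
          rw [if_neg (fun h' => by linarith [h' i.succ]), zero_mul]
        · have := (tendsto_atBot_add_const_right _ ((Yr a *ᵥ ((R * YT a T) *ᵥ x)) j)
            (linv.const_mul_atTop_of_neg (lt_of_le_of_ne h (hx j hj)))).eventually_lt_atBot 0
          filter_upwards [this] with k hk
          rw [Finset.prod_eq_zero (Finset.mem_compl.mpr hj) (hb.left 0 _ hk), mul_zero]
    have hexp : Tendsto (fun k => Real.exp (-(rate n s ⬝ᵥ v k x))) atTop
        (𝓝 (Real.exp (-(rate n s ⬝ᵥ (P *ᵥ x))))) :=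
      ((by fun_prop : Continuous fun y : Fin (n + 1) → ℝ =>
        Real.exp (-(rate n s ⬝ᵥ y))).tendsto _).comp hv
    have := ((tendsto_const_nhds.congr' (EventuallyEq.symm hind)).mul hexp).mul_const
      (∏ j ∈ T, -b 1 ((Yr a *ᵥ x) j))
    convert this using 2
    rw [Glim, ← hP, Finset.prod_neg]
    split_ifs <;> ring

end Pool.Agent.MP_ee8c61_ag.H48
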