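import Mathlib
import Pool.Agent.MP_ee8c61_ag.H48.Average

namespace Pool.Agent.MP_ee8c61_ag.H48

open MvPolynomial MeasureTheory Set Filter Topology

variable {n r : ℕ}

theorem poly_limit (d : ℕ) (R : ℕ → Polynomial ℂ) (hR : ∀ k, (R k).degree < d) (f : ℝ → ℂ)
    (hf : ∀ s : ℝ, 0 < s → Tendsto (fun k => (R k).eval (s : ℂ)) atTop (𝓝 (f s))) :
    ∃ Q : Polynomial ℂ, ∀ s : ℝ, 0 < s → f s = Q.eval (s : ℂ) := by
  classical
  let v : ℕ → ℂ := fun i => (((i : ℝ) + 1 : ℝ) : ℂ)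
  have hv : Set.InjOn v (Finset.range d) := by
    intro i _ j _ h
    have : ((i : ℝ) + 1) = (j : ℝ) + 1 := Complex.ofReal_injective h
    exact_mod_cast add_right_cancel this
  refine ⟨Lagrange.interpolate (Finset.range d) v (fun i => f ((i : ℝ) + 1)), fun s hs => ?_⟩
  refine tendsto_nhds_unique (hf s hs) ?_
  have e : ∀ k, (R k).eval (s : ℂ) = ∑ i ∈ Finset.range d,
      (R k).eval (v i) * (Lagrange.basis (Finset.range d) v i).eval (s : ℂ) := by
    intro k
    conv_lhs => rw [Lagrange.eq_interpolate (f := R k) hv (by simpa using hR k)]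
    simp [Lagrange.interpolate_apply, Polynomial.eval_finsetSum]
  simp only [e, Lagrange.interpolate_apply, Polynomial.eval_finsetSum, Polynomial.eval_mul,
    Polynomial.eval_C]
  exact tendsto_finsetSum _ (fun i _ => (hf _ (by positivity)).mul_const _)

theorem mOrd_eq (a : Fin r → Fin n →₀ ℕ) (w : Fin n → ℝ) (j : Fin r) :
    pt (Amat a) ∅ 0 w j = ∑ i, w i * a j i := by
  simp [pt, Amat, Finset.sum_apply]

theorem mOrd_measurable (a : Fin r → Fin n →₀ ℕ) : Measurable (mOrd a) := by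
  unfold mOrd
  exact Measurable.iInf (fun j => by fun_prop)

theorem mOrd_le (a : Fin r → Fin n →₀ ℕ) (w : Fin n → ℝ) (j : Fin r) :
    mOrd a w ≤ ∑ i, w i * a j i :=
  ciInf_le (f := fun j => ∑ i, w i * a j i) (Set.finite_range _).bddBelow j

theorem mOrd_exists (hr : 0 < r) (a : Fin r → Fin n →₀ ℕ) (w : Fin n → ℝ) :
    ∃ j, mOrd a w = ∑ i, w i * a j i := by
  have : Nonempty (Fin r) := ⟨⟨0, hr⟩⟩
  obtain ⟨j, hj⟩ := exists_eq_ciInf_of_finite (f := fun j : Fin r => ∑ i, w i * (a j i : ℝ))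
  exact ⟨j, hj.symm⟩

theorem mOrd_nonneg (hr : 0 < r) (a : Fin r → Fin n →₀ ℕ) (w : Fin n → ℝ) (hw : ∀ i, 0 < w i) :
    0 ≤ mOrd a w := by
  obtain ⟨j, hj⟩ := mOrd_exists hr a w
  rw [hj]
  exact Finset.sum_nonneg (fun i _ => mul_nonneg (hw i).le (Nat.cast_nonneg _))

theorem Hm_one (β : ℕ → ℝ → ℝ) (z : Fin r → ℝ) :
    Hm β 1 z = ((∏ j, β 0 (z j) : ℝ) : ℂ) := by
  have : (1 : MvPolynomial (Fin r) ℂ) = monomial 0 1 := rfl
  rw [this, Hm_monomial]
  simp

noncomputable def Ind (a : Fin r → Fin n →₀ ℕ) (x : (Fin n → ℝ) × ℝ) : ℂ :=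
  if x.2 < mOrd a x.1 then 1 else 0

theorem Ind_measurable (a : Fin r → Fin n →₀ ℕ) : Measurable (Ind a) :=
  Measurable.ite (measurableSet_lt measurable_snd ((mOrd_measurable a).comp measurable_fst))
    measurable_const measurable_const

noncomputable def Llim (a : Fin r → Fin n →₀ ℕ) (s : ℝ) : ℂ :=
  ∫ x : (Fin n → ℝ) × ℝ, (W x.1 * ((Real.exp (-s * x.2) : ℝ) : ℂ)) * Ind a x ∂((mu n).prod P0)

theorem Lam_tendsto (hr : 0 < r) (a : Fin r → Fin n →₀ ℕ) (ε δ : ℕ → ℝ) (β : ℕ → ℕ → ℝ → ℝ)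
    (hβ : ∀ k, IsStep (ε k) (δ k) (β k)) (hε : ∀ k, 0 < ε k)
    (hlim : Tendsto (fun k => ε k + δ k) atTop (𝓝 0)) {s : ℝ} (hs : 0 < s) :
    Tendsto (fun k => Lam (β k) (Amat a) s 1) atTop (𝓝 (Llim a s)) := by
  unfold Lam Llim
  have hint : Integrable (fun x : (Fin n → ℝ) × ℝ => W x.1 * ((Real.exp (-s * x.2) : ℝ) : ℂ))
      ((mu n).prod P0) := W_integrable.mul_prod (exp_neg_integrableOn_Ioi 0 hs).ofReal
  refine tendsto_integral_of_dominated_convergence _
    (fun k => (Lam_integrable (hβ k) (Amat a) hs 1).aestronglyMeasurable) hint.norm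
    (fun k => Eventually.of_forall (fun x => ?_)) (Eventually.of_forall (fun x => ?_))
  · rw [norm_mul, Hm_one, Complex.norm_real, Real.norm_eq_abs,
      abs_of_nonneg (Finset.prod_nonneg (fun j _ => (hβ k).nonneg _))]
    exact mul_le_of_le_one_right (norm_nonneg _)
      (Finset.prod_le_one (fun j _ => (hβ k).nonneg _) (fun j _ => (hβ k).le_one _))
  · refine Tendsto.const_mul _ ?_
    have hp : ∀ j, pt (Amat a) ∅ (x.2 • fun _ => (-1 : ℝ)) x.1 j = ∑ i, x.1 i * a j i - x.2 := by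
      intro j
      rw [pt_shift, Pi.add_apply, mOrd_eq]
      simp [sub_eq_add_neg]
    simp only [Hm_one, hp]
    unfold Ind
    split_ifs with hx
    · refine tendsto_const_nhds.congr' ?_
      filter_upwards [hlim.eventually (Iio_mem_nhds (sub_pos.mpr hx))] with k hk
      rw [Finset.prod_eq_one (fun j _ => (hβ k).one _ (by
        have := mOrd_le a x.1 j
        linarith))]
      simp
    · refine tendsto_const_nhds.congr (fun k => ?_)
      obtain ⟨j, hj⟩ := mOrd_exists hr a x.1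
      rw [Finset.prod_eq_zero (Finset.mem_univ j) ((hβ k).left _ _ (by
        have := hε k
        linarith [not_lt.mp hx]))]
      simp

theorem inner_integral {s m : ℝ} (hs : 0 < s) (hm : 0 ≤ m) :
    ∫ t, ((Real.exp (-s * t) : ℝ) : ℂ) * (if t < m then 1 else 0) ∂P0 =
      (1 - ((Real.exp (-s * m) : ℝ) : ℂ)) / s := by
  have e : (fun t : ℝ => ((Real.exp (-s * t) : ℝ) : ℂ) * (if t < m then 1 else 0)) =
      (Iio m).indicator (fun t => ((Real.exp (-s * t) : ℝ) : ℂ)) := by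
    funext t
    by_cases h : t < m <;> simp [h]
  rw [e, setIntegral_indicator measurableSet_Iio, Ioi_inter_Iio, ← integral_Ioc_eq_integral_Ioo,
    ← intervalIntegral.integral_of_le hm, intervalIntegral.integral_ofReal,
    intervalIntegral.integral_comp_mul_left (fun x => Real.exp x) (by linarith : -s ≠ 0)]
  have : (s : ℂ) ≠ 0 := by exact_mod_cast hs.ne'
  simp only [integral_exp, smul_eq_mul, mul_zero, Real.exp_zero]
  push_cast
  field_simp
  ring

noncomputable def Zint (a : Fin r → Fin n →₀ ℕ) (s : ℝ) : ℂ :=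
  ∫ w, W w * ((Real.exp (-s * mOrd a w) : ℝ) : ℂ) ∂(mu n)

theorem Zint_integrable (hr : 0 < r) (a : Fin r → Fin n →₀ ℕ) {s : ℝ} (hs : 0 < s) :
    Integrable (fun w => W w * ((Real.exp (-s * mOrd a w) : ℝ) : ℂ)) (mu n) := by
  refine W_integrable.mul_bdd (c := 1) ?_ ?_
  · have := mOrd_measurable a
    exact (by fun_prop : Measurable fun w => ((Real.exp (-s * mOrd a w) : ℝ) : ℂ)).aestronglyMeasurable
  · filter_upwards [ae_pos] with w hw
    rw [Complex.norm_real, Real.norm_eq_abs, abs_of_pos (Real.exp_pos _), Real.exp_le_one_iff]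
    have := mOrd_nonneg hr a w hw
    nlinarith

theorem Llim_eq (hr : 0 < r) (a : Fin r → Fin n →₀ ℕ) {s : ℝ} (hs : 0 < s) :
    Llim a s = (1 - Zint a s) / s := by
  unfold Llim Zint
  have hint : Integrable (fun x : (Fin n → ℝ) × ℝ => W x.1 * ((Real.exp (-s * x.2) : ℝ) : ℂ))
      ((mu n).prod P0) := W_integrable.mul_prod (exp_neg_integrableOn_Ioi 0 hs).ofReal
  rw [integral_prod _ (hint.mul_bdd (c := 1) (Ind_measurable a).aestronglyMeasurable
    (Eventually.of_forall (fun x => by unfold Ind; split_ifs <;> simp)))]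
  rw [← W_integral (n := n), ← integral_sub W_integrable (Zint_integrable hr a hs),
    ← integral_div]
  refine integral_congr_ae ?_
  filter_upwards [ae_pos] with w hw
  simp only [mul_assoc]
  rw [integral_const_mul]
  unfold Ind
  simp only
  rw [inner_integral hs (mOrd_nonneg hr a w hw)]
  ring

theorem Zint_poly (hr : 0 < r) (a : Fin r → Fin n →₀ ℕ) (b : Polynomial ℂ)
    (hb : IsBS (fun j => monomial (a j) 1) b) :
    ∃ Q : Polynomial ℂ, ∀ s : ℝ, 0 < s → b.eval (s : ℂ) * Zint a s = Q.eval (s : ℂ) := by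
  obtain ⟨S, h, hS, hid⟩ := bs_identity a b hb
  let N : ℝ := ∑ c ∈ S, ∑ j, |(c j : ℝ)|
  have hN0 : 0 ≤ N := Finset.sum_nonneg (fun _ _ => Finset.sum_nonneg (fun _ _ => abs_nonneg _))
  have hN : ∀ c ∈ S, ∑ j, |(c j : ℝ)| ≤ N := fun c hc =>
    Finset.single_le_sum (f := fun c : Fin r → ℤ => ∑ j, |(c j : ℝ)|)
      (fun _ _ => Finset.sum_nonneg (fun _ _ => abs_nonneg _)) hc
  let ε : ℕ → ℝ := fun k => 1 / ((k : ℝ) + 1)
  let δ : ℕ → ℝ := fun k => ε k / (N + 1)
  have hε : ∀ k, 0 < ε k := fun k => by positivity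
  have hδ : ∀ k, 0 < δ k := fun k => div_pos (hε k) (by linarith)
  choose β hβ using fun k => exists_isStep (ε k) (δ k) (hδ k)
  have hlim : Tendsto (fun k => ε k + δ k) atTop (𝓝 0) := by
    have h1 : Tendsto ε atTop (𝓝 0) := tendsto_one_div_add_atTop_nhds_zero_nat
    simpa using h1.add (h1.div_const (N + 1))
  have hsmall : ∀ k, ∀ c ∈ S, δ k * ∑ j, |(c j : ℝ)| < ε k := by
    intro k c hc
    have h1 : δ k * (N + 1) = ε k := div_mul_cancel₀ _ (by linarith)
    nlinarith [hN c hc, hδ k]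
  choose R hR hRe using fun k => Lam_poly (hβ k) (hδ k).le a b S h hS (hsmall k) hid
  obtain ⟨Q, hQ⟩ := poly_limit _ R hR (fun s => b.eval (s : ℂ) * Llim a s) (fun s hs => by
    simp only [← hRe _ s hs]
    exact (Lam_tendsto hr a ε δ β hβ hε hlim hs).const_mul _)
  refine ⟨b - Polynomial.X * Q, fun s hs => ?_⟩
  have h1 := hQ s hs
  have : (s : ℂ) ≠ 0 := by exact_mod_cast hs.ne'
  simp only [Llim_eq hr a hs] at h1
  simp only [Polynomial.eval_sub, Polynomial.eval_mul, Polynomial.eval_X, ← h1]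
  field_simp
  ring

end Pool.Agent.MP_ee8c61_ag.H48
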