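import Mathlib
import Pool.Agent.MP_ee8c61_ag.H48.Limit

namespace Pool.Agent.MP_ee8c61_ag.H48

open MvPolynomial MeasureTheory Set Filter Topology

variable {n r : ℕ}

noncomputable def Lmap (σ : Matrix (Fin n) (Fin n) ℕ) : (Fin n → ℝ) →L[ℝ] (Fin n → ℝ) :=
  LinearMap.toContinuousLinearMap (Matrix.toLin' (σ.map (fun x => (x : ℝ))).transpose)

theorem Lmap_apply (σ : Matrix (Fin n) (Fin n) ℕ) (t : Fin n → ℝ) (i : Fin n) :
    Lmap σ t i = ∑ k, t k * σ k i := by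
  simp [Lmap, Matrix.mulVec, dotProduct, mul_comm]

theorem Lmap_det (σ : Matrix (Fin n) (Fin n) ℕ) (h : |(σ.map (fun x => (x : ℤ))).det| = 1) :
    |(Lmap σ).det| = 1 := by
  have e : (Lmap σ).det = (((σ.map (fun x => (x : ℤ))).det : ℤ) : ℝ) := by
    rw [Int.cast_det]
    simp only [Lmap, ContinuousLinearMap.det, LinearMap.coe_toContinuousLinearMap,
      LinearMap.det_toLin', Matrix.det_transpose]
    congr 1
  rw [e]
  exact_mod_cast h

theorem Lmap_inj (σ : Matrix (Fin n) (Fin n) ℕ) (h : |(σ.map (fun x => (x : ℤ))).det| = 1) :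
    Function.Injective (Lmap σ) := by
  have h1 : LinearMap.det (Lmap σ : (Fin n → ℝ) →ₗ[ℝ] (Fin n → ℝ)) ≠ 0 := by
    intro h0
    have := Lmap_det σ h
    rw [ContinuousLinearMap.det, h0] at this
    simp at this
  exact (LinearMap.equivOfDetNeZero _ h1).injective

theorem row_pos (σ : Matrix (Fin n) (Fin n) ℕ) (h : |(σ.map (fun x => (x : ℤ))).det| = 1)
    (k : Fin n) : 0 < ∑ i, σ k i := by
  by_contra hk
  have h0 : ∀ i, σ k i = 0 := fun i =>
    Finset.sum_eq_zero_iff.mp (Nat.eq_zero_of_not_pos hk) i (Finset.mem_univ i)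
  rw [Matrix.det_eq_zero_of_row_eq_zero k (fun i => by simp [h0 i])] at h
  simp at h

abbrev Op (n : ℕ) : Set (Fin n → ℝ) := Set.univ.pi fun _ => Ioi (0 : ℝ)

abbrev Cl (n : ℕ) : Set (Fin n → ℝ) := Set.univ.pi fun _ => Ici (0 : ℝ)

theorem Op_measurable : MeasurableSet (Op n) := MeasurableSet.univ_pi (fun _ => measurableSet_Ioi)

theorem Op_ae_Cl : Op n =ᵐ[volume] Cl n := by
  have : (volume : Measure (Fin n → ℝ)) = Measure.pi (fun _ => volume) := rfl
  rw [this]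
  exact Measure.ae_eq_set_pi (fun _ _ => Ioi_ae_eq_Ici)

theorem image_ae (σ : Matrix (Fin n) (Fin n) ℕ) :
    Lmap σ '' Cl n =ᵐ[volume] Lmap σ '' Op n := by
  have hsub : Op n ⊆ Cl n := Set.pi_mono (fun _ _ => Ioi_subset_Ici_self)
  rw [ae_eq_set]
  constructor
  · have hd : Lmap σ '' Cl n \ Lmap σ '' Op n ⊆ Lmap σ '' (Cl n \ Op n) := by
      rintro _ ⟨⟨t, ht, rfl⟩, h⟩
      exact ⟨t, ⟨ht, fun h' => h ⟨t, h', rfl⟩⟩, rfl⟩
    refine measure_mono_null hd ?_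
    rw [Measure.addHaar_image_continuousLinearMap, (ae_eq_set.mp Op_ae_Cl).2, mul_zero]
  · rw [Set.sdiff_eq_empty.mpr (image_mono hsub), measure_empty]

theorem cover_ae {a : Fin r → Fin n →₀ ℕ} {F : Finset (Matrix (Fin n) (Fin n) ℕ)}
    (hF : IsToricRes a F) : Op n =ᵐ[volume] ⋃ σ ∈ F, Lmap σ '' Op n := by
  have e : Cl n = ⋃ σ ∈ F, Lmap σ '' Cl n := by
    ext w
    simp only [mem_iUnion, mem_image, Set.mem_pi, mem_univ, forall_true_left, mem_Ici]
    constructor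
    · intro hw
      obtain ⟨σ, hσ, t, ht, h⟩ := hF.2.2.1 w hw
      exact ⟨σ, hσ, t, ht, funext (fun i => by rw [Lmap_apply, h i])⟩
    · rintro ⟨σ, _, t, ht, rfl⟩ i
      rw [Lmap_apply]
      exact Finset.sum_nonneg (fun k _ => mul_nonneg (ht k) (Nat.cast_nonneg _))
  refine Op_ae_Cl.trans ?_
  rw [e]
  exact Filter.EventuallyEq.countable_bUnion F.countable_toSet (fun σ _ => image_ae σ)

theorem mOrd_cone (hr : 0 < r) (a : Fin r → Fin n →₀ ℕ) (σ : Matrix (Fin n) (Fin n) ℕ)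
    (h : ∃ j, ∀ k, ordAlong a (σ k) = ∑ i, σ k i * a j i) (t : Fin n → ℝ) (ht : ∀ k, 0 < t k) :
    mOrd a (Lmap σ t) = ∑ k, t k * ordAlong a (σ k) := by
  obtain ⟨j0, hj0⟩ := h
  have e : ∀ j, ∑ i, Lmap σ t i * a j i = ∑ k, t k * ((∑ i, σ k i * a j i : ℕ) : ℝ) := by
    intro j
    simp only [Lmap_apply, Finset.sum_mul, Finset.mul_sum, Nat.cast_sum, Nat.cast_mul]
    rw [Finset.sum_comm]
    simp only [mul_assoc]
  apply le_antisymm
  · refine (mOrd_le a _ j0).trans (le_of_eq ?_)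
    simp only [e, hj0]
  · obtain ⟨j, hj⟩ := mOrd_exists hr a (Lmap σ t)
    rw [hj, e]
    refine Finset.sum_le_sum (fun k _ => mul_le_mul_of_nonneg_left ?_ (ht k).le)
    exact_mod_cast (ciInf_le (f := fun j => ∑ i, σ k i * a j i) (OrderBot.bddBelow _) j)

theorem cone_integral (hr : 0 < r) (a : Fin r → Fin n →₀ ℕ) (σ : Matrix (Fin n) (Fin n) ℕ)
    (hd : |(σ.map (fun x => (x : ℤ))).det| = 1)
    (h : ∃ j, ∀ k, ordAlong a (σ k) = ∑ i, σ k i * a j i) {s : ℝ} (hs : 0 < s) :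
    ∫ w in Lmap σ '' Op n, W w * ((Real.exp (-s * mOrd a w) : ℝ) : ℂ) =
      ∏ k, 1 / ((ordAlong a (σ k) : ℂ) * s + ((∑ i, σ k i : ℕ) : ℂ)) := by
  rw [integral_image_eq_integral_abs_det_fderiv_smul volume Op_measurable
    (fun x _ => (Lmap σ).hasFDerivAt.hasFDerivWithinAt) (Lmap_inj σ hd).injOn,
    Lmap_det σ hd, ← mu_eq]
  have e : ∀ᵐ t ∂(mu n), (1 : ℝ) • (W (Lmap σ t) * ((Real.exp (-s * mOrd a (Lmap σ t)) : ℝ) : ℂ)) =
      ∏ k, ((Real.exp (-((ordAlong a (σ k) : ℝ) * s + ((∑ i, σ k i : ℕ) : ℝ)) * t k) : ℝ) : ℂ) := by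
    filter_upwards [ae_pos] with t ht
    rw [one_smul, mOrd_cone hr a σ h t ht, W, ← Complex.ofReal_prod, ← Complex.ofReal_prod,
      ← Complex.ofReal_mul, ← Real.exp_sum, ← Real.exp_sum, ← Real.exp_add]
    congr 2
    simp only [Lmap_apply, Finset.mul_sum, Nat.cast_sum]
    rw [Finset.sum_comm, ← Finset.sum_add_distrib]
    refine Finset.sum_congr rfl (fun k _ => ?_)
    simp only [neg_add, add_mul, neg_mul, Finset.sum_mul, one_mul, Finset.sum_neg_distrib]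
    rw [add_comm]
    congr 2
    · ring
    · exact Finset.sum_congr rfl (fun i _ => by ring)
  rw [integral_congr_ae e, integral_fintype_prod_eq_prod (f := fun k t =>
    ((Real.exp (-((ordAlong a (σ k) : ℝ) * s + ((∑ i, σ k i : ℕ) : ℝ)) * t) : ℝ) : ℂ))]
  refine Finset.prod_congr rfl (fun k _ => ?_)
  have hpos : (0 : ℝ) < (ordAlong a (σ k) : ℝ) * s + ((∑ i, σ k i : ℕ) : ℝ) := by
    have : (0 : ℝ) < ((∑ i, σ k i : ℕ) : ℝ) := by exact_mod_cast row_pos σ hd k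
    positivity
  rw [integral_complex_ofReal, integral_exp_mul_Ioi (neg_neg_iff_pos.mpr hpos)]
  simp only [mul_zero, Real.exp_zero, neg_div_neg_eq]
  push_cast
  rfl

theorem Zint_fan (hr : 0 < r) {a : Fin r → Fin n →₀ ℕ} {F : Finset (Matrix (Fin n) (Fin n) ℕ)}
    (hF : IsToricRes a F) {s : ℝ} (hs : 0 < s) :
    Zint a s = ∑ σ ∈ F, ∏ k, 1 / ((ordAlong a (σ k) : ℂ) * s + ((∑ i, σ k i : ℕ) : ℂ)) := by
  have hint := Zint_integrable hr a hs
  unfold Zint
  rw [mu_eq] at hint ⊢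
  have hsub : ∀ σ ∈ F, Lmap σ '' Op n ≤ᵐ[volume] Op n := by
    intro σ hσ
    refine EventuallyLE.trans (LE.le.eventuallyLE ?_) (cover_ae hF).symm.le
    exact subset_biUnion_of_mem (u := fun σ => Lmap σ '' Op n) (s := (F : Set _)) hσ
  rw [setIntegral_congr_set (cover_ae hF), integral_biUnion_finset]
  · exact Finset.sum_congr rfl (fun σ hσ => cone_integral hr a σ (hF.1 σ hσ) (hF.2.1 σ hσ) hs)
  · exact fun σ hσ => measurable_image_of_fderivWithin Op_measurable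
      (fun x _ => (Lmap σ).hasFDerivAt.hasFDerivWithinAt) (Lmap_inj σ (hF.1 σ hσ)).injOn
  · intro σ hσ τ hτ hne
    rw [Function.onFun, Set.disjoint_left]
    rintro _ ⟨t, ht, rfl⟩ ⟨u, hu, h⟩
    refine hne (hF.2.2.2 σ hσ τ hτ t u (fun k => ht k (mem_univ k)) (fun k => hu k (mem_univ k))
      (fun i => ?_))
    rw [← Lmap_apply, ← Lmap_apply, h]
  · exact fun σ hσ => IntegrableOn.mono_set_ae hint (hsub σ hσ)

theorem sum_inv_mul {K ι : Type*} [Field K] [DecidableEq ι] (F : Finset ι) (x : ι → K)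
    (hx : ∀ σ ∈ F, x σ ≠ 0) :
    (∑ σ ∈ F, 1 / x σ) * ∏ σ ∈ F, x σ = ∑ σ ∈ F, ∏ τ ∈ F.erase σ, x τ := by
  rw [Finset.sum_mul]
  refine Finset.sum_congr rfl (fun σ hσ => ?_)
  rw [← Finset.mul_prod_erase F x hσ, ← mul_assoc, one_div_mul_cancel (hx σ hσ), one_mul]

theorem ratfunc_of_eval {ι : Type*} (F : Finset ι) (p : ι → Polynomial ℂ) (b Q : Polynomial ℂ)
    (hp : ∀ σ ∈ F, ∀ s : ℝ, 0 < s → (p σ).eval (s : ℂ) ≠ 0)
    (h : ∀ s : ℝ, 0 < s → b.eval (s : ℂ) * ∑ σ ∈ F, 1 / (p σ).eval (s : ℂ) = Q.eval (s : ℂ)) :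
    algebraMap (Polynomial ℂ) (RatFunc ℂ) b *
      ∑ σ ∈ F, 1 / algebraMap (Polynomial ℂ) (RatFunc ℂ) (p σ) =
      algebraMap (Polynomial ℂ) (RatFunc ℂ) Q := by
  classical
  have hne : ∀ σ ∈ F, algebraMap (Polynomial ℂ) (RatFunc ℂ) (p σ) ≠ 0 := by
    intro σ hσ h0
    have : p σ = 0 := (RatFunc.algebraMap_injective ℂ) (by simpa using h0)
    exact hp σ hσ 1 one_pos (by simp [this])
  have key : b * ∑ σ ∈ F, ∏ τ ∈ F.erase σ, p τ = Q * ∏ σ ∈ F, p σ := by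
    refine Polynomial.eq_of_infinite_eval_eq _ _ ?_
    refine ((Set.Ioi_infinite (0 : ℝ)).image Complex.ofReal_injective.injOn).mono ?_
    rintro _ ⟨s, hs, rfl⟩
    simp only [Set.mem_ofPred_eq, Polynomial.eval_mul, Polynomial.eval_finsetSum, Polynomial.eval_prod]
    rw [← sum_inv_mul F (fun σ => (p σ).eval (s : ℂ)) (fun σ hσ => hp σ hσ s hs), ← h s hs,
      mul_assoc]
  have h2 := congrArg (algebraMap (Polynomial ℂ) (RatFunc ℂ)) key
  simp only [map_mul, map_sum, map_prod] at h2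
  rw [← sum_inv_mul F _ hne, ← mul_assoc] at h2
  exact mul_right_cancel₀ (Finset.prod_ne_zero_iff.mpr hne) h2

theorem main (hr : 0 < r) (a : Fin r → Fin n →₀ ℕ) (b : Polynomial ℂ)
    (hb : IsBS (fun j => monomial (a j) 1) b) :
    ∃ Q : Polynomial ℂ,
      (∀ s : ℝ, 0 < s → b.eval (s : ℂ) *
        ((∫ w in {w : Fin n → ℝ | ∀ i, 0 < w i}, Real.exp (-(∑ i, w i) - s * mOrd a w) : ℝ) : ℂ) =
          Q.eval (s : ℂ)) ∧
      ∀ F, IsToricRes a F → algebraMap (Polynomial ℂ) (RatFunc ℂ) b * zetaTop a F =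
        algebraMap (Polynomial ℂ) (RatFunc ℂ) Q := by
  obtain ⟨Q, hQ⟩ := Zint_poly hr a b hb
  refine ⟨Q, fun s hs => ?_, fun F hF => ?_⟩
  · rw [← hQ s hs, ← integral_complex_ofReal, Zint, mu_eq]
    have e : {w : Fin n → ℝ | ∀ i, 0 < w i} = Op n := by
      ext w; simp
    rw [e]
    congr 1
    refine integral_congr_ae (Eventually.of_forall (fun w => ?_))
    simp only [W]
    rw [← Complex.ofReal_prod, ← Complex.ofReal_mul, ← Real.exp_sum, ← Real.exp_add]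
    congr 2
    simp only [neg_mul, one_mul, Finset.sum_neg_distrib]
    ring
  · have := ratfunc_of_eval F (fun σ => ∏ k, (Polynomial.C (ordAlong a (σ k) : ℂ) * Polynomial.X +
      Polynomial.C ((∑ i, σ k i : ℕ) : ℂ))) b Q (fun σ hσ s hs => ?_) (fun s hs => ?_)
    · rw [← this, zetaTop]
      congr 1
      refine Finset.sum_congr rfl (fun σ _ => ?_)
      rw [Finset.prod_div_distrib, Finset.prod_const_one, map_prod]
      simp only [map_add, map_mul, map_natCast, RatFunc.algebraMap_X]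
    · rw [Polynomial.eval_prod]
      refine Finset.prod_ne_zero_iff.mpr (fun k _ => ?_)
      have hpos : (0 : ℝ) < (ordAlong a (σ k) : ℝ) * s + ((∑ i, σ k i : ℕ) : ℝ) := by
        have : (0 : ℝ) < ((∑ i, σ k i : ℕ) : ℝ) := by exact_mod_cast row_pos σ (hF.1 σ hσ) k
        positivity
      simp only [Polynomial.eval_add, Polynomial.eval_mul, Polynomial.eval_C, Polynomial.eval_X]
      exact_mod_cast hpos.ne'
    · rw [← hQ s hs, Zint_fan hr hF hs]
      congr 1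
      refine Finset.sum_congr rfl (fun σ _ => ?_)
      rw [Finset.prod_div_distrib, Finset.prod_const_one, Polynomial.eval_prod]
      simp only [Polynomial.eval_add, Polynomial.eval_mul, Polynomial.eval_C, Polynomial.eval_X]

end Pool.Agent.MP_ee8c61_ag.H48
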