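import Mathlib
import Pool.Agent.MP_ee8c61_ag.H48.Delta

namespace Pool.Agent.MP_ee8c61_ag.H48

open Matrix

variable {n r : ℕ}

theorem card_ker_det {ι : Type} [Fintype ι] [DecidableEq ι] (M : Matrix ι ι ℤ) (hM : M.det ≠ 0) :
    Nat.card {c : ι → AddCircle (1 : ℚ) // ∀ l, ∑ j, M j l • c j = 0} = M.det.natAbs := by
  let Mq : Matrix ι ι ℚ := M.map (Int.castRingHom ℚ)
  have hq : IsUnit Mq.det := by
    rw [show Mq = (Int.castRingHom ℚ).mapMatrix M from rfl, ← RingHom.map_det]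
    exact Ne.isUnit (by simpa using hM)
  let φ : (ι → ℤ) →ₗ[ℤ] (ι → AddCircle (1 : ℚ)) := AddMonoidHom.toIntLinearMap
    { toFun := fun z j => ((((fun i => (z i : ℚ)) ᵥ* Mq⁻¹) j : ℚ) : AddCircle (1 : ℚ))
      map_zero' := by
        funext j
        simp [vecMul, dotProduct]
      map_add' := fun z z' => by
        funext j
        simp [vecMul, dotProduct, add_mul, Finset.sum_add_distrib] }
  have hφ : ∀ z j, φ z j = ((((fun i => (z i : ℚ)) ᵥ* Mq⁻¹) j : ℚ) : AddCircle (1 : ℚ)) :=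
    fun _ _ => rfl
  have hs : ∀ (q : ι → ℚ) l, ∑ j, M j l • (q j : AddCircle (1 : ℚ)) =
      (((q ᵥ* Mq) l : ℚ) : AddCircle (1 : ℚ)) := by
    intro q l
    simp only [vecMul, dotProduct, Mq, map_apply, ← AddCircle.coe_zsmul]
    rw [← QuotientAddGroup.mk_sum]
    simp [mul_comm]
  have h0 : ∀ q : ℚ, (q : AddCircle (1 : ℚ)) = 0 ↔ ∃ z : ℤ, (z : ℚ) = q := by
    intro q
    rw [AddCircle.coe_eq_zero_iff]
    simp
  have hr : ∀ c, (∀ l, ∑ j, M j l • c j = 0) ↔ c ∈ LinearMap.range φ := by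
    intro c
    constructor
    · intro h
      choose q hq' using fun j => QuotientAddGroup.mk_surjective (c j)
      obtain rfl : c = fun j => (q j : AddCircle (1 : ℚ)) := funext (fun j => (hq' j).symm)
      simp only [hs, h0] at h
      choose z hz using h
      refine ⟨z, funext (fun j => ?_)⟩
      rw [hφ, funext hz, vecMul_vecMul, mul_nonsing_inv _ hq, vecMul_one]
    · rintro ⟨z, rfl⟩ l
      simp only [hφ, hs, h0]
      rw [vecMul_vecMul, nonsing_inv_mul _ hq, vecMul_one]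
      exact ⟨_, rfl⟩
  have hc : ∀ y : ι → ℤ, (fun i => (((y ᵥ* M) i : ℤ) : ℚ)) = (fun i => (y i : ℚ)) ᵥ* Mq := by
    intro y
    funext i
    simp [vecMul, dotProduct, Mq]
  have hk : LinearMap.ker φ = LinearMap.range M.vecMulLinear := by
    ext z
    simp only [LinearMap.mem_ker, funext_iff, hφ, Pi.zero_apply, h0, LinearMap.mem_range,
      vecMulLinear_apply]
    constructor
    · intro h
      choose y hy using h
      refine ⟨y, fun i => Int.cast_injective (α := ℚ) ?_⟩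
      rw [congrFun (hc y) i, funext hy, vecMul_vecMul, nonsing_inv_mul _ hq, vecMul_one]
    · rintro ⟨y, hy⟩ j
      rw [← funext hy, hc, vecMul_vecMul, mul_nonsing_inv _ hq, vecMul_one]
      exact ⟨_, rfl⟩
  have hinj : Function.Injective M.vecMulLinear := by
    intro y y' h
    have : (fun i => (y i : ℚ)) ᵥ* Mq = (fun i => (y' i : ℚ)) ᵥ* Mq := by
      rw [← hc, ← hc]
      exact congrArg (fun (z : ι → ℤ) i => (z i : ℚ)) h
    have := congrArg (· ᵥ* Mq⁻¹) this
    simp only [vecMul_vecMul, mul_nonsing_inv _ hq, vecMul_one] at this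
    exact funext (fun i => Int.cast_injective (congrFun this i))
  rw [Nat.card_congr (Equiv.subtypeEquivRight hr),
    ← Nat.card_congr φ.quotKerEquivRange.toEquiv, hk,
    ← Submodule.natAbs_det_equiv _ (LinearEquiv.ofInjective _ hinj), ← det_transpose M,
    ← LinearMap.det_toLin' Mᵀ]
  congr 2
  ext i j
  simp [vecMul, dotProduct, Pi.single_apply]

theorem unimod_zero {ι G : Type} [Fintype ι] [DecidableEq ι] [AddCommGroup G] (B : Matrix ι ι ℤ)
    (hB : IsUnit B.det) (d : ι → G) (h : ∀ l, ∑ m, B m l • d m = 0) (m : ι) : d m = 0 := by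
  have : ∑ l, B⁻¹ l m • ∑ m', B m' l • d m' = d m := by
    simp only [Finset.smul_sum, smul_smul]
    rw [Finset.sum_comm]
    simp only [← Finset.sum_smul, mul_comm (B⁻¹ _ _), ← mul_apply, mul_nonsing_inv _ hB, one_apply]
    simp
  rw [← this]
  simp [h]

theorem vol_eq (a : Fin r → Fin n →₀ ℕ) (T : Finset (Fin r)) :
    vol a T = Nat.card {c : T → AddCircle (1 : ℚ) // ∀ l, ∑ j : T, Yz a j l • c j = 0} := by
  have key : ∀ c : Fin r → AddCircle (1 : ℚ), (∀ j ∉ T, c j = 0) →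
      ((∑ j, c j = 0 ∧ ∀ i, ∑ j, a j i • c j = 0) ↔ ∀ l, ∑ j : T, Yz a j l • c j = 0) := by
    intro c hc
    have : ∀ l, ∑ j : T, Yz a j l • c j = ∑ j, Yz a j l • c j := by
      intro l
      rw [Finset.sum_coe_sort T (fun j => Yz a j l • c j)]
      exact Finset.sum_subset (Finset.subset_univ _) (fun j _ hj => by rw [hc j hj, smul_zero])
    simp only [this]
    simp only [Fin.forall_fin_succ, Yz, Fin.cons_zero, Fin.cons_succ]
    simp
  refine Nat.card_congr ⟨fun c => ⟨fun j => c.1 j, (key _ c.2.1).mp c.2.2⟩,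
    fun c => ⟨fun j => if h : j ∈ T then c.1 ⟨j, h⟩ else 0, fun j hj => dif_neg hj,
      (key _ (fun j hj => dif_neg hj)).mpr (by simpa using c.2)⟩, fun c => ?_, fun c => ?_⟩
  · refine Subtype.ext (funext fun j => ?_)
    by_cases h : j ∈ T
    · simp [h]
    · simp [h, c.2.1 j h]
  · refine Subtype.ext (funext fun j => ?_)
    simp

theorem vol_singleton (a : Fin r → Fin n →₀ ℕ) (j : Fin r) : vol a {j} = 1 := by
  rw [vol, Nat.card_eq_one_iff_unique]
  have : ∀ c : Fin r → AddCircle (1 : ℚ), (∀ l ∉ ({j} : Finset (Fin r)), c l = 0) →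
      ∑ l, c l = 0 → c = 0 := by
    intro c h1 h2
    funext l
    by_cases h : l = j
    · rwa [Finset.sum_eq_single j (fun l _ hl => h1 l (by simpa using hl)) (by simp), ← h] at h2
    · exact h1 l (by simpa using h)
  refine ⟨⟨fun c c' => Subtype.ext ?_⟩, ⟨⟨0, by simp⟩⟩⟩
  rw [this _ c.2.1 c.2.2.1, this _ c'.2.1 c'.2.2.1]

/-- the lift of a ray to the graph of the order function -/
noncomputable def hat (a : Fin r → Fin n →₀ ℕ) (ρ : Fin n → ℕ) : Fin (n + 1) → ℤ :=
  Fin.cons (ordAlong a ρ) (fun i => ρ i)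

noncomputable def Bz (a : Fin r → Fin n →₀ ℕ) (σ : Matrix (Fin n) (Fin n) ℕ) :
    Matrix (Fin (n + 1)) (Fin (n + 1)) ℤ :=
  (Matrix.of (Fin.cons (Pi.single 0 1) (fun l => hat a (σ l))))ᵀ

theorem Bz_det (a : Fin r → Fin n →₀ ℕ) (σ : Matrix (Fin n) (Fin n) ℕ) :
    (Bz a σ).det = (σ.map (fun x => (x : ℤ))).det := by
  rw [Bz, det_transpose, det_succ_row_zero, Fin.sum_univ_succ]
  simp only [of_apply, Fin.cons_zero, Pi.single_eq_same, Pi.single_eq_of_ne (Fin.succ_ne_zero _)]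
  simp
  rfl

theorem Yz_hat (a : Fin r → Fin n →₀ ℕ) (τ : Finset (Fin n → ℕ)) {j : Fin r} (hj : j ∈ face a τ)
    {ρ : Fin n → ℕ} (hρ : ρ ∈ τ) : ∑ m, Yz a j m * hat a ρ m = 0 := by
  have := (Finset.mem_filter.mp hj).2 ρ hρ
  simp only [Fin.sum_univ_succ, Yz, hat, Fin.cons_zero, Fin.cons_succ, this]
  push_cast
  simp [mul_comm]

theorem vol_det (a : Fin r → Fin n →₀ ℕ) (T : Finset (Fin r))
    (B : Matrix (Fin (n + 1)) (Fin (n + 1)) ℤ) (hB : IsUnit B.det) (p : Fin (n + 1) → Prop)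
    (hp : ∀ l, p l → ∀ j ∈ T, ∑ m, Yz a j m * B m l = 0) (e : T ≃ {l // ¬ p l})
    (h : (Matrix.of fun j l : T => ∑ m, Yz a j m * B m (e l)).det ≠ 0) :
    vol a T = (Matrix.of fun j l : T => ∑ m, Yz a j m * B m (e l)).det.natAbs := by
  rw [vol_eq, ← card_ker_det _ h]
  refine Nat.card_congr (Equiv.subtypeEquivRight (fun c => ?_))
  have key : ∀ l, ∑ j : T, (∑ m, Yz a j m * B m l) • c j = ∑ m, B m l • ∑ j : T, Yz a j m • c j := by
    intro l
    simp only [Finset.sum_smul, Finset.smul_sum, smul_smul, mul_comm]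
    exact Finset.sum_comm
  constructor
  · intro hc l
    simp only [of_apply, key, hc, smul_zero, Finset.sum_const_zero]
  · intro hc
    refine unimod_zero B hB _ (fun l => ?_)
    rw [← key]
    by_cases hl : p l
    · exact Finset.sum_eq_zero (fun j _ => by rw [hp l hl j j.2, zero_smul])
    · simpa using hc (e.symm ⟨l, hl⟩)

end Pool.Agent.MP_ee8c61_ag.H48
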