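import Mathlib
import Pool.Agent.MP_ee8c61_ag.H48.Vol
import Pool.Agent.MP_ee8c61_ag.H48.Fan

namespace Pool.Agent.MP_ee8c61_ag.H48

open Matrix MeasureTheory Set Filter

variable {n r : ℕ}

theorem rows_inj (σ : Matrix (Fin n) (Fin n) ℕ) (h : |(σ.map (fun x => (x : ℤ))).det| = 1) :
    Function.Injective (fun l => σ l) := by
  intro l l' e
  by_contra hne
  rw [det_zero_of_row_eq hne (funext fun i => by simp only [map_apply]; rw [show σ l = σ l' from e])]
    at h
  simp at h

theorem prod_rays {G : Type} [CommMonoid G] {σ : Matrix (Fin n) (Fin n) ℕ}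
    (h : |(σ.map (fun x => (x : ℤ))).det| = 1) {τ : Finset (Fin n → ℕ)}
    (hτ : ∀ ρ ∈ τ, ∃ l, σ l = ρ) (f : (Fin n → ℕ) → G) :
    ∏ ρ ∈ τ, f ρ = ∏ l, if σ l ∈ τ then f (σ l) else 1 := by
  rw [← Finset.prod_filter]
  refine (Finset.prod_nbij (fun l => σ l) (fun l hl => (Finset.mem_filter.mp hl).2)
    (rows_inj σ h).injOn (fun ρ hρ => ?_) (fun _ _ => rfl)).symm
  obtain ⟨l, rfl⟩ := hτ ρ hρ
  exact ⟨l, by simpa using hρ, rfl⟩

theorem sum_rays {G : Type} [AddCommMonoid G] {σ : Matrix (Fin n) (Fin n) ℕ}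
    (h : |(σ.map (fun x => (x : ℤ))).det| = 1) {τ : Finset (Fin n → ℕ)}
    (hτ : ∀ ρ ∈ τ, ∃ l, σ l = ρ) (f : (Fin n → ℕ) → G) :
    ∑ ρ ∈ τ, f ρ = ∑ l, if σ l ∈ τ then f (σ l) else 0 :=
  prod_rays (G := Multiplicative G) h hτ f

theorem inCone_iff {σ : Matrix (Fin n) (Fin n) ℕ}
    (h : |(σ.map (fun x => (x : ℤ))).det| = 1) {τ : Finset (Fin n → ℕ)}
    (hτ : ∀ ρ ∈ τ, ∃ l, σ l = ρ) (z : Fin n → ℝ) :
    InCone τ (Lmap σ (fun l => if σ l ∈ τ then z l else 0)) ↔ ∀ l, σ l ∈ τ → 0 < z l := by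
  constructor
  · rintro ⟨t, ht, e⟩ l hl
    have : Lmap σ (fun l => if σ l ∈ τ then z l else 0) =
        Lmap σ (fun l => if σ l ∈ τ then t (σ l) else 0) := by
      funext i
      rw [e, sum_rays h hτ, Lmap_apply]
      simp
    have := congrFun (Lmap_inj σ h this) l
    simp only [if_pos hl] at this
    exact this ▸ ht _ hl
  · intro hz
    refine ⟨Function.extend (fun l => σ l) z 0, fun ρ hρ => ?_, fun i => ?_⟩
    · obtain ⟨l, rfl⟩ := hτ ρ hρ
      rw [(rows_inj σ h).extend_apply]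
      exact hz l hρ
    · rw [sum_rays h hτ, Lmap_apply]
      simp [(rows_inj σ h).extend_apply]

open Classical in
noncomputable def Gτ (a : Fin r → Fin n →₀ ℕ) (T : Finset (Fin r))
    (R : Matrix (Fin (n + 1)) T ℝ) (b : ℕ → ℝ → ℝ) (s : ℝ) (τ : Finset (Fin n → ℕ))
    (x : Fin (n + 1) → ℝ) : ℝ :=
  (if InCone τ (fun i => ((1 - R * YT a T) *ᵥ x) i.succ) then
    Real.exp (-(rate n s ⬝ᵥ ((1 - R * YT a T) *ᵥ x))) else 0) * ∏ j ∈ T, b 1 ((Yr a *ᵥ x) j)

theorem cone_piece (a : Fin r → Fin n →₀ ℕ) {T : Finset (Fin r)} (R : Matrix (Fin (n + 1)) T ℝ)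
    (hR : YT a T * R = 1) {σ : Matrix (Fin n) (Fin n) ℕ}
    (hσ : |(σ.map (fun x => (x : ℤ))).det| = 1) {τ : Finset (Fin n → ℕ)}
    (hτ : ∀ ρ ∈ τ, ∃ l, σ l = ρ) (hT : face a τ = T) (hcard : τ.card + T.card = n + 1)
    {b : ℕ → ℝ → ℝ} (hb : IsStep 0 1 b) {s : ℝ} (hs : 0 < s) :
    vol a T ≠ 0 ∧ ∫ x, Gτ a T R b s τ x =
      (vol a T : ℝ)⁻¹ * ∏ ρ ∈ τ, 1 / ((ordAlong a ρ : ℝ) * s + ((∑ i, ρ i : ℕ) : ℝ)) := by
  classical
  let p : Fin (n + 1) → Prop := Fin.cons (α := fun _ => Prop) False (fun l => σ l ∈ τ)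
  have hp0 : ¬ p 0 := id
  have hps : ∀ l, p l.succ ↔ σ l ∈ τ := fun _ => Iff.rfl
  have hc : Fintype.card T = Fintype.card {l // ¬ p l} := by
    rw [Fintype.card_subtype_compl, Fintype.card_fin, Fintype.card_coe, Fintype.card_subtype,
      Finset.card_filter, Fin.sum_univ_succ, if_neg hp0]
    simp only [hps]
    rw [← sum_rays hσ hτ (fun _ => 1), ← Finset.card_eq_sum_ones]
    omega
  let e := Fintype.equivOfCardEq hc
  let B : Matrix (Fin (n + 1)) (Fin (n + 1)) ℝ := (Int.castRingHom ℝ).mapMatrix (Bz a σ)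
  have hBd : |B.det| = 1 := by
    rw [← RingHom.map_det, Bz_det, eq_intCast]
    exact_mod_cast hσ
  have hBu : IsUnit B.det := Ne.isUnit (fun h => by simp [h] at hBd)
  have hz : ∀ l, p l → ∀ j ∈ T, ∑ m, Yz a j m * Bz a σ m l = 0 := by
    intro l
    refine Fin.cases (fun h => absurd h hp0) (fun l h j hj => ?_) l
    exact Yz_hat a τ (hT ▸ hj) h
  have hYB : ∀ j l, (Yr a * B) j l = ((∑ m, Yz a j m * Bz a σ m l : ℤ) : ℝ) := by
    intro j l
    simp [Yr, B, mul_apply]
  let M : Matrix (Fin (n + 1)) (Fin (n + 1)) ℝ :=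
    fun m l => if h : p l then B m l else R m (e.symm ⟨l, h⟩)
  let J : Matrix (Fin (n + 1)) (Fin (n + 1)) ℝ :=
    fun l m => if h : p l then B⁻¹ l m else Yr a (e.symm ⟨l, h⟩) m
  have hYM : ∀ (j : T) l, (Yr a * M) j l = if l = e j then 1 else 0 := by
    intro j l
    by_cases h : p l
    · rw [if_neg (fun h' : l = e j => (e j).2 (h' ▸ h))]
      have := hYB j l
      rw [hz l h j j.2, Int.cast_zero] at this
      simpa [M, mul_apply, h] using this
    · have := congrFun (congrFun hR j) (e.symm ⟨l, h⟩)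
      simp only [mul_apply, YT, one_apply, Equiv.eq_symm_apply, Subtype.ext_iff] at this
      simp only [M, mul_apply, dif_neg h, this, eq_comm]
  have hJM : (J * M).det = 1 := by
    rw [twoBlockTriangular_det _ p (fun i hi j hj => ?_)]
    · have e1 : toSquareBlockProp (J * M) p = 1 := by
        ext i j
        have := congrFun (congrFun (nonsing_inv_mul B hBu) i) j
        simp only [mul_apply, one_apply] at this
        simp [toSquareBlockProp_def, mul_apply, J, M, i.2, j.2, this, one_apply, Subtype.ext_iff]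
      have e2 : toSquareBlockProp (J * M) (fun i => ¬ p i) = 1 := by
        ext i j
        have := hYM (e.symm i) j
        simp only [mul_apply, Equiv.apply_symm_apply] at this
        simp [toSquareBlockProp_def, mul_apply, J, i.2, this, one_apply, Subtype.ext_iff, eq_comm]
      rw [e1, e2, det_one, det_one, one_mul]
    · have := hYM (e.symm ⟨i, hi⟩) j
      rw [if_neg (fun h' => (e _).2 (h' ▸ hj))] at this
      simpa [mul_apply, J, hi] using this
  have hJB : (J * B).det =
      (((Matrix.of fun j l : T => ∑ m, Yz a j m * Bz a σ m (e l)).det : ℤ) : ℝ) := by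
    rw [twoBlockTriangular_det _ p (fun i hi j hj => ?_)]
    · have e1 : toSquareBlockProp (J * B) p = 1 := by
        ext i j
        have := congrFun (congrFun (nonsing_inv_mul B hBu) i) j
        simp only [mul_apply, one_apply] at this
        simp [toSquareBlockProp_def, mul_apply, J, i.2, this, one_apply, Subtype.ext_iff]
      rw [e1, det_one, one_mul, ← det_submatrix_equiv_self e, Int.cast_det]
      congr 1
      ext i j
      have := hYB i (e j)
      simp only [mul_apply] at this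
      simp [toSquareBlockProp_def, mul_apply, J, (e i).2, this]
    · have := hYB (e.symm ⟨i, hi⟩) j
      rw [hz j hj _ (e.symm ⟨i, hi⟩).2, Int.cast_zero] at this
      simpa [mul_apply, J, hi] using this
  rw [det_mul] at hJM hJB
  have hJ : J.det ≠ 0 := left_ne_zero_of_mul_eq_one hJM
  have hne : (Matrix.of fun j l : T => ∑ m, Yz a j m * Bz a σ m (e l)).det ≠ 0 := by
    intro h
    rw [h, Int.cast_zero] at hJB
    exact mul_ne_zero hJ hBu.ne_zero hJB
  have hvol := vol_det a T (Bz a σ) (by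
    rw [Bz_det]; exact Int.isUnit_iff_abs_eq.mpr hσ) p hz e hne
  refine ⟨by rw [hvol]; exact Int.natAbs_ne_zero.mpr hne, ?_⟩
  have hM : |M.det| = (vol a T : ℝ)⁻¹ := by
    rw [hvol, Nat.cast_natAbs, Int.cast_abs, ← hJB, abs_mul, hBd, mul_one]
    exact eq_inv_of_mul_eq_one_right (by rw [← abs_mul, hJM, abs_one])
  rw [integral_affine M (right_ne_zero_of_mul_eq_one hJM) 0, integral_const_mul, hM]
  congr 1
  let c : Fin (n + 1) → ℝ := rate n s ᵥ* B
  have hcs : ∀ l, c l.succ = (ordAlong a (σ l) : ℝ) * s + ((∑ i, σ l i : ℕ) : ℝ) := by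
    intro l
    simp [c, vecMul, dotProduct, Fin.sum_univ_succ, rate, B, Bz, hat, mul_comm]
  let f : Fin (n + 1) → ℝ → ℝ := fun l t =>
    if p l then (Ioi 0).indicator (fun t => Real.exp (-c l * t)) t else b 1 t
  have key : ∀ z, Gτ a T R b s τ (M *ᵥ z + 0) = ∏ l, f l (z l) := by
    intro z
    have h1 : ∀ j : T, (Yr a *ᵥ (M *ᵥ z)) j = z (e j) := by
      intro j
      rw [mulVec_mulVec]
      simp [mulVec, dotProduct, hYM]
    have h2 : (1 - R * YT a T) *ᵥ (M *ᵥ z) = B *ᵥ (fun l => if p l then z l else 0) := by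
      rw [sub_mulVec, one_mulVec, ← mulVec_mulVec,
        show YT a T *ᵥ (M *ᵥ z) = fun j => z (e j) from funext h1]
      funext m
      simp only [Pi.sub_apply, mulVec, dotProduct]
      rw [← Fintype.sum_subtype_add_sum_subtype p, ← Fintype.sum_subtype_add_sum_subtype p,
        ← e.sum_comp, ← e.sum_comp]
      simp [M, (e _).2]
      exact Finset.sum_congr rfl (fun l _ => by simp [l.2])
    have h3 : (fun i : Fin n => (B *ᵥ (fun l => if p l then z l else 0)) i.succ) =
        Lmap σ (fun l => if σ l ∈ τ then z l.succ else 0) := by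
      funext i
      rw [Lmap_apply]
      simp [mulVec, dotProduct, Fin.sum_univ_succ, hp0, hps, B, Bz, hat, mul_comm]
    rw [add_zero, Gτ, h2, h3, inCone_iff hσ hτ, ← Fintype.prod_subtype_mul_prod_subtype p,
      ← e.prod_comp, ← Finset.prod_coe_sort T]
    congr 1
    · rw [dotProduct_mulVec]
      split_ifs with h
      · rw [dotProduct, ← Fintype.sum_subtype_add_sum_subtype p,
          Finset.sum_eq_zero (s := (Finset.univ : Finset {l // ¬ p l}))
          (fun l _ => by simp [l.2]), add_zero, ← Finset.sum_neg_distrib, Real.exp_sum]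
        refine Finset.prod_congr rfl (fun ⟨l, hl⟩ _ => ?_)
        revert hl
        refine Fin.cases (fun h => absurd h hp0) (fun l hl => ?_) l
        simp [f, c, hl, h l hl]
      · simp only [not_forall, not_lt] at h
        obtain ⟨l, hl, h⟩ := h
        exact (Finset.prod_eq_zero (Finset.mem_univ ⟨l.succ, hl⟩) (by simp [f, hps, hl, h])).symm
    · exact Finset.prod_congr rfl (fun j _ => by simp [f, h1, (e j).2])
  simp only [key]
  rw [integral_fintype_prod_volume_eq_prod f, prod_rays hσ hτ, Fin.prod_univ_succ]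
  simp only [f, hp0, hps, if_false, bump_integral hb, one_mul]
  refine Finset.prod_congr rfl (fun l _ => ?_)
  split_ifs with h
  · have hpos : (0 : ℝ) < c l.succ := by
      have : (0 : ℝ) < ((∑ i, σ l i : ℕ) : ℝ) := by exact_mod_cast row_pos σ hσ l
      rw [hcs]
      positivity
    rw [integral_indicator measurableSet_Ioi, integral_exp_mul_Ioi (neg_neg_iff_pos.mpr hpos), hcs]
    simp only [mul_zero, Real.exp_zero, neg_div_neg_eq]
  · exact bump_integral hb

end Pool.Agent.MP_ee8c61_ag.H48
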