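import Mathlib
import Pool.Agent.MP_ee8c61_ag.H48.Tile

namespace Pool.Agent.MP_ee8c61_ag.H48

open Matrix MeasureTheory Set Filter

variable {n r : ℕ}

theorem cone_sum (a : Fin r → Fin n →₀ ℕ) {τ : Finset (Fin n → ℕ)} {w : Fin n → ℝ}
    {t : (Fin n → ℕ) → ℝ} (e : ∀ i, w i = ∑ ρ ∈ τ, t ρ * ρ i) (j : Fin r) :
    ∑ i, w i * a j i = ∑ ρ ∈ τ, t ρ * ((∑ i, ρ i * a j i : ℕ) : ℝ) := by
  simp only [e, Finset.sum_mul, Finset.mul_sum, Nat.cast_sum, Nat.cast_mul]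
  rw [Finset.sum_comm]
  simp only [mul_assoc]

theorem cone_face (a : Fin r → Fin n →₀ ℕ) {τ : Finset (Fin n → ℕ)} {w : Fin n → ℝ}
    (h : InCone τ w) : (∀ i, 0 ≤ w i) ∧ ∃ m : ℝ, 0 ≤ m ∧ (∀ j ∈ face a τ, ∑ i, w i * a j i = m) ∧
      ∀ j ∉ face a τ, m < ∑ i, w i * a j i := by
  obtain ⟨t, ht, e⟩ := h
  have hle : ∀ ρ j, ordAlong a ρ ≤ ∑ i, ρ i * a j i := fun ρ j =>
    ciInf_le (f := fun j => ∑ i, ρ i * a j i) (OrderBot.bddBelow _) j
  refine ⟨fun i => ?_, ∑ ρ ∈ τ, t ρ * ordAlong a ρ, ?_, fun j hj => ?_, fun j hj => ?_⟩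
  · rw [e]
    exact Finset.sum_nonneg (fun ρ hρ => mul_nonneg (ht ρ hρ).le (Nat.cast_nonneg _))
  · exact Finset.sum_nonneg (fun ρ hρ => mul_nonneg (ht ρ hρ).le (Nat.cast_nonneg _))
  · rw [cone_sum a e]
    exact Finset.sum_congr rfl (fun ρ hρ => by rw [(Finset.mem_filter.mp hj).2 ρ hρ])
  · rw [cone_sum a e]
    simp only [face, Finset.mem_filter, Finset.mem_univ, true_and, not_forall] at hj
    obtain ⟨ρ, hρ, hj⟩ := hj
    refine Finset.sum_lt_sum (fun ρ hρ => mul_le_mul_of_nonneg_left ?_ (ht ρ hρ).le)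
      ⟨ρ, hρ, mul_lt_mul_of_pos_left ?_ (ht ρ hρ)⟩
    · exact_mod_cast hle ρ j
    · exact_mod_cast lt_of_le_of_ne (hle ρ j) hj

noncomputable def Psi3 (a : Fin r → Fin n →₀ ℕ) {T : Finset (Fin r)}
    (R : Matrix (Fin (n + 1)) T ℝ) (τ : Finset (Fin n → ℕ)) :
    ((τ → ℝ) × (T → ℝ)) →ₗ[ℝ] (Fin (n + 1) → ℝ) :=
  (Matrix.of fun m (ρ : τ) => (hat a ρ m : ℝ)).mulVecLin.coprod R.mulVecLin

theorem card_le (a : Fin r → Fin n →₀ ℕ) {T : Finset (Fin r)} (R : Matrix (Fin (n + 1)) T ℝ)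
    (hR : YT a T * R = 1) {σ : Matrix (Fin n) (Fin n) ℕ}
    (hσ : |(σ.map (fun x => (x : ℤ))).det| = 1) {τ : Finset (Fin n → ℕ)}
    (hτ : ∀ ρ ∈ τ, ∃ l, σ l = ρ) (hT : face a τ = T) : τ.card + T.card ≤ n + 1 := by
  have hinj : Function.Injective (Psi3 a R τ) := by
    refine (injective_iff_map_eq_zero _).mpr (fun ⟨t, u⟩ h => ?_)
    simp only [Psi3, LinearMap.coprod_apply, mulVecLin_apply] at h
    have h0 : YT a T * (Matrix.of fun m (ρ : τ) => (hat a ρ m : ℝ)) = 0 := by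
      ext j ρ
      have := Yz_hat a τ (hT.ge j.2) ρ.2
      simp only [mul_apply, YT, Yr, map_apply, of_apply, Matrix.zero_apply]
      exact_mod_cast this
    have h1 := congrArg (YT a T *ᵥ ·) h
    simp only [mulVec_add, mulVec_mulVec, h0, hR, zero_mulVec, one_mulVec, zero_add,
      mulVec_zero] at h1
    subst h1
    rw [mulVec_zero, add_zero] at h
    have h2 : Lmap σ (fun l => if h : σ l ∈ τ then t ⟨σ l, h⟩ else 0) = Lmap σ 0 := by
      funext i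
      have := congrFun h i.succ
      simp only [mulVec, dotProduct, of_apply, hat, Fin.cons_succ, Pi.zero_apply] at this
      rw [map_zero, Pi.zero_apply]
      refine Eq.trans ?_ this
      rw [Lmap_apply, eq_comm,
        Finset.sum_congr rfl (g := fun ρ : τ => (fun ρ : Fin n → ℕ =>
          if h : ρ ∈ τ then t ⟨ρ, h⟩ * ρ i else 0) ρ) (fun ρ _ => by simp [mul_comm]),
        Finset.sum_coe_sort τ (fun ρ : Fin n → ℕ => if h : ρ ∈ τ then t ⟨ρ, h⟩ * ρ i else 0),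
        sum_rays hσ hτ]
      exact Finset.sum_congr rfl (fun l _ => by split_ifs <;> simp)
    refine Prod.ext (funext fun ⟨ρ, hρ⟩ => ?_) rfl
    obtain ⟨l, rfl⟩ := hτ ρ hρ
    simpa [hρ] using congrFun (Lmap_inj σ hσ h2) l
  simpa using LinearMap.finrank_le_finrank_of_injective hinj

theorem Y_proj (a : Fin r → Fin n →₀ ℕ) {T : Finset (Fin r)} (R : Matrix (Fin (n + 1)) T ℝ)
    (hR : YT a T * R = 1) (x : Fin (n + 1) → ℝ) {j : Fin r} (hj : j ∈ T) :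
    ((1 - R * YT a T) *ᵥ x) 0 = ∑ i, ((1 - R * YT a T) *ᵥ x) i.succ * a j i := by
  have : YT a T *ᵥ ((1 - R * YT a T) *ᵥ x) = 0 := by
    rw [mulVec_mulVec, Matrix.mul_sub, ← Matrix.mul_assoc, hR]
    simp
  have h : (Yr a *ᵥ ((1 - R * YT a T) *ᵥ x)) j = 0 := congrFun this ⟨j, hj⟩
  rw [Yr_mulVec] at h
  linarith

theorem null_piece (a : Fin r → Fin n →₀ ℕ) {T : Finset (Fin r)} (R : Matrix (Fin (n + 1)) T ℝ)
    (hR : YT a T * R = 1) (hT0 : T.Nonempty) {τ : Finset (Fin n → ℕ)} (hT : face a τ = T)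
    (hc : τ.card + T.card < n + 1) :
    ∀ᵐ x : Fin (n + 1) → ℝ, ¬ InCone τ (fun i => ((1 - R * YT a T) *ᵥ x) i.succ) := by
  have := Measure.addHaar_submodule volume (LinearMap.range (Psi3 a R τ)) (fun h => by
    have := LinearMap.finrank_range_le (Psi3 a R τ)
    rw [h] at this
    simp at this
    omega)
  filter_upwards [compl_mem_ae_iff.mpr this] with x hx ⟨t, ht, e⟩
  refine hx ⟨(fun ρ => t ρ, YT a T *ᵥ x), ?_⟩
  have : (Matrix.of fun m (ρ : τ) => (hat a ρ m : ℝ)) *ᵥ (fun ρ => t ρ) =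
      (1 - R * YT a T) *ᵥ x := by
    funext m
    simp only [mulVec, dotProduct, of_apply]
    rw [Finset.sum_coe_sort τ (fun ρ => (hat a ρ m : ℝ) * t ρ)]
    refine Fin.cases ?_ (fun i => ?_) m
    · obtain ⟨j, hj⟩ := hT0
      refine Eq.trans ?_ (Y_proj a R hR x hj).symm
      rw [cone_sum a e]
      refine Finset.sum_congr rfl (fun ρ hρ => ?_)
      rw [← (Finset.mem_filter.mp (hT ▸ hj : j ∈ face a τ)).2 ρ hρ]
      simp [hat, mul_comm]
    · refine Eq.trans ?_ (e i).symm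
      simp [hat, mul_comm]
  simp only [Psi3, LinearMap.coprod_apply, mulVecLin_apply, this, sub_mulVec, one_mulVec,
    mulVec_mulVec, sub_add_cancel]

theorem Glim_integral (a : Fin r → Fin n →₀ ℕ) {T : Finset (Fin r)}
    (R : Matrix (Fin (n + 1)) T ℝ) (hR : YT a T * R = 1) (hT0 : T.Nonempty)
    (h0 : ∃ x, ((1 - R * YT a T) *ᵥ x) 0 ≠ 0) {Φ : Finset (Finset (Fin n → ℕ))}
    (hΦ : IsSmoothFan a Φ) {b : ℕ → ℝ → ℝ} (hb : IsStep 0 1 b) {s : ℝ} (hs : 0 < s) :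
    (vol a T : ℝ) * ∫ x, Glim a T R b s x =
      ∑ τ ∈ Φ.filter (fun τ => face a τ = T ∧ τ.card + T.card = n + 1),
        ∏ ρ ∈ τ, 1 / ((ordAlong a ρ : ℝ) * s + ((∑ i, ρ i : ℕ) : ℝ)) := by
  classical
  have hp : ∀ τ ∈ Φ.filter (fun τ => face a τ = T ∧ τ.card + T.card = n + 1),
      Integrable (Gτ a T R b s τ) ∧ (vol a T : ℝ) * ∫ x, Gτ a T R b s τ x =
        ∏ ρ ∈ τ, 1 / ((ordAlong a ρ : ℝ) * s + ((∑ i, ρ i : ℕ) : ℝ)) := by
    intro τ hτ
    obtain ⟨h1, h2, h3⟩ := Finset.mem_filter.mp hτ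
    obtain ⟨σ, hσ, hρ⟩ := hΦ.1 τ h1
    obtain ⟨hv, hI⟩ := cone_piece a R hR hσ hρ h2 h3 hb hs
    have hv' : (vol a T : ℝ) ≠ 0 := by exact_mod_cast hv
    refine ⟨Integrable.of_integral_ne_zero ?_, by rw [hI, mul_inv_cancel_left₀ hv']⟩
    rw [hI]
    refine mul_ne_zero (inv_ne_zero hv') (Finset.prod_ne_zero_iff.mpr (fun ρ h => ?_))
    obtain ⟨l, rfl⟩ := hρ ρ h
    have : (0 : ℝ) < ((∑ i, σ l i : ℕ) : ℝ) := by exact_mod_cast row_pos σ hσ l
    positivity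
  rw [← Finset.sum_congr rfl (fun τ hτ => (hp τ hτ).2), ← Finset.mul_sum,
    ← integral_finsetSum _ (fun τ hτ => (hp τ hτ).1)]
  congr 1
  refine integral_congr_ae ?_
  have a1 : ∀ᵐ x : Fin (n + 1) → ℝ, ((1 - R * YT a T) *ᵥ x) 0 ≠ 0 := by
    let L : (Fin (n + 1) → ℝ) →ₗ[ℝ] ℝ := (LinearMap.proj 0).comp (1 - R * YT a T).mulVecLin
    have := Measure.addHaar_submodule volume (LinearMap.ker L) (fun h => by
      obtain ⟨x, hx⟩ := h0
      exact hx (show x ∈ LinearMap.ker L from h ▸ Submodule.mem_top))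
    filter_upwards [compl_mem_ae_iff.mpr this] with x hx using hx
  have a2 : ∀ᵐ x : Fin (n + 1) → ℝ, ∀ τ ∈ Φ, face a τ = T →
      InCone τ (fun i => ((1 - R * YT a T) *ᵥ x) i.succ) → τ.card + T.card = n + 1 := by
    refine (eventually_all_finset _).mpr (fun τ hτ => ?_)
    by_cases h : face a τ = T ∧ τ.card + T.card < n + 1
    · filter_upwards [null_piece a R hR hT0 h.1 h.2] with x hx _ h' using absurd h' hx
    · refine Eventually.of_forall (fun x h1 _ => ?_)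
      obtain ⟨σ, hσ, hρ⟩ := hΦ.1 τ hτ
      have := card_le a R hR hσ hρ h1
      simp only [h1, true_and] at h
      omega
  filter_upwards [a1, a2] with x h1 h2
  have hY := fun j => Y_proj a R hR x (j := j)
  simp only [Glim, Gτ, ← Finset.sum_mul]
  congr 1
  generalize (1 - R * YT a T) *ᵥ x = y at h1 h2 hY
  obtain ⟨j1, hj1⟩ := hT0
  split_ifs with hC
  · obtain ⟨τ, ⟨hτ, hw⟩, hu⟩ := hΦ.2.2 (fun i => y i.succ) hC.2.1
    obtain ⟨_, m, _, hm1, hm2⟩ := cone_face a hw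
    have hle : m ≤ y 0 := by
      rw [hY j1 hj1]
      by_cases h : j1 ∈ face a τ
      exacts [(hm1 j1 h).ge, (hm2 j1 h).le]
    have hsub : ∀ j ∈ face a τ, j ∈ T := by
      intro j hj
      by_contra h
      have := hC.2.2 j h
      rw [Yr_mulVec, hm1 j hj] at this
      linarith
    have hf : face a τ = T := by
      refine Finset.Subset.antisymm hsub (fun j hj => ?_)
      obtain ⟨j0, hj0⟩ := hΦ.2.1 τ hτ
      by_contra h
      have := hm2 j h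
      rw [← hY j hj, hY j0 (hsub j0 hj0), hm1 j0 hj0] at this
      exact lt_irrefl _ this
    rw [Finset.sum_eq_single τ, if_pos hw]
    · intro τ' hτ' hne
      exact if_neg (fun h => hne (hu τ' ⟨(Finset.mem_filter.mp hτ').1, h⟩))
    · intro h
      exact absurd (Finset.mem_filter.mpr ⟨hτ, hf, h2 τ hτ hf hw⟩) h
  · refine (Finset.sum_eq_zero (fun τ hτ => if_neg (fun hw => hC ?_))).symm
    obtain ⟨hw0, m, hm0, hm1, hm2⟩ := cone_face a hw
    rw [(Finset.mem_filter.mp hτ).2.1] at hm1 hm2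
    have : y 0 = m := by rw [hY j1 hj1, hm1 j1 hj1]
    refine ⟨lt_of_le_of_ne (this ▸ hm0) h1.symm, hw0, fun j hj => ?_⟩
    rw [Yr_mulVec, this]
    linarith [hm2 j hj]

end Pool.Agent.MP_ee8c61_ag.H48
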