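import Mathlib
import Pool.Agent.MP_ee8c61_ag.H48.Tile2

namespace Pool.Agent.MP_ee8c61_ag.H48

open Matrix MeasureTheory Set Filter Topology

variable {n k r : ℕ}

theorem exists_R0 (a : Fin r → Fin n →₀ ℕ) (ha : LinearIndependent ℝ (fun j i => (a j i : ℝ))) :
    ∃ R : Matrix (Fin (n + 1)) (Fin r) ℝ, Yr a * R = 1 ∧ ∀ j, R 0 j = 0 := by
  let A : Matrix (Fin r) (Fin n) ℝ := fun j i => a j i
  have h : Function.Injective A.vecMulLinear := vecMul_injective_iff.mpr ha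
  obtain ⟨g, hg⟩ := LinearMap.exists_leftInverse_of_injective _ (LinearMap.ker_eq_bot.mpr h)
  refine ⟨Fin.cons 0 (LinearMap.toMatrix' g)ᵀ, ?_, fun j => rfl⟩
  ext j l
  have h1 := congrFun (LinearMap.congr_fun hg (Pi.single j 1)) l
  simp only [LinearMap.comp_apply, vecMulLinear_apply, single_one_vecMul, LinearMap.id_apply] at h1
  rw [← LinearMap.toMatrix'_mulVec, Pi.single_apply] at h1
  simp only [mul_apply, Yr, Yz, map_apply, Fin.sum_univ_succ, Fin.cons_zero, Fin.cons_succ,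
    one_apply, eq_comm (a := j), ← h1, mulVec, dotProduct, transpose_apply]
  simp [A, mul_comm]

theorem fan_sum (a : Fin r → Fin n →₀ ℕ) (ha : LinearIndependent ℝ (fun j i => (a j i : ℝ)))
    {Φ : Finset (Finset (Fin n → ℕ))} (hΦ : IsSmoothFan a Φ) {b : ℕ → ℝ → ℝ} (hb : IsStep 0 1 b)
    (ε η δ : ℕ → ℝ) (hε : ∀ k, 0 < ε k ∧ ε k ≤ 1)
    (hη : ∀ k, 0 < η k ∧ η k ≤ 1) (hδ : ∀ k, 0 < δ k ∧ δ k ≤ 1) (lε : Tendsto ε atTop (𝓝 0))
    (lη : Tendsto η atTop (𝓝 0)) (lδ : Tendsto δ atTop (𝓝 0))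
    (l1 : Tendsto (fun k => δ k / ε k) atTop (𝓝 0)) (l2 : Tendsto (fun k => δ k / η k) atTop (𝓝 0))
    {s : ℝ} (hs : 0 < s) :
    Tendsto (fun k => ∑ j, (∫ x, Fint a {j} (scale b (ε k) (δ k))
        (fun j => -(η k * ∑ i, (a j i : ℝ))) s x) +
      s * ∑ T ∈ Finset.univ.erase ∅, (vol a T : ℝ) ^ 2 * ∫ x, Fint a T (scale b (ε k) (δ k))
        (fun j => -(η k * ∑ i, (a j i : ℝ))) s x) atTop
      (𝓝 (-∑ τ ∈ Φ, (chiOff a τ * s + if τ.card = n then 1 else 0) *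
        ∏ ρ ∈ τ, 1 / ((ordAlong a ρ : ℝ) * s + ((∑ i, ρ i : ℕ) : ℝ)))) := by
  classical
  obtain ⟨R0, hR0, h00⟩ := exists_R0 a ha
  let R : ∀ T : Finset (Fin r), Matrix (Fin (n + 1)) T ℝ := fun T m j => R0 m j
  have hR : ∀ T, YT a T * R T = 1 := by
    intro T
    ext j l
    have := congrFun (congrFun hR0 j) l
    simp only [mul_apply, one_apply] at this
    simp only [mul_apply, one_apply, YT, R, Subtype.ext_iff, this]
  have hP : ∀ T x, (∀ j ∈ T, (Yr a *ᵥ x) j = 0) → (1 - R T * YT a T) *ᵥ x = x := by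
    intro T x hx
    rw [sub_mulVec, one_mulVec, ← mulVec_mulVec,
      show YT a T *ᵥ x = 0 from funext (fun j => hx j j.2), mulVec_zero, sub_zero]
  have hne : ∀ T, ∀ j ∉ T, ∃ x, (Yr a *ᵥ ((1 - R T * YT a T) *ᵥ x)) j ≠ 0 := by
    intro T j hj
    have : Yr a *ᵥ (R0 *ᵥ Pi.single j 1) = Pi.single j 1 := by rw [mulVec_mulVec, hR0, one_mulVec]
    refine ⟨R0 *ᵥ Pi.single j 1, ?_⟩
    rw [hP T _ (fun l hl => by rw [this, Pi.single_eq_of_ne (fun e : l = j => hj (e ▸ hl))]), this]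
    simp
  have h0 : ∀ T, ∃ x, ((1 - R T * YT a T) *ᵥ x) 0 ≠ 0 := by
    intro T
    refine ⟨Pi.single 0 1 + R0 *ᵥ (fun _ => 1), ?_⟩
    rw [hP T _ (fun l _ => ?_)]
    · simp [mulVec, dotProduct, h00]
    · rw [mulVec_add, mulVec_mulVec, hR0, one_mulVec, Pi.add_apply, Yr_mulVec]
      simp
  have hl := fun T => delta_limit a T (R T) (hR T) (hne T) hb ε η δ hε hη hδ lε lη lδ l1 l2 hs
  have hG := fun T hT => Glim_integral a (R T) (hR T) hT (h0 T) hΦ hb hs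
  convert (tendsto_finsetSum Finset.univ (fun j _ => hl {j})).add
    ((tendsto_finsetSum (Finset.univ.erase ∅)
      (fun T _ => (hl T).const_mul ((vol a T : ℝ) ^ 2))).const_mul s) using 2
  set q : Finset (Fin n → ℕ) → ℝ :=
    fun τ => ∏ ρ ∈ τ, 1 / ((ordAlong a ρ : ℝ) * s + ((∑ i, ρ i : ℕ) : ℝ)) with hq
  have e1 : ∑ j : Fin r, (-1 : ℝ) ^ ({j} : Finset (Fin r)).card * ∫ x, Glim a {j} (R {j}) b s x =
      -∑ τ ∈ Φ, (if τ.card = n then 1 else 0) * q τ := by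
    have : ∀ j : Fin r, (-1 : ℝ) ^ ({j} : Finset (Fin r)).card * ∫ x, Glim a {j} (R {j}) b s x =
        -∑ τ ∈ Φ, if face a τ = {j} ∧ τ.card = n then q τ else 0 := by
      intro j
      have := hG {j} (Finset.singleton_nonempty j)
      rw [vol_singleton, Nat.cast_one, one_mul, Finset.sum_filter] at this
      simp [this, q]
    simp only [this, Finset.sum_neg_distrib]
    rw [Finset.sum_comm]
    congr 1
    refine Finset.sum_congr rfl (fun τ hτ => ?_)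
    by_cases h : τ.card = n
    · obtain ⟨σ, hσ, hρ⟩ := hΦ.1 τ hτ
      have h1 := card_le a (R _) (hR _) hσ hρ rfl
      have h2 := (hΦ.2.1 τ hτ).card_pos
      obtain ⟨j, hj⟩ := Finset.card_eq_one.mp (by omega : (face a τ).card = 1)
      simp [h, hj]
    · simp [h]
  have e2 : ∑ T ∈ Finset.univ.erase ∅, (vol a T : ℝ) ^ 2 * ((-1 : ℝ) ^ T.card *
      ∫ x, Glim a T (R T) b s x) = -∑ τ ∈ Φ, chiOff a τ * q τ := by
    have : ∀ T ∈ Finset.univ.erase ∅, (vol a T : ℝ) ^ 2 * ((-1 : ℝ) ^ T.card *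
        ∫ x, Glim a T (R T) b s x) = ∑ τ ∈ Φ, if face a τ = T then
          (if τ.card + T.card = n + 1 then (-1) ^ T.card * vol a T * q τ else 0) else 0 := by
      intro T hT
      have := hG T (Finset.nonempty_iff_ne_empty.mpr (Finset.ne_of_mem_erase hT))
      rw [Finset.sum_filter] at this
      rw [show ∀ x : ℝ, (vol a T : ℝ) ^ 2 * ((-1) ^ T.card * x) =
        (-1) ^ T.card * vol a T * (vol a T * x) from fun x => by ring, this, Finset.mul_sum]
      refine Finset.sum_congr rfl (fun τ _ => ?_)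
      by_cases h : face a τ = T <;> simp [h, q]
    rw [Finset.sum_congr rfl this, Finset.sum_comm, ← Finset.sum_neg_distrib]
    refine Finset.sum_congr rfl (fun τ hτ => ?_)
    have h2 := hΦ.2.1 τ hτ
    rw [Finset.sum_ite_eq, if_pos (by simpa using h2.ne_empty), chiOff]
    split_ifs with h
    · have h3 := h2.card_pos
      rw [show (face a τ).card = n - τ.card + 1 by omega]
      push_cast
      ring
    · simp
  rw [e1, e2]
  simp only [add_mul, Finset.sum_add_distrib, Finset.mul_sum, mul_neg]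
  rw [Finset.sum_congr rfl (fun τ _ => by ring :
    ∀ τ ∈ Φ, s * ((chiOff a τ : ℝ) * q τ) = chiOff a τ * s * q τ)]
  ring

theorem ratfunc_of_eval2 {ι : Type*} (F : Finset ι) (q p : ι → Polynomial ℂ) (b Q : Polynomial ℂ)
    (hp : ∀ σ ∈ F, ∀ s : ℝ, 0 < s → (p σ).eval (s : ℂ) ≠ 0)
    (h : ∀ s : ℝ, 0 < s →
      b.eval (s : ℂ) * ∑ σ ∈ F, (q σ).eval (s : ℂ) / (p σ).eval (s : ℂ) = Q.eval (s : ℂ)) :
    algebraMap (Polynomial ℂ) (RatFunc ℂ) b *
      ∑ σ ∈ F, algebraMap (Polynomial ℂ) (RatFunc ℂ) (q σ) /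
        algebraMap (Polynomial ℂ) (RatFunc ℂ) (p σ) = algebraMap (Polynomial ℂ) (RatFunc ℂ) Q := by
  classical
  have aux : ∀ {K : Type} [Field K] (y x : ι → K), (∀ σ ∈ F, x σ ≠ 0) →
      (∑ σ ∈ F, y σ / x σ) * ∏ σ ∈ F, x σ = ∑ σ ∈ F, y σ * ∏ τ ∈ F.erase σ, x τ := by
    intro K _ y x hx
    rw [Finset.sum_mul]
    refine Finset.sum_congr rfl (fun σ hσ => ?_)
    rw [← Finset.mul_prod_erase F x hσ, ← mul_assoc, div_mul_cancel₀ _ (hx σ hσ)]
  have hne : ∀ σ ∈ F, algebraMap (Polynomial ℂ) (RatFunc ℂ) (p σ) ≠ 0 := by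
    intro σ hσ h0
    have : p σ = 0 := (RatFunc.algebraMap_injective ℂ) (by simpa using h0)
    exact hp σ hσ 1 one_pos (by simp [this])
  have key : b * ∑ σ ∈ F, q σ * ∏ τ ∈ F.erase σ, p τ = Q * ∏ σ ∈ F, p σ := by
    refine Polynomial.eq_of_infinite_eval_eq _ _ ?_
    refine ((Set.Ioi_infinite (0 : ℝ)).image Complex.ofReal_injective.injOn).mono ?_
    rintro _ ⟨s, hs, rfl⟩
    simp only [Set.mem_ofPred_eq, Polynomial.eval_mul, Polynomial.eval_finsetSum,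
      Polynomial.eval_prod]
    rw [← aux _ (fun σ => (p σ).eval (s : ℂ)) (fun σ hσ => hp σ hσ s hs), ← h s hs, mul_assoc]
  have h2 := congrArg (algebraMap (Polynomial ℂ) (RatFunc ℂ)) key
  simp only [map_mul, map_sum, map_prod] at h2
  rw [← aux _ _ hne, ← mul_assoc] at h2
  exact mul_right_cancel₀ (Finset.prod_ne_zero_iff.mpr hne) h2

theorem main2 (a : Fin r → Fin n →₀ ℕ) (ha : LinearIndependent ℝ (fun j i => (a j i : ℝ)))
    {K : ℕ} (hK : 1 ≤ K) (B : Polynomial ℂ)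
    (hstar : Polynomial.aeval (∑ j, MvPolynomial.X j : MvPolynomial (Fin r) ℂ) B *
      ∏ j, Del1 K j ∈ nIdeal a K) {Φ : Finset (Finset (Fin n → ℕ))} (hΦ : IsSmoothFan a Φ) :
    ∃ Q : Polynomial ℂ, algebraMap (Polynomial ℂ) (RatFunc ℂ) B * ((RatFunc.X + 1) * zetaDL a Φ) =
      algebraMap (Polynomial ℂ) (RatFunc ℂ) Q := by
  obtain ⟨b, hb⟩ := exists_isStep 0 1 one_pos
  let S : ℝ := ∑ j, (K * ∑ i, (a j i : ℝ) + K)
  have hS : 0 ≤ S := by positivity
  let ε : ℕ → ℝ := fun k => 1 / ((k : ℝ) + 1)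
  let η : ℕ → ℝ := fun k => ε k / (S + 1)
  let δ : ℕ → ℝ := fun k => ε k * η k
  have hε : ∀ k, 0 < ε k ∧ ε k ≤ 1 := fun k =>
    ⟨by positivity, (div_le_one (by positivity)).mpr (by linarith [Nat.cast_nonneg (α := ℝ) k])⟩
  have hη : ∀ k, 0 < η k ∧ η k ≤ 1 := fun k =>
    ⟨div_pos (hε k).1 (by linarith), (div_le_one (by linarith)).mpr (by linarith [(hε k).2])⟩
  have hδ : ∀ k, 0 < δ k ∧ δ k ≤ 1 := fun k =>
    ⟨mul_pos (hε k).1 (hη k).1, mul_le_one₀ (hε k).2 (hη k).1.le (hη k).2⟩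
  have lε : Tendsto ε atTop (𝓝 0) := tendsto_one_div_add_atTop_nhds_zero_nat
  have lη : Tendsto η atTop (𝓝 0) := by simpa using lε.div_const (S + 1)
  have lδ : Tendsto δ atTop (𝓝 0) := by simpa using lε.mul lη
  have l1 : Tendsto (fun k => δ k / ε k) atTop (𝓝 0) :=
    lη.congr (fun k => (mul_div_cancel_left₀ _ (hε k).1.ne').symm)
  have l2 : Tendsto (fun k => δ k / η k) atTop (𝓝 0) :=
    lε.congr (fun k => (mul_div_cancel_right₀ _ (hη k).1.ne').symm)
  have hz : ∀ k, ∀ d : Fin r → ℤ, ∑ j, d j = 1 → (∀ j, |d j| ≤ K) →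
      ∑ j, (d j : ℝ) * -(η k * ∑ i, (a j i : ℝ)) < ε k - δ k * ∑ j, |(d j : ℝ)| := by
    intro k d _ hd
    have h1 : η k * (S + 1) = ε k := div_mul_cancel₀ _ (by linarith)
    have h2 : ∑ j, (d j : ℝ) * -(η k * ∑ i, (a j i : ℝ)) + δ k * ∑ j, |(d j : ℝ)| ≤ η k * S := by
      rw [Finset.mul_sum, Finset.mul_sum, ← Finset.sum_add_distrib]
      refine Finset.sum_le_sum (fun j _ => ?_)
      have h3 : |(d j : ℝ)| ≤ K := by exact_mod_cast hd j
      have h4 : 0 ≤ η k * ∑ i, (a j i : ℝ) := mul_nonneg (hη k).1.le (by positivity)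
      have h5 : δ k ≤ η k := mul_le_of_le_one_left (hη k).1.le (hε k).2
      have h6 := mul_le_mul h5 h3 (abs_nonneg _) (hη k).1.le
      nlinarith [neg_abs_le (d j : ℝ)]
    linarith [(hη k).1]
  choose R hR hRe using fun k =>
    Lam2_poly (isStep_scale hb (ε k) (hδ k).1) (hδ k).1.le a hK B hstar _ (hz k)
  obtain ⟨Q, hQ⟩ := poly_limit _ R hR (fun s => B.eval (s : ℂ) *
    ((-∑ τ ∈ Φ, (chiOff a τ * s + if τ.card = n then 1 else 0) *
      ∏ ρ ∈ τ, 1 / ((ordAlong a ρ : ℝ) * s + ((∑ i, ρ i : ℕ) : ℝ)) : ℝ) : ℂ)) (fun s hs => by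
    simp only [← hRe _ s hs, Lam2_eq_Fint]
    refine Tendsto.const_mul _ ?_
    have := (Complex.continuous_ofReal.tendsto _).comp
      (fan_sum a ha hΦ hb ε η δ hε hη hδ lε lη lδ l1 l2 hs)
    refine this.congr (fun k => ?_)
    simp)
  refine ⟨-Q, ?_⟩
  rw [← ratfunc_of_eval2 Φ (fun τ => Polynomial.C (chiOff a τ : ℂ) * Polynomial.X +
      if τ.card = n then 1 else 0)
    (fun τ => ∏ ρ ∈ τ, (Polynomial.C (ordAlong a ρ : ℂ) * Polynomial.X +
      Polynomial.C ((∑ i, ρ i : ℕ) : ℂ))) B (-Q) (fun τ hτ s hs => ?_) (fun s hs => ?_)]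
  · rw [zetaDL, Finset.mul_sum]
    congr 1
    refine Finset.sum_congr rfl (fun τ _ => ?_)
    have hX : (RatFunc.X + 1 : RatFunc ℂ) ≠ 0 := by
      have : (RatFunc.X + 1 : RatFunc ℂ) =
        algebraMap (Polynomial ℂ) (RatFunc ℂ) (Polynomial.X + Polynomial.C 1) := by simp
      rw [this]
      exact RatFunc.algebraMap_ne_zero (Polynomial.X_add_C_ne_zero 1)
    rw [Finset.prod_div_distrib, Finset.prod_const_one, map_prod, ← mul_assoc, mul_one_div]
    simp only [map_add, map_mul, map_natCast, map_intCast, RatFunc.algebraMap_X, chiOn]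
    congr 1
    split_ifs <;> field_simp <;> simp <;> ring
  · rw [Polynomial.eval_prod]
    refine Finset.prod_ne_zero_iff.mpr (fun ρ hρ => ?_)
    obtain ⟨σ, hσ, h⟩ := hΦ.1 τ hτ
    obtain ⟨l, rfl⟩ := h ρ hρ
    have hpos : (0 : ℝ) < (ordAlong a (σ l) : ℝ) * s + ((∑ i, σ l i : ℕ) : ℝ) := by
      have : (0 : ℝ) < ((∑ i, σ l i : ℕ) : ℝ) := by exact_mod_cast row_pos σ hσ l
      positivity
    simp only [Polynomial.eval_add, Polynomial.eval_mul, Polynomial.eval_C, Polynomial.eval_X]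
    exact_mod_cast hpos.ne'
  · rw [Polynomial.eval_neg, ← hQ s hs, ← mul_neg]
    congr 1
    push_cast
    rw [neg_neg]
    refine Finset.sum_congr rfl (fun τ _ => ?_)
    rw [Finset.prod_div_distrib, Finset.prod_const_one, mul_one_div, Polynomial.eval_prod]
    split_ifs <;> simp [Polynomial.eval_finsetSum]

theorem cinj_of_li (a : Fin r → Fin n →₀ ℕ) (π : Fin r → Fin k)
    (ha : LinearIndependent ℝ (fun j i => (cay a π j i : ℝ))) : CInj a π := by
  intro d h1 h2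
  have := Fintype.linearIndependent_iff.mp ha (fun j => d j) (funext fun i => by
    have : linZ (cay a π) d i = 0 := by
      refine Fin.addCases (fun i => ?_) (fun i => ?_) i
      · rw [linZ_cay_left, h1]
      · rw [linZ_cay_right, h2]
    simp only [Finset.sum_apply, Pi.smul_apply, smul_eq_mul, Pi.zero_apply]
    simp only [linZ, mul_comm _ (d _)] at this
    exact_mod_cast this)
  exact funext (fun j => by exact_mod_cast this j)

end Pool.Agent.MP_ee8c61_ag.H48
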